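import Mathlib
import Pool.Agent.N248.RR.B
set_option autoImplicit false
set_option linter.unusedSectionVars false

/-! Random sets: Chernoff bounds, and the test sets of the level sets of the functions. -/

namespace Pool.Agent.Helper70x.RS

open MeasureTheory Set ProbabilityTheory
open scoped ENNReal

variable {α Ω : Type*} [MeasurableSpace Ω]

/-- the number of chosen elements -/
noncomputable def cnt (A : α → Set Ω) (S : Finset α) (ω : Ω) : ℝ :=
  ∑ j ∈ S, (A j).indicator (fun _ => (1 : ℝ)) ω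

theorem cnt_nonneg (A : α → Set Ω) (S : Finset α) (ω : Ω) : 0 ≤ cnt A S ω :=
  Finset.sum_nonneg fun _ _ => indicator_nonneg (fun _ _ => zero_le_one) _

theorem cnt_mono (A : α → Set Ω) {S T : Finset α} (h : S ⊆ T) (ω : Ω) : cnt A S ω ≤ cnt A T ω :=
  Finset.sum_le_sum_of_subset_of_nonneg h fun _ _ _ =>
    indicator_nonneg (fun _ _ => zero_le_one) _

theorem mgf_ind (P : Measure Ω) [IsProbabilityMeasure P] (B : Set Ω) (hB : MeasurableSet B)
    (s : ℝ) : mgf (B.indicator fun _ => (1 : ℝ)) P s = 1 + P.real B * (Real.exp s - 1) := by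
  unfold mgf
  have h1 : ∀ ω, Real.exp (s * B.indicator (fun _ => (1 : ℝ)) ω) =
      1 + B.indicator (fun _ => Real.exp s - 1) ω := by
    intro ω
    by_cases h : ω ∈ B
    · rw [indicator_of_mem h, indicator_of_mem h, mul_one]; ring
    · rw [indicator_of_notMem h, indicator_of_notMem h, mul_zero, Real.exp_zero, add_zero]
  simp_rw [h1]
  rw [integral_add (integrable_const _) ((integrable_const _).indicator hB), integral_const,
    integral_indicator hB, setIntegral_const]
  simp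

theorem mgf_cnt (P : Measure Ω) [IsProbabilityMeasure P] (A : α → Set Ω)
    (hAm : ∀ j, MeasurableSet (A j)) (hind : iIndepSet A P) (S : Finset α) (s : ℝ) :
    mgf (cnt A S) P s ≤ Real.exp ((∑ j ∈ S, P.real (A j)) * (Real.exp s - 1)) := by
  have hXi : iIndepFun (fun j => (A j).indicator fun _ => (1 : ℝ)) P := hind.iIndepFun_indicator
  have h1 : cnt A S = ∑ j ∈ S, (A j).indicator fun _ => (1 : ℝ) := by
    ext ω
    unfold cnt
    rw [Finset.sum_apply]
  rw [h1, hXi.mgf_sum fun j => measurable_const.indicator (hAm j)]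
  rw [Finset.sum_mul, Real.exp_sum]
  refine Finset.prod_le_prod (fun j _ => mgf_nonneg) fun j _ => ?_
  rw [mgf_ind P _ (hAm j)]
  have := Real.add_one_le_exp (P.real (A j) * (Real.exp s - 1))
  linarith

theorem cnt_meas (A : α → Set Ω) (hAm : ∀ j, MeasurableSet (A j)) (S : Finset α) :
    Measurable (cnt A S) := by
  unfold cnt
  exact Finset.measurable_sum _ fun j _ => measurable_const.indicator (hAm j)

theorem cnt_int (P : Measure Ω) [IsProbabilityMeasure P] (A : α → Set Ω)
    (hAm : ∀ j, MeasurableSet (A j)) (S : Finset α) (s : ℝ) :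
    Integrable (fun ω => Real.exp (s * cnt A S ω)) P := by
  refine Integrable.of_bound (C := Real.exp (|s| * S.card))
    (((cnt_meas A hAm S).const_mul s).exp).aestronglyMeasurable
    (Filter.Eventually.of_forall fun ω => ?_)
  rw [Real.norm_of_nonneg (Real.exp_pos _).le]
  refine Real.exp_le_exp.2 ?_
  have h1 : cnt A S ω ≤ S.card := by
    unfold cnt
    calc ∑ j ∈ S, (A j).indicator (fun _ => (1 : ℝ)) ω ≤ ∑ _j ∈ S, (1 : ℝ) :=
          Finset.sum_le_sum fun j _ => by
            by_cases h : ω ∈ A j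
            · rw [indicator_of_mem h]
            · rw [indicator_of_notMem h]; exact zero_le_one
      _ = S.card := by simp
  calc s * cnt A S ω ≤ |s| * cnt A S ω := mul_le_mul_of_nonneg_right (le_abs_self s)
        (cnt_nonneg A S ω)
    _ ≤ _ := mul_le_mul_of_nonneg_left h1 (abs_nonneg s)

/-- upper deviations -/
theorem dev_up (P : Measure Ω) [IsProbabilityMeasure P] (A : α → Set Ω)
    (hAm : ∀ j, MeasurableSet (A j)) (hind : iIndepSet A P) (S : Finset α) (t : ℝ) (ht : 0 ≤ t) :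
    P.real {ω | 2 * (∑ j ∈ S, P.real (A j)) + t ≤ cnt A S ω} ≤ Real.exp (-(t / 2)) := by
  set M : ℝ := ∑ j ∈ S, P.real (A j) with hM
  have hM0 : 0 ≤ M := Finset.sum_nonneg fun _ _ => measureReal_nonneg
  have h1 := measure_ge_le_exp_mul_mgf (μ := P) (X := cnt A S) (2 * M + t) (t := 1) zero_le_one
    (cnt_int P A hAm S 1)
  refine h1.trans ?_
  have h2 := mgf_cnt P A hAm hind S 1
  calc Real.exp (-1 * (2 * M + t)) * mgf (cnt A S) P 1
      ≤ Real.exp (-1 * (2 * M + t)) * Real.exp (M * (Real.exp 1 - 1)) :=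
        mul_le_mul_of_nonneg_left h2 (Real.exp_pos _).le
    _ = Real.exp (-1 * (2 * M + t) + M * (Real.exp 1 - 1)) := by rw [← Real.exp_add]
    _ ≤ _ := by
        refine Real.exp_le_exp.2 ?_
        have h3 := Real.exp_one_lt_d9
        nlinarith

/-- lower deviations -/
theorem dev_lo (P : Measure Ω) [IsProbabilityMeasure P] (A : α → Set Ω)
    (hAm : ∀ j, MeasurableSet (A j)) (hind : iIndepSet A P) (S : Finset α) (t : ℝ) :
    P.real {ω | 2 * cnt A S ω + t ≤ ∑ j ∈ S, P.real (A j)} ≤ Real.exp (-(t / 2)) := by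
  set M : ℝ := ∑ j ∈ S, P.real (A j) with hM
  have hM0 : 0 ≤ M := Finset.sum_nonneg fun _ _ => measureReal_nonneg
  have h1 := measure_le_le_exp_mul_mgf (μ := P) (X := cnt A S) ((M - t) / 2) (t := -1)
    (by norm_num) (cnt_int P A hAm S (-1))
  have e : {ω | 2 * cnt A S ω + t ≤ M} = {ω | cnt A S ω ≤ (M - t) / 2} := by
    ext ω
    simp only [mem_ofPred_eq]
    constructor <;> intro h <;> linarith
  rw [e]
  refine h1.trans ?_
  have h2 := mgf_cnt P A hAm hind S (-1)
  calc Real.exp (-(-1) * ((M - t) / 2)) * mgf (cnt A S) P (-1)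
      ≤ Real.exp (-(-1) * ((M - t) / 2)) * Real.exp (M * (Real.exp (-1) - 1)) :=
        mul_le_mul_of_nonneg_left h2 (Real.exp_pos _).le
    _ = Real.exp (-(-1) * ((M - t) / 2) + M * (Real.exp (-1) - 1)) := by rw [← Real.exp_add]
    _ ≤ _ := by
        refine Real.exp_le_exp.2 ?_
        have h3 : Real.exp (-1) ≤ 1 / 2 := by
          rw [Real.exp_neg, one_div]
          refine inv_anti₀ (by norm_num) ?_
          have := Real.add_one_le_exp (1 : ℝ)
          linarith
        nlinarith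

/-- all test sets behave well -/
theorem dev_all (P : Measure Ω) [IsProbabilityMeasure P] (A : α → Set Ω)
    (hAm : ∀ j, MeasurableSet (A j)) (hind : iIndepSet A P) (F : Finset (Finset α)) (t : ℝ)
    (ht : 0 ≤ t) :
    P {ω | ∃ S ∈ F, 2 * (∑ j ∈ S, P.real (A j)) + t ≤ cnt A S ω ∨
      2 * cnt A S ω + t ≤ ∑ j ∈ S, P.real (A j)} ≤
      ENNReal.ofReal (2 * F.card * Real.exp (-(t / 2))) := by
  have hsub : {ω | ∃ S ∈ F, 2 * (∑ j ∈ S, P.real (A j)) + t ≤ cnt A S ω ∨
      2 * cnt A S ω + t ≤ ∑ j ∈ S, P.real (A j)} ⊆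
      ⋃ S ∈ F, ({ω | 2 * (∑ j ∈ S, P.real (A j)) + t ≤ cnt A S ω} ∪
        {ω | 2 * cnt A S ω + t ≤ ∑ j ∈ S, P.real (A j)}) := by
    rintro ω ⟨S, hS, h⟩
    rw [mem_iUnion₂]
    exact ⟨S, hS, h⟩
  refine (measure_mono hsub).trans ((measure_biUnion_finset_le _ _).trans ?_)
  have h1 : ∀ S ∈ F, P ({ω | 2 * (∑ j ∈ S, P.real (A j)) + t ≤ cnt A S ω} ∪
        {ω | 2 * cnt A S ω + t ≤ ∑ j ∈ S, P.real (A j)}) ≤
        ENNReal.ofReal (2 * Real.exp (-(t / 2))) := by
    intro S _
    refine (measure_union_le _ _).trans ?_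
    rw [two_mul (Real.exp _), ENNReal.ofReal_add (Real.exp_pos _).le (Real.exp_pos _).le]
    refine add_le_add ?_ ?_
    · rw [← ofReal_measureReal (measure_ne_top _ _)]
      exact ENNReal.ofReal_le_ofReal (dev_up P A hAm hind S t ht)
    · rw [← ofReal_measureReal (measure_ne_top _ _)]
      exact ENNReal.ofReal_le_ofReal (dev_lo P A hAm hind S t)
  refine (Finset.sum_le_sum h1).trans (le_of_eq ?_)
  rw [Finset.sum_const, nsmul_eq_mul, show ((F.card : ℕ) : ℝ≥0∞) = ENNReal.ofReal (F.card : ℝ) by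
    rw [ENNReal.ofReal_natCast], ← ENNReal.ofReal_mul (by positivity)]
  congr 1
  ring

variable {H : Type*} [NormedAddCommGroup H] [InnerProductSpace ℂ H]

open scoped Classical in
/-- the elements of `B` where `|⟨φ, f⟩| > lam` -/
noncomputable def lev (φ : α → H) (B : Finset α) (lam : ℝ) (f : H) : Finset α :=
  B.filter fun j => lam < ‖inner ℂ (φ j) f‖

/-- the test sets -/
theorem tests (φ : α → H) (hφ : ∀ j, ‖φ j‖ ≤ 1) (B : Finset α) (hB : B.Nonempty) (lam : ℝ)
    (hl : 0 < lam) :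
    ∃ F : Finset (Finset α), (F.card : ℝ) ≤ 2 * Real.exp (256 / lam ^ 2 * Real.log (8 * B.card)) ∧
      ∀ f : H, ‖f‖ ≤ 1 → ∃ S ∈ F, lev φ B lam f ⊆ S ∧ S ⊆ lev φ B (lam / 2) f := by
  classical
  obtain ⟨N, -, hN2, hN3⟩ := Pool.Agent.N248.RR.net B hB φ 1 (lam / 4) one_pos (by positivity)
    fun i _ => hφ i
  refine ⟨N.image fun g => lev φ B (3 / 4 * lam) g, ?_, ?_⟩
  · have h1 : ((N.image fun g => lev φ B (3 / 4 * lam) g).card : ℝ) ≤ N.card := by
      exact_mod_cast Finset.card_image_le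
    refine h1.trans (hN2.trans (le_of_eq ?_))
    congr 3
    field_simp
    norm_num
  · intro f hf
    obtain ⟨g, hg, hfg⟩ := hN3 f hf
    refine ⟨_, Finset.mem_image_of_mem _ hg, ?_, ?_⟩
    · intro j hj
      unfold lev at hj ⊢
      rw [Finset.mem_filter] at hj ⊢
      refine ⟨hj.1, ?_⟩
      have h1 := hfg j hj.1
      rw [inner_sub_right] at h1
      have h2 := norm_sub_norm_le (inner ℂ (φ j) f) (inner ℂ (φ j) g)
      linarith [hj.2]
    · intro j hj
      unfold lev at hj ⊢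
      rw [Finset.mem_filter] at hj ⊢
      refine ⟨hj.1, ?_⟩
      have h1 := hfg j hj.1
      rw [inner_sub_right] at h1
      have h2 := norm_sub_norm_le (inner ℂ (φ j) g) (inner ℂ (φ j) f)
      rw [norm_sub_rev] at h2
      linarith [hj.2]

end Pool.Agent.Helper70x.RS
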