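import Mathlib
import Pool.Agent.N248.RR.D
import Pool.Agent.Helper70x.RS.Prob
set_option autoImplicit false
set_option linter.unusedSectionVars false

/-! Random sets: deterministic counting estimates. -/

namespace Pool.Agent.Helper70x.RS

open MeasureTheory Set ProbabilityTheory
open scoped ENNReal NNReal

variable {H : Type*} [NormedAddCommGroup H] [InnerProductSpace ℂ H]

/-- duality -/
theorem dual_sq {ι : Type*} (F : Finset ι) (v : ι → H) (f : H) (hf : ‖f‖ ≤ 1) :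
    (∑ i ∈ F, ‖inner ℂ (v i) f‖) ^ 2 ≤ ∑ i ∈ F, ∑ j ∈ F, ‖inner ℂ (v i) (v j)‖ := by
  set s : ι → ℂ := fun i => inner ℂ (v i) f / (‖inner ℂ (v i) f‖ : ℂ) with hs
  have hs1 : ∀ i, ‖s i‖ ≤ 1 := by
    intro i
    simp only [hs]
    rw [norm_div, Complex.norm_real, norm_norm]
    exact div_self_le_one _
  set w : H := ∑ i ∈ F, s i • v i with hw
  have h1 : inner ℂ w f = ((∑ i ∈ F, ‖inner ℂ (v i) f‖ : ℝ) : ℂ) := by
    rw [hw, sum_inner]
    push_cast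
    refine Finset.sum_congr rfl fun i _ => ?_
    rw [inner_smul_left]
    simp only [hs]
    rw [map_div₀, Complex.conj_ofReal, div_mul_eq_mul_div, Complex.conj_mul']
    by_cases h0 : ‖inner ℂ (v i) f‖ = 0
    · rw [h0]; simp
    · have : (‖inner ℂ (v i) f‖ : ℂ) ≠ 0 := by exact_mod_cast h0
      field_simp
  have hS0 : 0 ≤ ∑ i ∈ F, ‖inner ℂ (v i) f‖ := Finset.sum_nonneg fun i _ => norm_nonneg _
  have h2 : ∑ i ∈ F, ‖inner ℂ (v i) f‖ ≤ ‖w‖ := by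
    have h3 := norm_inner_le_norm (𝕜 := ℂ) w f
    rw [h1, Complex.norm_real, Real.norm_eq_abs, abs_of_nonneg hS0] at h3
    have h4 : ‖w‖ * ‖f‖ ≤ ‖w‖ * 1 := mul_le_mul_of_nonneg_left hf (norm_nonneg _)
    linarith
  have h6 : ‖w‖ ^ 2 = ‖inner ℂ w w‖ := by
    rw [inner_self_eq_norm_sq_to_K]
    simp
  have h7 : inner ℂ w w = ∑ i ∈ F, ∑ j ∈ F, (starRingEnd ℂ) (s i) * s j * inner ℂ (v i) (v j) := by
    rw [hw, sum_inner]
    refine Finset.sum_congr rfl fun i _ => ?_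
    rw [inner_sum]
    refine Finset.sum_congr rfl fun j _ => ?_
    rw [inner_smul_left, inner_smul_right]
    ring
  calc (∑ i ∈ F, ‖inner ℂ (v i) f‖) ^ 2 ≤ ‖w‖ ^ 2 := pow_le_pow_left₀ hS0 h2 2
    _ = ‖inner ℂ w w‖ := h6
    _ ≤ _ := by
        rw [h7]
        refine (norm_sum_le _ _).trans (Finset.sum_le_sum fun i hi => ?_)
        refine (norm_sum_le _ _).trans (Finset.sum_le_sum fun j hj => ?_)
        rw [norm_mul, norm_mul, RCLike.norm_conj]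
        have : ‖s i‖ * ‖s j‖ ≤ 1 := mul_le_one₀ (hs1 i) (norm_nonneg _) (hs1 j)
        exact mul_le_of_le_one_left (norm_nonneg _) this

variable {d : ℕ}

/-- the vectors `φ j` have norm at most one and are almost orthogonal -/
structure Vecs (φ : (Fin d → ℤ) → H) (L γ : ℝ) : Prop where
  L1 : 1 ≤ L
  g0 : 0 < γ
  bd : ∀ j, ‖φ j‖ ≤ 1
  dec : ∀ i j, i ≠ j → ‖inner ℂ (φ i) (φ j)‖ ≤ L * ‖i - j‖ ^ (-γ)

theorem far_count {φ : (Fin d → ℤ) → H} {L γ : ℝ} (hφ : Vecs φ L γ) (ε r lam : ℝ) (hl : 0 < lam)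
    (hdec : ∀ i j : Fin d → ℤ, r < ‖i - j‖ → ‖inner ℂ (φ i) (φ j)‖ ≤ ε) (hε0 : 0 ≤ ε)
    (hε : 2 * ε ≤ lam ^ 2)
    (f : H) (hf : ‖f‖ ≤ 1) (F : Finset (Fin d → ℤ)) (hF : ∀ j ∈ F, lam < ‖inner ℂ (φ j) f‖)
    (u : ℕ) (hu : ∀ j ∈ F, (F.filter fun i => ‖j - i‖ ≤ r).card ≤ u) :
    (F.card : ℝ) ≤ 2 * u / lam ^ 2 := by
  classical
  set N : ℝ := (F.card : ℝ) with hN
  have hN0 : 0 ≤ N := Nat.cast_nonneg _
  have h1 := dual_sq F φ f hf
  have h2 : N * lam ≤ ∑ i ∈ F, ‖inner ℂ (φ i) f‖ := by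
    rw [hN, ← nsmul_eq_mul, ← Finset.sum_const]
    exact Finset.sum_le_sum fun i hi => (hF i hi).le
  have h3 : ∑ i ∈ F, ∑ j ∈ F, ‖inner ℂ (φ i) (φ j)‖ ≤ N * (u + N * ε) := by
    rw [hN, ← nsmul_eq_mul, ← Finset.sum_const]
    refine Finset.sum_le_sum fun i hi => ?_
    have h4 : ∀ j ∈ F, ‖inner ℂ (φ i) (φ j)‖ ≤ (if ‖i - j‖ ≤ r then 1 else 0) + ε := by
      intro j _
      by_cases h : ‖i - j‖ ≤ r
      · rw [if_pos h]
        have := (norm_inner_le_norm (𝕜 := ℂ) (φ i) (φ j)).trans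
          (mul_le_one₀ (hφ.bd i) (norm_nonneg _) (hφ.bd j))
        linarith
      · rw [if_neg h, zero_add]
        exact hdec i j (not_le.1 h)
    refine (Finset.sum_le_sum h4).trans ?_
    rw [Finset.sum_add_distrib, ← Finset.sum_filter, Finset.sum_const, Finset.sum_const,
      nsmul_eq_mul, nsmul_eq_mul, mul_one]
    have h5 : (((F.filter fun j => ‖i - j‖ ≤ r).card : ℕ) : ℝ) ≤ u := by exact_mod_cast hu i hi
    linarith
  have h6 : (N * lam) ^ 2 ≤ N * (u + N * ε) :=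
    (pow_le_pow_left₀ (by positivity) h2 2).trans (h1.trans h3)
  rw [le_div_iff₀ (by positivity)]
  rcases hN0.eq_or_lt with h0 | h0
  · rw [← h0]; simp
  · have h8 : N * N * ε ≤ N * N * (lam ^ 2 / 2) :=
      mul_le_mul_of_nonneg_left (by linarith) (by positivity)
    have h7 : N * (N * lam ^ 2) ≤ N * (2 * u) := by
      have e1 : (N * lam) ^ 2 = N * N * lam ^ 2 := by ring
      have e2 : N * (u + N * ε) = N * u + N * N * ε := by ring
      rw [e1, e2] at h6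
      linarith
    exact le_of_mul_le_mul_left h7 h0

/-- the radius of the balls -/
theorem radius {φ : (Fin d → ℤ) → H} {L γ : ℝ} (hφ : Vecs φ L γ) :
    ∃ κ : ℕ, ∀ (l : ℕ) (i j : Fin d → ℤ), ((2 ^ (κ * (l + 1)) : ℕ) : ℝ) < ‖i - j‖ →
      ‖inner ℂ (φ i) (φ j)‖ ≤ ((1 / 2) ^ l) ^ 2 / 2 := by
  have hL := hφ.L1
  have hγ := hφ.g0
  obtain ⟨m, hm⟩ : ∃ m : ℕ, L ≤ 2 ^ m := by
    obtain ⟨m, hm⟩ := exists_nat_gt L
    have h1 : m < 2 ^ m := Nat.lt_two_pow_self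
    have h2 : (m : ℝ) < 2 ^ m := by exact_mod_cast h1
    exact ⟨m, by linarith⟩
  obtain ⟨κ, hκ⟩ := exists_nat_gt ((3 + (m : ℝ)) / γ)
  rw [div_lt_iff₀ hγ] at hκ
  refine ⟨κ, ?_⟩
  intro l i j hij
  set r : ℕ := 2 ^ (κ * (l + 1)) with hr
  have hr0 : (0 : ℝ) < r := by rw [hr]; positivity
  have hne : i ≠ j := by
    rintro rfl
    rw [sub_self, norm_zero] at hij
    linarith
  refine (hφ.dec i j hne).trans ?_
  have h1 : ‖i - j‖ ^ (-γ) ≤ (r : ℝ) ^ (-γ) :=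
    Real.rpow_le_rpow_of_nonpos hr0 hij.le (by linarith)
  have h2 : (r : ℝ) ^ (-γ) = (2 : ℝ) ^ (-(κ * γ * (l + 1))) := by
    rw [hr]
    push_cast
    rw [← Real.rpow_natCast, ← Real.rpow_mul (by norm_num)]
    congr 1
    push_cast
    ring
  have h3 : ((1 / 2 : ℝ) ^ l) ^ 2 / 2 = (2 : ℝ) ^ (-(2 * l + 1 : ℝ)) := by
    rw [Real.rpow_neg (by norm_num), one_div_pow, Real.rpow_add (by norm_num), Real.rpow_one,
      show (2 * (l : ℝ)) = ((2 * l : ℕ) : ℝ) by push_cast; ring, Real.rpow_natCast, pow_mul']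
    field_simp
  rw [h3]
  calc L * ‖i - j‖ ^ (-γ) ≤ 2 ^ (m : ℝ) * (2 : ℝ) ^ (-(κ * γ * (l + 1))) := by
        rw [Real.rpow_natCast, ← h2]
        exact mul_le_mul hm h1 (by positivity) (by positivity)
    _ = (2 : ℝ) ^ ((m : ℝ) + -(κ * γ * (l + 1))) := by rw [Real.rpow_add (by norm_num)]
    _ ≤ _ := by
        refine Real.rpow_le_rpow_of_exponent_le (by norm_num) ?_
        have hl0 : (0 : ℝ) ≤ l := Nat.cast_nonneg l
        have hm0 : (0 : ℝ) ≤ m := Nat.cast_nonneg m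
        have h4 : (3 + (m : ℝ)) * (l + 1) ≤ κ * γ * (l + 1) :=
          mul_le_mul_of_nonneg_right hκ.le (by linarith)
        nlinarith

/-- all level sets are finite, with polynomial bounds -/
theorem all_count {φ : (Fin d → ℤ) → H} {L γ : ℝ} (hφ : Vecs φ L γ) :
    ∃ K : ℕ, ∀ (l : ℕ) (f : H), ‖f‖ ≤ 1 → ∀ F : Finset (Fin d → ℤ),
      (∀ j ∈ F, (1 / 2) ^ l < ‖inner ℂ (φ j) f‖) → (F.card : ℝ) ≤ 2 ^ (K * (l + 1)) := by
  obtain ⟨κ, hκ⟩ := radius hφ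
  refine ⟨(κ + 2) * d + 3, ?_⟩
  intro l f hf F hF
  set r : ℕ := 2 ^ (κ * (l + 1)) with hr
  have hu : ∀ j ∈ F, (F.filter fun i => ‖j - i‖ ≤ r).card ≤ (2 * r + 1) ^ d := by
    intro j _
    rw [← Pool.Agent.N248.RR.ball_card j r]
    refine Finset.card_le_card fun i hi => ?_
    rw [Finset.mem_filter] at hi
    have := Pool.Agent.N248.RR.ball_subset j r (show i ∈ {i : Fin d → ℤ | ‖i - j‖ ≤ r} from by
      show ‖i - j‖ ≤ r
      rw [norm_sub_rev]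
      exact hi.2)
    exact this
  have h1 := far_count hφ (((1 / 2) ^ l) ^ 2 / 2) r ((1 / 2) ^ l) (by positivity)
    (fun i j h => hκ l i j h) (by positivity) (by linarith) f hf F hF _ hu
  refine h1.trans ?_
  have h2 : ((2 * r + 1 : ℕ) : ℝ) ≤ 2 ^ (κ * (l + 1) + 2) := by
    push_cast
    rw [hr]
    push_cast
    have : (1 : ℝ) ≤ 2 ^ (κ * (l + 1)) := one_le_pow₀ (by norm_num)
    rw [pow_add]
    linarith
  have h3 : (((2 * r + 1) ^ d : ℕ) : ℝ) ≤ 2 ^ ((κ * (l + 1) + 2) * d) := by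
    rw [pow_mul]
    push_cast at h2 ⊢
    exact pow_le_pow_left₀ (by positivity) h2 d
  calc 2 * (((2 * r + 1) ^ d : ℕ) : ℝ) / ((1 / 2) ^ l) ^ 2
      = (((2 * r + 1) ^ d : ℕ) : ℝ) * 2 ^ (2 * l + 1) := by
        rw [one_div_pow, pow_add, pow_mul']
        field_simp
    _ ≤ 2 ^ ((κ * (l + 1) + 2) * d) * 2 ^ (2 * l + 1) :=
        mul_le_mul_of_nonneg_right h3 (by positivity)
    _ = 2 ^ ((κ * (l + 1) + 2) * d + (2 * l + 1)) := by rw [← pow_add]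
    _ ≤ _ := by
        refine pow_le_pow_right₀ (by norm_num) ?_
        have e : ((κ + 2) * d + 3) * (l + 1) = (κ * (l + 1) + 2) * d + (2 * l + 1) +
          (2 * d * l + l + 2) := by ring
        omega

end Pool.Agent.Helper70x.RS
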