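import Mathlib
import Pool.Agent.N248.RR.F
import Pool.Agent.Helper70x.RS.Det
set_option autoImplicit false
set_option linter.unusedSectionVars false

/-! Random sets: the exceptional events. -/

namespace Pool.Agent.Helper70x.RS

open MeasureTheory Set ProbabilityTheory Filter
open Pool.Agent.N248.RR (Ann Crowd exists_ann crowd_prob ball_card ball_subset)
open scoped ENNReal NNReal

variable {H : Type*} [NormedAddCommGroup H] [InnerProductSpace ℂ H]
variable {d : ℕ}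

/-- the points of norm at most `R` -/
noncomputable def box (d R : ℕ) : Finset (Fin d → ℤ) :=
  Fintype.piFinset fun i => Finset.Icc ((0 : Fin d → ℤ) i - R) ((0 : Fin d → ℤ) i + R)

theorem box_card (R : ℕ) : (box d R).card = (2 * R + 1) ^ d := ball_card (0 : Fin d → ℤ) R

theorem mem_box (R : ℕ) (j : Fin d → ℤ) (h : ‖j‖ ≤ R) : j ∈ box d R := by
  have := ball_subset (0 : Fin d → ℤ) R (show j ∈ {j : Fin d → ℤ | ‖j - 0‖ ≤ R} from by
    show ‖j - 0‖ ≤ R
    rw [sub_zero]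
    exact h)
  exact this

theorem box_nonempty (R : ℕ) : (box d R).Nonempty := ⟨0, mem_box R 0 (by simp)⟩

variable {Ω : Type*} [MeasurableSpace Ω] (P : Measure Ω) (A : (Fin d → ℤ) → Set Ω)

/-- the tests at the level `l` -/
theorem near_prob [IsProbabilityMeasure P] (hAm : ∀ j, MeasurableSet (A j)) (hind : iIndepSet A P)
    {φ : (Fin d → ℤ) → H} {L γ : ℝ} (hφ : Vecs φ L γ) (K : ℕ) :
    ∃ C : ℝ, 0 ≤ C ∧ ∀ l : ℕ, ∃ F : Finset (Finset (Fin d → ℤ)),
      P {ω | ∃ S ∈ F, 2 * (∑ j ∈ S, P.real (A j)) + C * (l + 1) * 4 ^ l ≤ cnt A S ω ∨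
        2 * cnt A S ω + C * (l + 1) * 4 ^ l ≤ ∑ j ∈ S, P.real (A j)} ≤
        ENNReal.ofReal ((1 / 2) ^ l) ∧
      ∀ f : H, ‖f‖ ≤ 1 → ∃ S ∈ F, lev φ (box d (2 ^ (K * (l + 1)))) ((1 / 2) ^ l) f ⊆ S ∧
        S ⊆ lev φ (box d (2 ^ (K * (l + 1)))) ((1 / 2) ^ (l + 1)) f := by
  set C₁ : ℝ := (((K + 2) * d + 3 : ℕ) : ℝ) with hC₁
  have hC₁0 : 0 ≤ C₁ := Nat.cast_nonneg _
  refine ⟨2 * (256 * C₁ + 3), by positivity, ?_⟩
  intro l
  obtain ⟨F, hF1, hF2⟩ := tests φ hφ.bd (box d (2 ^ (K * (l + 1)))) (box_nonempty _) ((1 / 2) ^ l)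
    (by positivity)
  refine ⟨F, ?_, ?_⟩
  · refine (dev_all P A hAm hind F _ (by positivity)).trans (ENNReal.ofReal_le_ofReal ?_)
    have hlog : Real.log (8 * (box d (2 ^ (K * (l + 1)))).card) ≤ C₁ * (l + 1) := by
      rw [box_card]
      have h1 : (8 : ℝ) * (((2 * 2 ^ (K * (l + 1)) + 1) ^ d : ℕ) : ℝ) ≤
          2 ^ (((K + 2) * d + 3) * (l + 1)) := by
        have h2 : ((2 * 2 ^ (K * (l + 1)) + 1 : ℕ) : ℝ) ≤ 2 ^ (K * (l + 1) + 2) := by
          push_cast
          have : (1 : ℝ) ≤ 2 ^ (K * (l + 1)) := one_le_pow₀ (by norm_num)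
          rw [pow_add]
          linarith
        have h3 : (((2 * 2 ^ (K * (l + 1)) + 1) ^ d : ℕ) : ℝ) ≤ 2 ^ ((K * (l + 1) + 2) * d) := by
          rw [show (2 : ℝ) ^ ((K * (l + 1) + 2) * d) = (2 ^ (K * (l + 1) + 2)) ^ d from
            pow_mul _ _ _]
          push_cast at h2 ⊢
          exact pow_le_pow_left₀ (by positivity) h2 d
        calc (8 : ℝ) * (((2 * 2 ^ (K * (l + 1)) + 1) ^ d : ℕ) : ℝ) ≤
              2 ^ 3 * 2 ^ ((K * (l + 1) + 2) * d) := by
              have : (8 : ℝ) = 2 ^ 3 := by norm_num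
              rw [this]
              exact mul_le_mul_of_nonneg_left h3 (by positivity)
          _ = 2 ^ (3 + (K * (l + 1) + 2) * d) := by rw [← pow_add]
          _ ≤ _ := by
              refine pow_le_pow_right₀ (by norm_num) ?_
              have e : ((K + 2) * d + 3) * (l + 1) = (3 + (K * (l + 1) + 2) * d) +
                (2 * d * l + 3 * l) := by ring
              omega
      have h4 := Real.log_le_log (by positivity) h1
      refine h4.trans ?_
      rw [Real.log_pow, hC₁]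
      have hl2 : Real.log 2 ≤ 1 := by
        have := Real.log_two_lt_d9
        linarith
      calc ((((K + 2) * d + 3) * (l + 1) : ℕ) : ℝ) * Real.log 2 ≤
            ((((K + 2) * d + 3) * (l + 1) : ℕ) : ℝ) * 1 :=
            mul_le_mul_of_nonneg_left hl2 (Nat.cast_nonneg _)
        _ = _ := by push_cast; ring
    have h4l : (1 : ℝ) ≤ 4 ^ l := one_le_pow₀ (by norm_num)
    have hl0 : (0 : ℝ) ≤ l := Nat.cast_nonneg l
    have e256 : 256 / ((1 / 2 : ℝ) ^ l) ^ 2 = 256 * 4 ^ l := by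
      rw [← pow_mul, mul_comm l 2, pow_mul]
      have : ((1 / 2 : ℝ) ^ 2) = 1 / 4 := by norm_num
      rw [this, one_div_pow]
      field_simp
    rw [e256] at hF1
    have h5 : (F.card : ℝ) ≤ 2 * Real.exp (256 * 4 ^ l * (C₁ * (l + 1))) :=
      hF1.trans (mul_le_mul_of_nonneg_left (Real.exp_le_exp.2
        (mul_le_mul_of_nonneg_left hlog (by positivity))) (by norm_num))
    have h6 : Real.exp (-(2 * (256 * C₁ + 3) * (l + 1) * 4 ^ l / 2)) ≤
        Real.exp (-(256 * 4 ^ l * (C₁ * (l + 1)))) * Real.exp (-(3 * ((l : ℝ) + 1))) := by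
      rw [← Real.exp_add]
      refine Real.exp_le_exp.2 ?_
      have : (l : ℝ) + 1 ≤ (l + 1) * 4 ^ l := by nlinarith
      nlinarith
    have h7 : Real.exp (-(3 * ((l : ℝ) + 1))) ≤ (1 / 4) * (1 / 2) ^ l := by
      have h8 : Real.exp (-1) ≤ 1 / 2 := by
        rw [Real.exp_neg, one_div]
        refine inv_anti₀ (by norm_num) ?_
        have := Real.add_one_le_exp (1 : ℝ)
        linarith
      have h9 : Real.exp (-(3 * ((l : ℝ) + 1))) = Real.exp (-1) ^ (3 * (l + 1)) := by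
        rw [← Real.exp_nat_mul]
        congr 1
        push_cast
        ring
      rw [h9]
      calc Real.exp (-1) ^ (3 * (l + 1)) ≤ (1 / 2) ^ (3 * (l + 1)) :=
            pow_le_pow_left₀ (Real.exp_pos _).le h8 _
        _ ≤ (1 / 2) ^ (2 + l) := pow_le_pow_of_le_one (by norm_num) (by norm_num) (by omega)
        _ = _ := by rw [pow_add]; norm_num
    calc 2 * (F.card : ℝ) * Real.exp (-(2 * (256 * C₁ + 3) * (l + 1) * 4 ^ l / 2))
        ≤ 2 * (2 * Real.exp (256 * 4 ^ l * (C₁ * (l + 1)))) *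
          (Real.exp (-(256 * 4 ^ l * (C₁ * (l + 1)))) * Real.exp (-(3 * ((l : ℝ) + 1)))) := by
          gcongr
      _ = 4 * (Real.exp (256 * 4 ^ l * (C₁ * (l + 1))) *
          Real.exp (-(256 * 4 ^ l * (C₁ * (l + 1))))) * Real.exp (-(3 * ((l : ℝ) + 1))) := by ring
      _ = 4 * Real.exp (-(3 * ((l : ℝ) + 1))) := by
          rw [← Real.exp_add, add_neg_cancel, Real.exp_zero, mul_one]
      _ ≤ 4 * ((1 / 4) * (1 / 2) ^ l) := mul_le_mul_of_nonneg_left h7 (by norm_num)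
      _ = _ := by ring
  · intro f hf
    obtain ⟨S, hS, h1, h2⟩ := hF2 f hf
    refine ⟨S, hS, h1, ?_⟩
    have e : (1 / 2 : ℝ) ^ (l + 1) = (1 / 2) ^ l / 2 := by rw [pow_succ]; ring
    rw [e]
    exact h2

/-- **The good events.** -/
theorem good [IsProbabilityMeasure P] (hAm : ∀ j, MeasurableSet (A j)) (hind : iIndepSet A P)
    (a c : ℝ) (ha : 0 < a) (ha1 : a ≤ 1) (hc : 1 ≤ c)
    (hp : ∀ j, P (A j) ≤ ENNReal.ofReal (c * (1 + ‖j‖) ^ (-a)))
    {φ : (Fin d → ℤ) → H} {L γ : ℝ} (hφ : Vecs φ L γ) :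
    ∃ (K : ℕ) (C : ℝ), 0 ≤ C ∧ ∀ᵐ ω ∂P, ∃ l₀ : ℕ, ∀ l, l₀ ≤ l → ∀ f : H, ‖f‖ ≤ 1 →
      (∀ F : Finset (Fin d → ℤ), (∀ j ∈ F, ω ∈ A j ∧ (1 / 2) ^ l < ‖inner ℂ (φ j) f‖) →
        (F.card : ℝ) ≤ 2 * (∑ j ∈ lev φ (box d (2 ^ (K * (l + 1)))) ((1 / 2) ^ (l + 1)) f,
          P.real (A j)) + C * (l + 1) * 4 ^ l) ∧
      (∀ F : Finset (Fin d → ℤ), (∀ j ∈ F, (1 / 2) ^ l < ‖inner ℂ (φ j) f‖) →
        ∑ j ∈ F, P.real (A j) ≤
          2 * cnt A (lev φ (box d (2 ^ (K * (l + 1)))) ((1 / 2) ^ (l + 1)) f) ω +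
          C * (l + 1) * 4 ^ l) := by
  classical
  obtain ⟨κ, hκ⟩ := radius hφ
  obtain ⟨K₀, hK₀⟩ := all_count hφ
  obtain ⟨K₁, u, hK₁⟩ := crowd_prob P A a c ha ha1 hc (fun T => (hind.meas_biInter T).le) hp κ
  obtain ⟨K₂, hK₂⟩ := exists_nat_gt ((K₀ : ℝ) / a)
  set K : ℕ := K₁ + K₂ with hK
  obtain ⟨C₁, hC₁0, hC₁⟩ := near_prob P A hAm hind hφ K
  choose F hF1 hF2 using hC₁
  set C : ℝ := C₁ + 2 * u + c with hC
  refine ⟨K, C, by positivity, ?_⟩
  set E : ℕ → Set Ω := fun l => {ω | ∃ S ∈ F l, 2 * (∑ j ∈ S, P.real (A j)) +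
    C₁ * (l + 1) * 4 ^ l ≤ cnt A S ω ∨ 2 * cnt A S ω + C₁ * (l + 1) * 4 ^ l ≤
      ∑ j ∈ S, P.real (A j)} ∪ ⋃ k, {ω | K₁ * (l + 1) ≤ k ∧
        ω ∈ Crowd A k (2 ^ (κ * (l + 1))) u} with hE
  have hhalf := Pool.Agent.N248.RR.half_pow
  have hPE : ∀ l, P (E l) ≤ 3 * (2⁻¹ : ℝ≥0∞) ^ l := by
    intro l
    refine (measure_union_le _ _).trans ?_
    have h1 : ∀ k, P {ω | K₁ * (l + 1) ≤ k ∧ ω ∈ Crowd A k (2 ^ (κ * (l + 1))) u} ≤
        (2⁻¹ : ℝ≥0∞) ^ l * (2⁻¹ : ℝ≥0∞) ^ k := by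
      intro k
      rw [← pow_add, add_comm l k, ← hhalf]
      by_cases h : K₁ * (l + 1) ≤ k
      · refine le_trans (measure_mono ?_) (hK₁ k l h)
        exact fun ω hω => hω.2
      · refine le_trans (measure_mono (t := ∅) ?_) (by simp)
        exact fun ω hω => h hω.1
    have h2 : P (⋃ k, {ω | K₁ * (l + 1) ≤ k ∧ ω ∈ Crowd A k (2 ^ (κ * (l + 1))) u}) ≤
        2 * (2⁻¹ : ℝ≥0∞) ^ l := by
      refine (measure_iUnion_le _).trans ((ENNReal.tsum_le_tsum h1).trans (le_of_eq ?_))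
      rw [ENNReal.tsum_mul_left, ENNReal.tsum_geometric, ENNReal.one_sub_inv_two, inv_inv, mul_comm]
    calc _ ≤ (2⁻¹ : ℝ≥0∞) ^ l + 2 * (2⁻¹ : ℝ≥0∞) ^ l :=
          add_le_add ((hF1 l).trans (le_of_eq (hhalf l))) h2
      _ = _ := by ring
  have hsum : (∑' l, P (E l)) ≠ ∞ := by
    refine ne_top_of_le_ne_top ?_ (ENNReal.tsum_le_tsum hPE)
    rw [ENNReal.tsum_mul_left, ENNReal.tsum_geometric, ENNReal.one_sub_inv_two, inv_inv]
    exact ENNReal.mul_ne_top (by norm_num) (by norm_num)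
  filter_upwards [ae_eventually_notMem hsum] with ω hω
  obtain ⟨l₀, hl₀⟩ := eventually_atTop.1 hω
  refine ⟨l₀, fun l hl f hf => ?_⟩
  have hnot := hl₀ l hl
  rw [hE, mem_union, not_or] at hnot
  obtain ⟨hn1, hn2⟩ := hnot
  obtain ⟨S, hS, hS1, hS2⟩ := hF2 l f hf
  have hdev : cnt A S ω < 2 * (∑ j ∈ S, P.real (A j)) + C₁ * (l + 1) * 4 ^ l ∧
      ∑ j ∈ S, P.real (A j) < 2 * cnt A S ω + C₁ * (l + 1) * 4 ^ l := by
    by_contra hcon
    apply hn1
    refine ⟨S, hS, ?_⟩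
    by_contra hcon2
    apply hcon
    rw [not_or] at hcon2
    exact ⟨not_le.1 hcon2.1, not_le.1 hcon2.2⟩
  have hlR : (0 : ℝ) ≤ l := Nat.cast_nonneg l
  have h4l : (1 : ℝ) ≤ 4 ^ l := one_le_pow₀ (by norm_num)
  have h4l' : (4 : ℝ) ^ l ≤ (l + 1) * 4 ^ l := by nlinarith
  -- the box
  set B : Finset (Fin d → ℤ) := box d (2 ^ (K * (l + 1))) with hB
  have hout : ∀ j, j ∉ B → (2 : ℝ) ^ (K * (l + 1)) < ‖j‖ := by
    intro j hj
    by_contra hcon
    apply hj
    refine mem_box _ j ?_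
    push_cast
    exact not_lt.1 hcon
  constructor
  · intro G hG
    have h1 : ((G.filter fun j => j ∈ B).card : ℝ) ≤ cnt A S ω := by
      have h2 : cnt A (G.filter fun j => j ∈ B) ω = (G.filter fun j => j ∈ B).card := by
        unfold cnt
        rw [Finset.card_eq_sum_ones]
        push_cast
        refine Finset.sum_congr rfl fun j hj => ?_
        rw [indicator_of_mem (hG j (Finset.mem_filter.1 hj).1).1]
      rw [← h2]
      refine cnt_mono A (fun j hj => hS1 ?_) ω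
      rw [Finset.mem_filter] at hj
      unfold lev
      rw [Finset.mem_filter]
      exact ⟨hj.2, (hG j hj.1).2⟩
    have h3 : ∑ j ∈ S, P.real (A j) ≤ ∑ j ∈ lev φ B ((1 / 2) ^ (l + 1)) f, P.real (A j) :=
      Finset.sum_le_sum_of_subset_of_nonneg hS2 fun _ _ _ => measureReal_nonneg
    have h4 : ((G.filter fun j => ¬ j ∈ B).card : ℝ) ≤ 2 * u / ((1 / 2) ^ l) ^ 2 := by
      refine far_count hφ (((1 / 2) ^ l) ^ 2 / 2) ((2 ^ (κ * (l + 1)) : ℕ) : ℝ) ((1 / 2) ^ l)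
        (by positivity) (fun i j h => hκ l i j h) (by positivity) (by linarith) f hf _
        (fun j hj => (hG j (Finset.mem_filter.1 hj).1).2) u ?_
      intro j hj
      rw [Finset.mem_filter] at hj
      by_contra hcon
      push Not at hcon
      obtain ⟨T, hT1, hT2⟩ := Finset.exists_subset_card_eq hcon.le
      apply hn2
      obtain ⟨k, hk⟩ := exists_ann j
      rw [mem_iUnion]
      refine ⟨k, ?_, j, hk, T, hT2, fun i hi => ?_⟩
      · have h5 := hout j hj.2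
        have h6 : (2 : ℝ) ^ (K * (l + 1)) < 2 ^ (k + 1) := by linarith [hk.2]
        have h7 : K * (l + 1) < k + 1 := (pow_lt_pow_iff_right₀ (by norm_num)).1 h6
        have h8 : K₁ * (l + 1) ≤ K * (l + 1) := Nat.mul_le_mul_right _ (by omega)
        omega
      · have h5 := hT1 hi
        rw [Finset.mem_filter, Finset.mem_filter] at h5
        refine ⟨?_, (hG i h5.1.1).1⟩
        rw [norm_sub_rev]
        exact h5.2
    have h5 : (G.card : ℝ) = ((G.filter fun j => j ∈ B).card : ℝ) +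
        ((G.filter fun j => ¬ j ∈ B).card : ℝ) := by
      rw [← Nat.cast_add, Finset.card_filter_add_card_filter_not]
    have h6 : 2 * (u : ℝ) / ((1 / 2) ^ l) ^ 2 = 2 * u * 4 ^ l := by
      rw [← pow_mul, mul_comm l 2, pow_mul]
      have : ((1 / 2 : ℝ) ^ 2) = 1 / 4 := by norm_num
      rw [this, one_div_pow]
      field_simp
    rw [h6] at h4
    have h7 : 2 * (u : ℝ) * 4 ^ l ≤ 2 * u * ((l + 1) * 4 ^ l) :=
      mul_le_mul_of_nonneg_left h4l' (by positivity)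
    have h8 : 0 ≤ c * ((l + 1) * 4 ^ l) := by positivity
    have h9 : C * (l + 1) * 4 ^ l = C₁ * (l + 1) * 4 ^ l + 2 * u * ((l + 1) * 4 ^ l) +
      c * ((l + 1) * 4 ^ l) := by rw [hC]; ring
    rw [h9, h5]
    linarith [hdev.1]
  · intro G hG
    have h1 : ∑ j ∈ G.filter (fun j => j ∈ B), P.real (A j) ≤ ∑ j ∈ S, P.real (A j) := by
      refine Finset.sum_le_sum_of_subset_of_nonneg (fun j hj => hS1 ?_) fun _ _ _ =>
        measureReal_nonneg
      rw [Finset.mem_filter] at hj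
      unfold lev
      rw [Finset.mem_filter]
      exact ⟨hj.2, hG j hj.1⟩
    have h3 : cnt A S ω ≤ cnt A (lev φ B ((1 / 2) ^ (l + 1)) f) ω := cnt_mono A hS2 ω
    have h4 : ∑ j ∈ G.filter (fun j => ¬ j ∈ B), P.real (A j) ≤ c := by
      have h5 : ∀ j ∈ G.filter (fun j => ¬ j ∈ B), P.real (A j) ≤
          c * (2 : ℝ) ^ (-(a * (K * (l + 1) : ℕ))) := by
        intro j hj
        rw [Finset.mem_filter] at hj
        have h6 := ENNReal.toReal_mono ENNReal.ofReal_ne_top (hp j)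
        rw [ENNReal.toReal_ofReal (by positivity)] at h6
        refine h6.trans (mul_le_mul_of_nonneg_left ?_ (by linarith))
        have h7 := hout j hj.2
        calc (1 + ‖j‖) ^ (-a) ≤ ((2 : ℝ) ^ (K * (l + 1))) ^ (-a) :=
              Real.rpow_le_rpow_of_nonpos (by positivity) (by linarith) (by linarith)
          _ = _ := by
              rw [← Real.rpow_natCast, ← Real.rpow_mul (by norm_num)]
              congr 1
              ring
      refine (Finset.sum_le_sum h5).trans ?_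
      rw [Finset.sum_const, nsmul_eq_mul]
      have h8 : ((G.filter fun j => ¬ j ∈ B).card : ℝ) ≤ 2 ^ (K₀ * (l + 1)) :=
        hK₀ l f hf _ fun j hj => hG j (Finset.mem_filter.1 hj).1
      calc ((G.filter fun j => ¬ j ∈ B).card : ℝ) * (c * (2 : ℝ) ^ (-(a * (K * (l + 1) : ℕ))))
          ≤ 2 ^ (K₀ * (l + 1)) * (c * (2 : ℝ) ^ (-(a * (K * (l + 1) : ℕ)))) :=
            mul_le_mul_of_nonneg_right h8 (by positivity)
        _ = c * (2 : ℝ) ^ (((K₀ * (l + 1) : ℕ) : ℝ) + -(a * (K * (l + 1) : ℕ))) := by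
            rw [Real.rpow_add (by norm_num), Real.rpow_natCast]
            ring
        _ ≤ c * 1 := by
            refine mul_le_mul_of_nonneg_left ?_ (by linarith)
            refine Real.rpow_le_one_of_one_le_of_nonpos (by norm_num) ?_
            rw [div_lt_iff₀ ha] at hK₂
            push_cast
            have h9 : (K₀ : ℝ) ≤ a * K := by
              have : a * (K₂ : ℝ) ≤ a * K := by
                refine mul_le_mul_of_nonneg_left ?_ ha.le
                rw [hK]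
                push_cast
                have : (0 : ℝ) ≤ K₁ := Nat.cast_nonneg _
                linarith
              linarith
            have h10 : (K₀ : ℝ) * (l + 1) ≤ a * K * (l + 1) :=
              mul_le_mul_of_nonneg_right h9 (by linarith)
            linarith
        _ = c := mul_one c
    have h5 : ∑ j ∈ G, P.real (A j) = ∑ j ∈ G.filter (fun j => j ∈ B), P.real (A j) +
        ∑ j ∈ G.filter (fun j => ¬ j ∈ B), P.real (A j) :=
      (Finset.sum_filter_add_sum_filter_not _ _ _).symm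
    have h8 : c * 1 ≤ c * ((l + 1) * 4 ^ l) :=
      mul_le_mul_of_nonneg_left (by nlinarith) (by linarith)
    have h9 : C * (l + 1) * 4 ^ l = C₁ * (l + 1) * 4 ^ l + 2 * u * ((l + 1) * 4 ^ l) +
      c * ((l + 1) * 4 ^ l) := by rw [hC]; ring
    have h10 : 0 ≤ 2 * (u : ℝ) * ((l + 1) * 4 ^ l) := by positivity
    rw [h9, h5]
    linarith [hdev.2]

end Pool.Agent.Helper70x.RS
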