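import Mathlib
import Pool.Agent.Helper70x.RS.Ev
set_option autoImplicit false
set_option linter.unusedSectionVars false

/-! Random sets: the equivalence of the sums over the random set and of the weighted sums. -/

namespace Pool.Agent.Helper70x.RS

open MeasureTheory Set ProbabilityTheory Filter
open scoped ENNReal NNReal

open scoped Classical in
/-- the weighted size of the superlevel sets -/
noncomputable def V {α : Type*} (v : α → ℝ≥0∞) (h : α → ℝ) (l : ℕ) : ℝ≥0∞ :=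
  ∑' j, if (1 / 2 : ℝ) ^ l < h j then v j else 0

theorem half_rpow (q : ℝ) (l : ℕ) :
    ENNReal.ofReal ((1 / 2) ^ l) ^ q = (ENNReal.ofReal (1 / 2) ^ q) ^ l := by
  rw [ENNReal.ofReal_pow (by norm_num), ← ENNReal.rpow_natCast, ← ENNReal.rpow_natCast,
    ← ENNReal.rpow_mul, ← ENNReal.rpow_mul, mul_comm]

theorem half_le (q : ℝ) (hq : 1 ≤ q) : ENNReal.ofReal (1 / 2) ^ q ≤ 2⁻¹ := by
  have h1 : ENNReal.ofReal (1 / 2) = 2⁻¹ := by
    rw [one_div, ENNReal.ofReal_inv_of_pos (by norm_num)]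
    norm_num
  rw [h1]
  calc (2⁻¹ : ℝ≥0∞) ^ q ≤ (2⁻¹ : ℝ≥0∞) ^ (1 : ℝ) :=
        ENNReal.rpow_le_rpow_of_exponent_ge (by norm_num) hq
    _ = 2⁻¹ := ENNReal.rpow_one _

open scoped Classical in
theorem pt_up (q : ℝ) (hq : 0 < q) (x : ℝ) (hx1 : x ≤ 1) :
    ENNReal.ofReal x ^ q ≤
      ∑' l : ℕ, if (1 / 2 : ℝ) ^ (l + 1) < x then ENNReal.ofReal ((1 / 2) ^ l) ^ q else 0 := by
  rcases le_or_gt x 0 with h0 | h0
  · rw [ENNReal.ofReal_of_nonpos h0, ENNReal.zero_rpow_of_pos hq]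
    exact zero_le
  · obtain ⟨l, h1, h2⟩ := exists_nat_pow_near_of_lt_one h0 hx1 (y := 1 / 2) (by norm_num)
      (by norm_num)
    refine le_trans ?_ (ENNReal.le_tsum l)
    rw [if_pos h1]
    exact ENNReal.rpow_le_rpow (ENNReal.ofReal_le_ofReal h2) hq.le

open scoped Classical in
theorem pt_lo (q : ℝ) (hq : 1 ≤ q) (x : ℝ) :
    ∑' l : ℕ, (if (1 / 2 : ℝ) ^ (l + 2) < x then ENNReal.ofReal ((1 / 2) ^ l) ^ q else 0) ≤
      2 * 4 ^ q * ENNReal.ofReal x ^ q := by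
  by_cases hex : ∃ l : ℕ, (1 / 2 : ℝ) ^ (l + 2) < x
  · set m := Nat.find hex with hm
    have hm1 : (1 / 2 : ℝ) ^ (m + 2) < x := Nat.find_spec hex
    set y : ℝ≥0∞ := ENNReal.ofReal (1 / 2) ^ q with hy
    have hinj : Function.Injective fun k : ℕ => k + m := fun a b h => by
      simp only at h
      omega
    have hsupp : Function.support (fun l : ℕ => if (1 / 2 : ℝ) ^ (l + 2) < x then
        ENNReal.ofReal ((1 / 2) ^ l) ^ q else 0) ⊆ range fun k : ℕ => k + m := by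
      intro l hl
      rw [Function.mem_support] at hl
      have h1 : (1 / 2 : ℝ) ^ (l + 2) < x := by
        by_contra hcon
        rw [if_neg hcon] at hl
        exact hl rfl
      have h2 : m ≤ l := Nat.find_min' hex h1
      exact ⟨l - m, by simp only; omega⟩
    rw [← hinj.tsum_eq hsupp]
    have h1 : ∀ k : ℕ, (if (1 / 2 : ℝ) ^ (k + m + 2) < x then
        ENNReal.ofReal ((1 / 2) ^ (k + m)) ^ q else 0) ≤ y ^ m * y ^ k := by
      intro k
      have h2 : ENNReal.ofReal ((1 / 2) ^ (k + m)) ^ q = y ^ m * y ^ k := by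
        rw [half_rpow, ← hy, pow_add, mul_comm]
      split_ifs
      · exact h2.le
      · exact zero_le
    refine (ENNReal.tsum_le_tsum h1).trans ?_
    rw [ENNReal.tsum_mul_left, ENNReal.tsum_geometric]
    have h3 : (1 - y)⁻¹ ≤ 2 := by
      rw [ENNReal.inv_le_iff_inv_le]
      rw [← ENNReal.one_sub_inv_two]
      exact tsub_le_tsub_left (half_le q hq) 1
    have h4 : y ^ m ≤ 4 ^ q * ENNReal.ofReal x ^ q := by
      rw [hy, ← half_rpow, ← ENNReal.mul_rpow_of_nonneg _ _ (by linarith)]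
      refine ENNReal.rpow_le_rpow ?_ (by linarith)
      have h5 : (4 : ℝ≥0∞) = ENNReal.ofReal 4 := by norm_num
      rw [h5, ← ENNReal.ofReal_mul (by norm_num)]
      refine ENNReal.ofReal_le_ofReal ?_
      have h6 : (1 / 2 : ℝ) ^ (m + 2) = (1 / 2) ^ m / 4 := by rw [pow_add]; norm_num; ring
      rw [h6] at hm1
      linarith
    calc y ^ m * (1 - y)⁻¹ ≤ (4 ^ q * ENNReal.ofReal x ^ q) * 2 := mul_le_mul' h4 h3
      _ = _ := by ring
  · push Not at hex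
    have h1 : ∀ l : ℕ, (if (1 / 2 : ℝ) ^ (l + 2) < x then ENNReal.ofReal ((1 / 2) ^ l) ^ q else 0) =
        0 := fun l => if_neg (not_lt.2 (hex l))
    simp_rw [h1]
    rw [tsum_zero]
    exact zero_le

/-- from level sets to sums -/
theorem level_sum (q : ℝ) (hq : 2 < q) (C : ℝ) (hC : 0 ≤ C) (D : ℕ → ℝ≥0) (l₀ : ℕ) :
    ∃ C₁ : ℝ≥0, ∀ {α : Type} (v v' : α → ℝ≥0∞) (h : α → ℝ), (∀ j, h j ≤ 1) →
      (∀ l, l₀ ≤ l → V v h l ≤ 2 * V v' h (l + 1) + ENNReal.ofReal (C * (l + 1) * 4 ^ l)) →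
      (∀ l, V v h l ≤ D l) →
      ∑' j, v j * ENNReal.ofReal (h j) ^ q ≤ C₁ * (1 + ∑' j, v' j * ENNReal.ofReal (h j) ^ q) := by
  classical
  -- the constants
  have hs := Pool.Agent.N248.RR.summ 2 q C hq
  set E₁ : ℝ≥0∞ := ∑' l : ℕ, ENNReal.ofReal (((1 / 2 : ℝ) ^ l) ^ q * (C * ((l : ℝ) + 1 + 1) ^ 2 *
    ((2 : ℝ) ^ (l + 1)) ^ (2 : ℝ))) with hE₁
  have hE₁t : E₁ ≠ ∞ := hs.tsum_ofReal_ne_top
  set E₂ : ℝ≥0∞ := ∑ l ∈ Finset.range l₀, (D (l + 1) : ℝ≥0∞) with hE₂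
  have hE₂t : E₂ ≠ ∞ := ENNReal.sum_ne_top.2 fun _ _ => ENNReal.coe_ne_top
  set E₃ : ℝ≥0∞ := 2 * (2 * 4 ^ q) with hE₃
  have hE₃t : E₃ ≠ ∞ := by
    have : (4 : ℝ≥0∞) ^ q ≠ ∞ := ENNReal.rpow_ne_top_of_nonneg (by linarith) (by norm_num)
    exact ENNReal.mul_ne_top (by norm_num) (ENNReal.mul_ne_top (by norm_num) this)
  set E : ℝ≥0∞ := E₁ + E₂ + E₃ with hE
  have hEt : E ≠ ∞ := ENNReal.add_ne_top.2 ⟨ENNReal.add_ne_top.2 ⟨hE₁t, hE₂t⟩, hE₃t⟩
  refine ⟨E.toNNReal, ?_⟩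
  intro α v v' h h1 hV hV0
  rw [ENNReal.coe_toNNReal hEt]
  have hq0 : 0 < q := by linarith
  -- the two sums over the levels
  have hup : ∑' j, v j * ENNReal.ofReal (h j) ^ q ≤
      ∑' l : ℕ, ENNReal.ofReal ((1 / 2) ^ l) ^ q * V v h (l + 1) := by
    calc ∑' j, v j * ENNReal.ofReal (h j) ^ q
        ≤ ∑' j, ∑' l : ℕ, (ENNReal.ofReal ((1 / 2) ^ l) ^ q *
          if (1 / 2 : ℝ) ^ (l + 1) < h j then v j else 0) := by
          refine ENNReal.tsum_le_tsum fun j => ?_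
          refine (mul_le_mul' le_rfl (pt_up q hq0 (h j) (h1 j))).trans (le_of_eq ?_)
          rw [← ENNReal.tsum_mul_left]
          refine tsum_congr fun l => ?_
          split_ifs
          · rw [mul_comm]
          · rw [mul_zero, mul_zero]
      _ = _ := by
          rw [ENNReal.tsum_comm]
          refine tsum_congr fun l => ?_
          rw [ENNReal.tsum_mul_left]
          rfl
  have hlo : ∑' l : ℕ, ENNReal.ofReal ((1 / 2) ^ l) ^ q * V v' h (l + 2) ≤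
      (2 * 4 ^ q) * ∑' j, v' j * ENNReal.ofReal (h j) ^ q := by
    calc ∑' l : ℕ, ENNReal.ofReal ((1 / 2) ^ l) ^ q * V v' h (l + 2)
        = ∑' j, ∑' l : ℕ, (ENNReal.ofReal ((1 / 2) ^ l) ^ q *
          if (1 / 2 : ℝ) ^ (l + 2) < h j then v' j else 0) := by
          rw [ENNReal.tsum_comm]
          refine tsum_congr fun l => ?_
          rw [ENNReal.tsum_mul_left]
          rfl
      _ ≤ ∑' j, v' j * (2 * 4 ^ q * ENNReal.ofReal (h j) ^ q) := by
          refine ENNReal.tsum_le_tsum fun j => ?_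
          refine le_trans (le_of_eq ?_) (mul_le_mul' le_rfl (pt_lo q (by linarith) (h j)))
          rw [← ENNReal.tsum_mul_left]
          refine tsum_congr fun l => ?_
          split_ifs
          · rw [mul_comm]
          · rw [mul_zero, mul_zero]
      _ = _ := by
          rw [← ENNReal.tsum_mul_left]
          exact tsum_congr fun j => by ring
  have hmid : ∀ l : ℕ, ENNReal.ofReal ((1 / 2) ^ l) ^ q * V v h (l + 1) ≤
      2 * (ENNReal.ofReal ((1 / 2) ^ l) ^ q * V v' h (l + 2)) +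
      (ENNReal.ofReal (((1 / 2 : ℝ) ^ l) ^ q * (C * ((l : ℝ) + 1 + 1) ^ 2 *
        ((2 : ℝ) ^ (l + 1)) ^ (2 : ℝ))) + if l < l₀ then (D (l + 1) : ℝ≥0∞) else 0) := by
    intro l
    have hx1 : ENNReal.ofReal ((1 / 2) ^ l) ^ q ≤ 1 := by
      refine ENNReal.rpow_le_one ?_ hq0.le
      rw [← ENNReal.ofReal_one]
      exact ENNReal.ofReal_le_ofReal (pow_le_one₀ (by norm_num) (by norm_num))
    by_cases hl : l < l₀
    · rw [if_pos hl]
      calc ENNReal.ofReal ((1 / 2) ^ l) ^ q * V v h (l + 1) ≤ 1 * D (l + 1) :=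
            mul_le_mul' hx1 (hV0 (l + 1))
        _ = D (l + 1) := one_mul _
        _ ≤ _ := le_add_left (le_add_left le_rfl)
    · rw [if_neg hl, add_zero]
      have h2 := hV (l + 1) (by omega)
      calc ENNReal.ofReal ((1 / 2) ^ l) ^ q * V v h (l + 1)
          ≤ ENNReal.ofReal ((1 / 2) ^ l) ^ q * (2 * V v' h (l + 1 + 1) +
            ENNReal.ofReal (C * ((l + 1 : ℕ) + 1) * 4 ^ (l + 1))) := mul_le_mul' le_rfl h2
        _ = 2 * (ENNReal.ofReal ((1 / 2) ^ l) ^ q * V v' h (l + 2)) +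
            ENNReal.ofReal ((1 / 2) ^ l) ^ q *
              ENNReal.ofReal (C * ((l + 1 : ℕ) + 1) * 4 ^ (l + 1)) := by ring
        _ ≤ _ := by
            refine add_le_add le_rfl ?_
            rw [ENNReal.ofReal_rpow_of_pos (by positivity), ← ENNReal.ofReal_mul (by positivity)]
            refine ENNReal.ofReal_le_ofReal (mul_le_mul_of_nonneg_left ?_ (by positivity))
            have e1 : ((2 : ℝ) ^ (l + 1)) ^ (2 : ℝ) = 4 ^ (l + 1) := by
              rw [Real.rpow_two, ← pow_mul, mul_comm, pow_mul]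
              norm_num
            rw [e1]
            push_cast
            refine mul_le_mul_of_nonneg_right (mul_le_mul_of_nonneg_left ?_ hC) (by positivity)
            have : (0 : ℝ) ≤ l := Nat.cast_nonneg l
            nlinarith
  have hE₂' : ∑' l : ℕ, (if l < l₀ then (D (l + 1) : ℝ≥0∞) else 0) = E₂ := by
    rw [hE₂, tsum_eq_sum (s := Finset.range l₀)]
    · refine Finset.sum_congr rfl fun l hl => ?_
      rw [if_pos (Finset.mem_range.1 hl)]
    · intro l hl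
      rw [Finset.mem_range] at hl
      exact if_neg hl
  refine hup.trans ((ENNReal.tsum_le_tsum hmid).trans ?_)
  rw [ENNReal.tsum_add, ENNReal.tsum_add, hE₂', ENNReal.tsum_mul_left, ← hE₁]
  set Z : ℝ≥0∞ := ∑' j, v' j * ENNReal.ofReal (h j) ^ q with hZ
  calc 2 * ∑' l : ℕ, ENNReal.ofReal ((1 / 2) ^ l) ^ q * V v' h (l + 2) + (E₁ + E₂)
      ≤ 2 * ((2 * 4 ^ q) * Z) + (E₁ + E₂) := by gcongr
    _ = E₃ * Z + (E₁ + E₂) * 1 := by rw [hE₃]; ring
    _ ≤ E * Z + E * 1 := by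
        refine add_le_add (mul_le_mul' ?_ le_rfl) (mul_le_mul' ?_ le_rfl)
        · rw [hE]; exact le_add_left le_rfl
        · rw [hE]; exact le_add_right le_rfl
    _ = _ := by ring

variable {H : Type*} [NormedAddCommGroup H] [InnerProductSpace ℂ H]
variable {d : ℕ} {Ω : Type*} [MeasurableSpace Ω] (P : Measure Ω) (A : (Fin d → ℤ) → Set Ω)

/-- the indicator function of the random set -/
noncomputable def io (ω : Ω) (j : Fin d → ℤ) : ℝ≥0∞ := (A j).indicator (fun _ => 1) ω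

/-- **The equivalence of the sums.** -/
theorem transfer [IsProbabilityMeasure P] (hAm : ∀ j, MeasurableSet (A j)) (hind : iIndepSet A P)
    (a c : ℝ) (ha : 0 < a) (ha1 : a ≤ 1) (hc : 1 ≤ c)
    (hp : ∀ j, P (A j) ≤ ENNReal.ofReal (c * (1 + ‖j‖) ^ (-a)))
    {φ : (Fin d → ℤ) → H} {L γ : ℝ} (hφ : Vecs φ L γ) :
    ∀ᵐ ω ∂P, ∀ q : ℝ, 2 < q → ∃ C : ℝ≥0, ∀ f : H,
      ∑' j, io A ω j * ‖inner ℂ (φ j) f‖ₑ ^ q ≤
        C * (‖f‖ₑ ^ q + ∑' j, P (A j) * ‖inner ℂ (φ j) f‖ₑ ^ q) ∧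
      ∑' j, P (A j) * ‖inner ℂ (φ j) f‖ₑ ^ q ≤
        C * (‖f‖ₑ ^ q + ∑' j, io A ω j * ‖inner ℂ (φ j) f‖ₑ ^ q) := by
  classical
  obtain ⟨K, C, hC0, hgood⟩ := good P A hAm hind a c ha ha1 hc hp hφ
  obtain ⟨K₀, hK₀⟩ := all_count hφ
  filter_upwards [hgood] with ω hω
  obtain ⟨l₀, hl₀⟩ := hω
  intro q hq
  have hq0 : 0 < q := by linarith
  have hio1 : ∀ j, io A ω j ≤ 1 := by
    intro j
    unfold io
    by_cases h : ω ∈ A j
    · rw [indicator_of_mem h]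
    · rw [indicator_of_notMem h]; exact zero_le
  have hP1 : ∀ j, P (A j) ≤ 1 := fun j => prob_le_one
  -- crude bounds
  have hcrude : ∀ (v : (Fin d → ℤ) → ℝ≥0∞), (∀ j, v j ≤ 1) → ∀ f : H, ‖f‖ ≤ 1 → ∀ l,
      V v (fun j => ‖inner ℂ (φ j) f‖) l ≤ ((2 ^ (K₀ * (l + 1)) : ℝ≥0) : ℝ≥0∞) := by
    intro v hv f hf l
    unfold V
    rw [ENNReal.tsum_eq_iSup_sum]
    refine iSup_le fun s => ?_
    rw [← Finset.sum_filter]
    calc ∑ j ∈ s.filter (fun j => (1 / 2 : ℝ) ^ l < ‖inner ℂ (φ j) f‖), v j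
        ≤ ∑ _j ∈ s.filter (fun j => (1 / 2 : ℝ) ^ l < ‖inner ℂ (φ j) f‖), 1 :=
          Finset.sum_le_sum fun j _ => hv j
      _ = ((s.filter (fun j => (1 / 2 : ℝ) ^ l < ‖inner ℂ (φ j) f‖)).card : ℝ≥0∞) := by simp
      _ ≤ _ := by
          have h1 := hK₀ l f hf (s.filter fun j => (1 / 2 : ℝ) ^ l < ‖inner ℂ (φ j) f‖)
            (fun j hj => (Finset.mem_filter.1 hj).2)
          have h2 : (((s.filter (fun j => (1 / 2 : ℝ) ^ l < ‖inner ℂ (φ j) f‖)).card : ℝ≥0) : ℝ) ≤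
              ((2 ^ (K₀ * (l + 1)) : ℝ≥0) : ℝ) := by
            push_cast
            exact h1
          have h3 : ((s.filter (fun j => (1 / 2 : ℝ) ^ l < ‖inner ℂ (φ j) f‖)).card : ℝ≥0) ≤
              (2 ^ (K₀ * (l + 1)) : ℝ≥0) := by exact_mod_cast h2
          exact_mod_cast h3
  -- the level estimates
  have hU : ∀ f : H, ‖f‖ ≤ 1 → ∀ l, l₀ ≤ l → V (io A ω) (fun j => ‖inner ℂ (φ j) f‖) l ≤
      2 * V (fun j => P (A j)) (fun j => ‖inner ℂ (φ j) f‖) (l + 1) +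
        ENNReal.ofReal (C * (l + 1) * 4 ^ l) := by
    intro f hf l hl
    unfold V
    rw [ENNReal.tsum_eq_iSup_sum]
    refine iSup_le fun s => ?_
    set G := s.filter (fun j => ω ∈ A j ∧ (1 / 2 : ℝ) ^ l < ‖inner ℂ (φ j) f‖) with hG
    have h1 : ∑ j ∈ s, (if (1 / 2 : ℝ) ^ l < ‖inner ℂ (φ j) f‖ then io A ω j else 0) =
        ENNReal.ofReal (G.card : ℝ) := by
      rw [ENNReal.ofReal_natCast, hG, Finset.card_filter]
      push_cast
      refine Finset.sum_congr rfl fun j _ => ?_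
      unfold io
      by_cases h1 : ω ∈ A j
      · rw [indicator_of_mem h1]
        by_cases h2 : (1 / 2 : ℝ) ^ l < ‖inner ℂ (φ j) f‖
        · rw [if_pos h2, if_pos ⟨h1, h2⟩]
        · rw [if_neg h2, if_neg fun h => h2 h.2]
      · have h2 : ¬ (ω ∈ A j ∧ (1 / 2 : ℝ) ^ l < ‖inner ℂ (φ j) f‖) := fun h => h1 h.1
        rw [indicator_of_notMem h1, if_neg h2]
        simp
    rw [h1]
    have h2 := (hl₀ l hl f hf).1 G fun j hj => (Finset.mem_filter.1 hj).2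
    refine (ENNReal.ofReal_le_ofReal h2).trans ?_
    rw [ENNReal.ofReal_add (by positivity) (by positivity), ENNReal.ofReal_mul (by norm_num)]
    refine add_le_add (mul_le_mul' (by norm_num) ?_) le_rfl
    rw [ENNReal.ofReal_sum_of_nonneg fun _ _ => measureReal_nonneg]
    refine le_trans ?_ (ENNReal.sum_le_tsum (lev φ (box d (2 ^ (K * (l + 1)))) ((1 / 2) ^ (l + 1)) f))
    refine Finset.sum_le_sum fun j hj => ?_
    unfold lev at hj
    rw [Finset.mem_filter] at hj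
    rw [if_pos hj.2, ofReal_measureReal (measure_ne_top _ _)]
  have hL : ∀ f : H, ‖f‖ ≤ 1 → ∀ l, l₀ ≤ l →
      V (fun j => P (A j)) (fun j => ‖inner ℂ (φ j) f‖) l ≤
      2 * V (io A ω) (fun j => ‖inner ℂ (φ j) f‖) (l + 1) +
        ENNReal.ofReal (C * (l + 1) * 4 ^ l) := by
    intro f hf l hl
    unfold V
    rw [ENNReal.tsum_eq_iSup_sum]
    refine iSup_le fun s => ?_
    set G := s.filter (fun j => (1 / 2 : ℝ) ^ l < ‖inner ℂ (φ j) f‖) with hG
    have h1 : ∑ j ∈ s, (if (1 / 2 : ℝ) ^ l < ‖inner ℂ (φ j) f‖ then P (A j) else 0) =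
        ENNReal.ofReal (∑ j ∈ G, P.real (A j)) := by
      rw [ENNReal.ofReal_sum_of_nonneg fun _ _ => measureReal_nonneg, hG, Finset.sum_filter]
      refine Finset.sum_congr rfl fun j _ => ?_
      split_ifs
      · rw [ofReal_measureReal (measure_ne_top _ _)]
      · rfl
    rw [h1]
    have h2 := (hl₀ l hl f hf).2 G fun j hj => (Finset.mem_filter.1 hj).2
    refine (ENNReal.ofReal_le_ofReal h2).trans ?_
    rw [ENNReal.ofReal_add (mul_nonneg (by norm_num) (cnt_nonneg _ _ _)) (by positivity),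
      ENNReal.ofReal_mul (by norm_num)]
    refine add_le_add (mul_le_mul' (by norm_num) ?_) le_rfl
    unfold cnt
    rw [ENNReal.ofReal_sum_of_nonneg fun _ _ => indicator_nonneg (fun _ _ => zero_le_one) _]
    refine le_trans ?_ (ENNReal.sum_le_tsum (lev φ (box d (2 ^ (K * (l + 1)))) ((1 / 2) ^ (l + 1)) f))
    refine Finset.sum_le_sum fun j hj => ?_
    unfold lev at hj
    rw [Finset.mem_filter] at hj
    rw [if_pos hj.2]
    unfold io
    by_cases h : ω ∈ A j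
    · rw [indicator_of_mem h, indicator_of_mem h, ENNReal.ofReal_one]
    · rw [indicator_of_notMem h, indicator_of_notMem h, ENNReal.ofReal_zero]
  obtain ⟨C₁, hC₁⟩ := level_sum q hq C hC0 (fun l => 2 ^ (K₀ * (l + 1))) l₀
  refine ⟨C₁, fun f => ?_⟩
  -- scaling
  have key : ∀ (v v' : (Fin d → ℤ) → ℝ≥0∞), (∀ g : H, ‖g‖ ≤ 1 →
      ∑' j, v j * ENNReal.ofReal ‖inner ℂ (φ j) g‖ ^ q ≤
        C₁ * (1 + ∑' j, v' j * ENNReal.ofReal ‖inner ℂ (φ j) g‖ ^ q)) →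
      ∑' j, v j * ‖inner ℂ (φ j) f‖ₑ ^ q ≤
        C₁ * (‖f‖ₑ ^ q + ∑' j, v' j * ‖inner ℂ (φ j) f‖ₑ ^ q) := by
    intro v v' hv
    rcases eq_or_ne f 0 with h0 | h0
    · rw [h0]
      simp_rw [inner_zero_right, enorm_zero, ENNReal.zero_rpow_of_pos hq0, mul_zero]
      rw [tsum_zero]
      exact zero_le
    · have hf0 : 0 < ‖f‖ := norm_pos_iff.2 h0
      set g : H := ((‖f‖⁻¹ : ℝ) : ℂ) • f with hg
      have hg1 : ‖g‖ ≤ 1 := by
        rw [hg, norm_smul, Complex.norm_real, norm_inv, norm_norm, inv_mul_cancel₀ hf0.ne']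
      have hgf : ∀ j, ‖inner ℂ (φ j) f‖ₑ ^ q =
          ‖f‖ₑ ^ q * ENNReal.ofReal ‖inner ℂ (φ j) g‖ ^ q := by
        intro j
        rw [← ENNReal.mul_rpow_of_nonneg _ _ hq0.le, ← ofReal_norm, ← ofReal_norm,
          ← ENNReal.ofReal_mul (norm_nonneg _), hg, inner_smul_right, norm_mul, Complex.norm_real,
          norm_inv, norm_norm, ← mul_assoc, mul_inv_cancel₀ hf0.ne', one_mul]
      simp_rw [hgf]
      have h1 : ∀ u : (Fin d → ℤ) → ℝ≥0∞, ∑' j, u j * (‖f‖ₑ ^ q *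
          ENNReal.ofReal ‖inner ℂ (φ j) g‖ ^ q) =
          ‖f‖ₑ ^ q * ∑' j, u j * ENNReal.ofReal ‖inner ℂ (φ j) g‖ ^ q := by
        intro u
        rw [← ENNReal.tsum_mul_left]
        exact tsum_congr fun j => by ring
      rw [h1, h1]
      calc ‖f‖ₑ ^ q * ∑' j, v j * ENNReal.ofReal ‖inner ℂ (φ j) g‖ ^ q
          ≤ ‖f‖ₑ ^ q * (C₁ * (1 + ∑' j, v' j * ENNReal.ofReal ‖inner ℂ (φ j) g‖ ^ q)) :=
            mul_le_mul' le_rfl (hv g hg1)
        _ = _ := by ring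
  have hbd : ∀ g : H, ‖g‖ ≤ 1 → ∀ j, ‖inner ℂ (φ j) g‖ ≤ 1 := fun g hg j =>
    (norm_inner_le_norm _ _).trans (mul_le_one₀ (hφ.bd j) (norm_nonneg _) hg)
  constructor
  · exact key _ _ fun g hg => hC₁ (io A ω) (fun j => P (A j)) (fun j => ‖inner ℂ (φ j) g‖)
      (hbd g hg) (hU g hg) (hcrude _ hio1 g hg)
  · exact key _ _ fun g hg => hC₁ (fun j => P (A j)) (io A ω) (fun j => ‖inner ℂ (φ j) g‖)
      (hbd g hg) (hL g hg) (hcrude _ hP1 g hg)

end Pool.Agent.Helper70x.RS
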