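import Mathlib
import Pool.Agent.N248.RR.H
import Pool.Agent.Helper70x.RS.Tr
set_option autoImplicit false
set_option linter.unusedSectionVars false

/-! Random sets: from the integer points to the unit cubes. -/

namespace Pool.Agent.Helper70x.RS

open MeasureTheory Set ProbabilityTheory Filter
open Pool.Agent.N248.RR (uq uq_meas uq_vol uq_disj ps ps_inner ps_inner_ps ps_norm ck_mem ps_meas ex
  ex_norm ex_add ex_cont)
open scoped ENNReal NNReal RealInnerProductSpace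

variable {d : ℕ}

/-- the integer point -/
noncomputable def tz (j : Fin d → ℤ) : EuclideanSpace ℝ (Fin d) := WithLp.toLp 2 fun i => (j i : ℝ)

/-- the cube containing the point -/
noncomputable def fl (x : EuclideanSpace ℝ (Fin d)) : Fin d → ℤ := fun i => ⌊x i⌋

theorem mem_uq_iff (x : EuclideanSpace ℝ (Fin d)) (j : Fin d → ℤ) : x ∈ uq j ↔ fl x = j := by
  unfold fl
  constructor
  · intro h
    funext i
    rw [Int.floor_eq_iff]
    exact h i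
  · rintro rfl i
    exact ⟨Int.floor_le _, Int.lt_floor_add_one _⟩

theorem uq_shift (j : Fin d → ℤ) (z : EuclideanSpace ℝ (Fin d)) : tz j + z ∈ uq j ↔ z ∈ uq 0 := by
  have h : ∀ i, (tz j + z) i = j i + z i := fun i => rfl
  constructor
  · intro hz i
    have h1 := hz i
    rw [h] at h1
    simp only [Pi.zero_apply, Int.cast_zero, zero_add]
    constructor <;> linarith [h1.1, h1.2]
  · intro hz i
    have h1 := hz i
    simp only [Pi.zero_apply, Int.cast_zero, zero_add] at h1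
    rw [h]
    constructor <;> linarith [h1.1, h1.2]

theorem tz_mem (j : Fin d → ℤ) : tz j ∈ uq j := by
  intro i
  have h : tz j i = j i := rfl
  rw [h]
  constructor <;> linarith

theorem fl_meas : Measurable (fl : EuclideanSpace ℝ (Fin d) → Fin d → ℤ) :=
  measurable_pi_iff.2 fun i => Int.measurable_floor.comp (by fun_prop)

theorem lint_cubes (g : EuclideanSpace ℝ (Fin d) → ℝ≥0∞) :
    ∫⁻ x, g x = ∑' j : Fin d → ℤ, ∫⁻ x in uq j, g x := by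
  rw [← lintegral_iUnion uq_meas (fun j k h => uq_disj j k h)]
  have h : (⋃ j : Fin d → ℤ, uq j) = univ := by
    rw [eq_univ_iff_forall]
    intro x
    exact mem_iUnion.2 ⟨fl x, (mem_uq_iff x _).2 rfl⟩
  rw [h, Measure.restrict_univ]

theorem cube_int (v : (Fin d → ℤ) → ℝ≥0∞) (g : EuclideanSpace ℝ (Fin d) → ℝ≥0∞)
    (hg : Measurable g) :
    ∫⁻ x, v (fl x) * g x = ∫⁻ z in uq 0, ∑' j, v j * g (tz j + z) := by
  have hm : ∀ j : Fin d → ℤ, AEMeasurable (fun z => v j * g (tz j + z)) (volume.restrict (uq 0)) :=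
    fun j => ((hg.comp (measurable_const_add (tz j))).const_mul (v j)).aemeasurable
  rw [lintegral_tsum hm, lint_cubes]
  refine tsum_congr fun j => ?_
  calc ∫⁻ x in uq j, v (fl x) * g x = ∫⁻ x in uq j, v j * g x :=
        setLIntegral_congr_fun (uq_meas j) fun x hx => by
          rw [(mem_uq_iff x j).1 hx]
    _ = ∫⁻ x, (uq j).indicator (fun x => v j * g x) x := (lintegral_indicator (uq_meas j) _).symm
    _ = ∫⁻ z, (uq j).indicator (fun x => v j * g x) (tz j + z) :=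
        (lintegral_add_left_eq_self _ (tz j)).symm
    _ = ∫⁻ z, (uq 0).indicator (fun z => v j * g (tz j + z)) z := by
        refine lintegral_congr fun z => ?_
        by_cases h : z ∈ uq 0
        · rw [indicator_of_mem h, indicator_of_mem ((uq_shift j z).2 h)]
        · rw [indicator_of_notMem h, indicator_of_notMem fun h' => h ((uq_shift j z).1 h')]
    _ = _ := lintegral_indicator (uq_meas 0) _

variable {Y : Type*} [MeasurableSpace Y] (μ : Measure Y) [IsFiniteMeasure μ]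
  (Φ : Y → EuclideanSpace ℝ (Fin d)) (hΦ : Measurable Φ)

include hΦ in
theorem mod_mem (z : EuclideanSpace ℝ (Fin d)) (f : Lp ℂ 2 μ) :
    MemLp (fun y => ex ⟪Φ y, z⟫ * f y) 2 μ := by
  refine (Lp.memLp f).of_le_mul (c := 1) ?_ (Filter.Eventually.of_forall fun y => ?_)
  · exact (ex_cont.measurable.comp (hΦ.inner measurable_const)).aestronglyMeasurable.mul
      (Lp.aestronglyMeasurable f)
  · rw [norm_mul, ex_norm]

/-- modulation -/
noncomputable def Mz (z : EuclideanSpace ℝ (Fin d)) (f : Lp ℂ 2 μ) : Lp ℂ 2 μ :=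
  (mod_mem μ Φ hΦ z f).toLp _

theorem Mz_norm (z : EuclideanSpace ℝ (Fin d)) (f : Lp ℂ 2 μ) : ‖Mz μ Φ hΦ z f‖ = ‖f‖ := by
  unfold Mz
  rw [Lp.norm_toLp, Lp.norm_def]
  congr 1
  refine eLpNorm_congr_norm_ae (Filter.Eventually.of_forall fun y => ?_)
  rw [norm_mul, ex_norm, one_mul]

theorem Mz_inner (x z : EuclideanSpace ℝ (Fin d)) (f : Lp ℂ 2 μ) :
    inner ℂ (ps μ Φ hΦ x) (Mz μ Φ hΦ z f) = inner ℂ (ps μ Φ hΦ (x + z)) f := by
  rw [ps_inner, ps_inner]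
  refine integral_congr_ae ?_
  filter_upwards [(mod_mem μ Φ hΦ z f).coeFn_toLp] with y hy
  unfold Mz
  rw [hy, inner_add_right, ex_add]
  ring

theorem tz_sub (i j : Fin d → ℤ) : tz i - tz j = tz (i - j) := by
  ext t
  have h : (tz i - tz j) t = i t - j t := rfl
  rw [h]
  unfold tz
  simp

theorem tz_norm (j : Fin d → ℤ) : ‖j‖ ≤ ‖tz j‖ := by
  rw [pi_norm_le_iff_of_nonneg (norm_nonneg _)]
  intro i
  have h := PiLp.norm_apply_le (tz j) i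
  rw [Int.norm_eq_abs]
  rw [Real.norm_eq_abs] at h
  exact h

/-- the normalization -/
noncomputable def kap (μ : Measure Y) : ℝ := (1 + Real.sqrt (μ.real univ))⁻¹

theorem kap_pos : 0 < kap μ := by unfold kap; positivity

theorem kap_le : kap μ ≤ 1 := by
  unfold kap
  exact inv_le_one_of_one_le₀ (by linarith [Real.sqrt_nonneg (μ.real univ)])

/-- the normalized vectors -/
noncomputable def ph (j : Fin d → ℤ) : Lp ℂ 2 μ := ((kap μ : ℝ) : ℂ) • ps μ Φ hΦ (tz j)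

theorem ph_vecs (L₀ γ : ℝ) (hL₀ : 0 ≤ L₀) (hγ : 0 < γ)
    (hdec : ∀ x, x ≠ 0 → ‖∫ y, ex ⟪Φ y, x⟫ ∂μ‖ ≤ L₀ * ‖x‖ ^ (-γ)) :
    Vecs (ph μ Φ hΦ) (L₀ + 1) γ := by
  have hk0 := kap_pos μ
  have hk1 := kap_le μ
  refine ⟨by linarith, hγ, fun j => ?_, fun i j hij => ?_⟩
  · unfold ph
    rw [norm_smul, Complex.norm_real, Real.norm_eq_abs, abs_of_pos hk0]
    have h1 : ‖ps μ Φ hΦ (tz j)‖ = Real.sqrt (μ.real univ) := by
      rw [← ps_norm μ Φ hΦ (tz j), Real.sqrt_sq (norm_nonneg _)]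
    rw [h1]
    unfold kap
    rw [inv_mul_le_iff₀ (by positivity)]
    linarith
  · unfold ph
    rw [inner_smul_left, inner_smul_right, norm_mul, norm_mul, ps_inner_ps, tz_sub]
    have h1 : ‖(starRingEnd ℂ) ((kap μ : ℝ) : ℂ)‖ ≤ 1 := by
      rw [Complex.norm_conj, Complex.norm_real, Real.norm_eq_abs, abs_of_pos hk0]
      exact hk1
    have h2 : ‖((kap μ : ℝ) : ℂ)‖ ≤ 1 := by
      rw [Complex.norm_real, Real.norm_eq_abs, abs_of_pos hk0]
      exact hk1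
    have hne : i - j ≠ 0 := sub_ne_zero.2 hij
    have hn0 : 0 < ‖i - j‖ := norm_pos_iff.2 hne
    have hn1 := tz_norm (i - j)
    have hx0 : tz (i - j) ≠ 0 := norm_pos_iff.1 (hn0.trans_le hn1)
    have h3 := hdec (tz (i - j)) hx0
    have h4 : ‖tz (i - j)‖ ^ (-γ) ≤ ‖i - j‖ ^ (-γ) :=
      Real.rpow_le_rpow_of_nonpos hn0 hn1 (by linarith)
    have h5 : (0 : ℝ) ≤ ‖i - j‖ ^ (-γ) := by positivity
    calc ‖(starRingEnd ℂ) ((kap μ : ℝ) : ℂ)‖ * (‖((kap μ : ℝ) : ℂ)‖ *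
          ‖∫ y, ex ⟪Φ y, tz (i - j)⟫ ∂μ‖) ≤ 1 * (1 * (L₀ * ‖tz (i - j)‖ ^ (-γ))) := by
          gcongr
      _ ≤ (L₀ + 1) * ‖i - j‖ ^ (-γ) := by
          rw [one_mul, one_mul]
          exact mul_le_mul (by linarith) h4 (by positivity) (by linarith)

theorem ph_inner (j : Fin d → ℤ) (z : EuclideanSpace ℝ (Fin d)) (f : Lp ℂ 2 μ) :
    inner ℂ (ph μ Φ hΦ j) (((kap μ : ℝ) : ℂ)⁻¹ • Mz μ Φ hΦ z f) =
      inner ℂ (ps μ Φ hΦ (tz j + z)) f := by
  have hk0 := kap_pos μ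
  have hk : ((kap μ : ℝ) : ℂ) ≠ 0 := by exact_mod_cast hk0.ne'
  unfold ph
  rw [inner_smul_left, inner_smul_right, Mz_inner, Complex.conj_ofReal, ← mul_assoc,
    mul_inv_cancel₀ hk, one_mul]

theorem Mz_enorm (z : EuclideanSpace ℝ (Fin d)) (f : Lp ℂ 2 μ) :
    ‖((kap μ : ℝ) : ℂ)⁻¹ • Mz μ Φ hΦ z f‖ₑ = ENNReal.ofReal (kap μ)⁻¹ * ‖f‖ₑ := by
  have hk0 := kap_pos μ
  rw [enorm_smul, ← ofReal_norm (Mz μ Φ hΦ z f), Mz_norm, ofReal_norm, ← ofReal_norm, norm_inv,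
    Complex.norm_real, Real.norm_eq_abs, abs_of_pos hk0]

variable {Ω : Type*} [MeasurableSpace Ω] (P : Measure Ω) (A : (Fin d → ℤ) → Set Ω)

/-- **The equivalence of the norms on the random set and of the weighted norms.** -/
theorem transfer_int [IsProbabilityMeasure P] (hAm : ∀ j, MeasurableSet (A j))
    (hind : iIndepSet A P) (a c : ℝ) (ha : 0 < a) (ha1 : a ≤ 1) (hc : 1 ≤ c)
    (hp : ∀ j, P (A j) ≤ ENNReal.ofReal (c * (1 + ‖j‖) ^ (-a)))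
    (L₀ γ : ℝ) (hL₀ : 0 ≤ L₀) (hγ : 0 < γ)
    (hdec : ∀ x, x ≠ 0 → ‖∫ y, ex ⟪Φ y, x⟫ ∂μ‖ ≤ L₀ * ‖x‖ ^ (-γ)) :
    ∀ᵐ ω ∂P, ∀ q : ℝ, 2 < q → ∃ C : ℝ≥0, ∀ f : Lp ℂ 2 μ,
      ∫⁻ x, io A ω (fl x) * ‖inner ℂ (ps μ Φ hΦ x) f‖ₑ ^ q ≤
        C * (‖f‖ₑ ^ q + ∫⁻ x, P (A (fl x)) * ‖inner ℂ (ps μ Φ hΦ x) f‖ₑ ^ q) ∧
      ∫⁻ x, P (A (fl x)) * ‖inner ℂ (ps μ Φ hΦ x) f‖ₑ ^ q ≤
        C * (‖f‖ₑ ^ q + ∫⁻ x, io A ω (fl x) * ‖inner ℂ (ps μ Φ hΦ x) f‖ₑ ^ q) := by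
  have hv := ph_vecs μ Φ hΦ L₀ γ hL₀ hγ hdec
  filter_upwards [transfer P A hAm hind a c ha ha1 hc hp hv] with ω hω
  intro q hq
  have hq0 : 0 < q := by linarith
  obtain ⟨C, hC⟩ := hω q hq
  set κ : ℝ≥0∞ := ENNReal.ofReal (kap μ)⁻¹ with hκ
  have hk0 := kap_pos μ
  have hk1 := kap_le μ
  have hκ1 : 1 ≤ κ := by
    rw [hκ, ← ENNReal.ofReal_one]
    exact ENNReal.ofReal_le_ofReal (by rw [one_le_inv₀ hk0]; exact hk1)
  have hκq1 : 1 ≤ κ ^ q := ENNReal.one_le_rpow hκ1 hq0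
  have hκt : κ ^ q ≠ ∞ := ENNReal.rpow_ne_top_of_nonneg hq0.le ENNReal.ofReal_ne_top
  refine ⟨C * (κ ^ q).toNNReal, fun f => ?_⟩
  have hgm : Measurable fun x => ‖inner ℂ (ps μ Φ hΦ x) f‖ₑ ^ q :=
    (ps_meas μ Φ hΦ f).enorm.pow_const q
  rw [ENNReal.coe_mul, ENNReal.coe_toNNReal hκt]
  have e1 := cube_int (io A ω) _ hgm
  have e2 := cube_int (fun j => P (A j)) _ hgm
  have key : ∀ (v v' : (Fin d → ℤ) → ℝ≥0∞),
      (∀ h : Lp ℂ 2 μ, ∑' j, v j * ‖inner ℂ (ph μ Φ hΦ j) h‖ₑ ^ q ≤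
        C * (‖h‖ₑ ^ q + ∑' j, v' j * ‖inner ℂ (ph μ Φ hΦ j) h‖ₑ ^ q)) →
      ∫⁻ z in uq 0, ∑' j, v j * ‖inner ℂ (ps μ Φ hΦ (tz j + z)) f‖ₑ ^ q ≤
        C * κ ^ q * (‖f‖ₑ ^ q +
          ∫⁻ z in uq 0, ∑' j, v' j * ‖inner ℂ (ps μ Φ hΦ (tz j + z)) f‖ₑ ^ q) := by
    intro v v' h
    have hm : Measurable fun z => ∑' j, v' j * ‖inner ℂ (ps μ Φ hΦ (tz j + z)) f‖ₑ ^ q :=
      Measurable.tsum fun j => (hgm.comp (measurable_const_add (tz j))).const_mul (v' j)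
    calc ∫⁻ z in uq 0, ∑' j, v j * ‖inner ℂ (ps μ Φ hΦ (tz j + z)) f‖ₑ ^ q
        ≤ ∫⁻ z in uq 0, C * κ ^ q * (‖f‖ₑ ^ q +
            ∑' j, v' j * ‖inner ℂ (ps μ Φ hΦ (tz j + z)) f‖ₑ ^ q) := by
          refine lintegral_mono fun z => ?_
          have h1 := h (((kap μ : ℝ) : ℂ)⁻¹ • Mz μ Φ hΦ z f)
          simp_rw [ph_inner] at h1
          refine h1.trans ?_
          rw [Mz_enorm, ← hκ, ENNReal.mul_rpow_of_nonneg _ _ hq0.le, mul_assoc]
          refine mul_le_mul' le_rfl ?_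
          rw [mul_add]
          refine add_le_add le_rfl ?_
          exact le_mul_of_one_le_left' hκq1
      _ = C * κ ^ q * ∫⁻ z in uq 0, (‖f‖ₑ ^ q +
            ∑' j, v' j * ‖inner ℂ (ps μ Φ hΦ (tz j + z)) f‖ₑ ^ q) :=
          lintegral_const_mul _ (measurable_const.add hm)
      _ = _ := by
          rw [lintegral_add_left measurable_const, setLIntegral_const, uq_vol, mul_one]
  have k1 := key (io A ω) (fun j => P (A j)) (fun h => (hC h).1)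
  have k2 := key (fun j => P (A j)) (io A ω) (fun h => (hC h).2)
  rw [← e1, ← e2] at k1
  rw [← e1, ← e2] at k2
  exact ⟨k1, k2⟩

end Pool.Agent.Helper70x.RS
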