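import Mathlib
import Pool.Agent.N248.RR.S2
set_option autoImplicit false
set_option linter.unusedSectionVars false

/-! Random sets: necessity of the decay of the density, from Knapp's example. -/

namespace Pool.Agent.Helper70x.RS

open MeasureTheory Set ProbabilityTheory Filter
open Pool.Agent.N248.RR (uq uq_meas uq_vol uq_disj ex ex_norm ex_add ex_cont sS sS_meas sg_fin many
  sJ sJ_card sJ_prop phase_low)
open Pool.Agent.H789R2.FR (sg T sg_finite sg_ae cap_lower)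
open scoped ENNReal NNReal RealInnerProductSpace

section gen

variable {d : ℕ} {Y : Type*} [MeasurableSpace Y] (μ : Measure Y) [IsFiniteMeasure μ]
  (Φ : Y → EuclideanSpace ℝ (Fin d))

/-- unboundedness from caps and dual tubes -/
theorem knapp_gen (K : ℕ → Set Y) (hKm : ∀ k, MeasurableSet (K k))
    (J : ℕ → Finset (Fin d → ℤ)) (c₀ : ℝ) (hc₀ : 0 < c₀)
    (hK : ∀ k, c₀ * ((2 : ℝ) ^ k) ^ (-((d : ℝ) - 1)) ≤ μ.real (K k))
    (hJc : ∀ k, c₀ * ((2 : ℝ) ^ k) ^ ((d : ℝ) + 1) ≤ (J k).card)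
    (hJx : ∀ k, ∀ j ∈ J k, ∀ x ∈ uq j,
      μ.real (K k) / 2 ≤ ‖∫ y in K k, ex ⟪Φ y, x⟫ ∂μ‖)
    {Ω : Type*} [MeasurableSpace Ω] (P : Measure Ω) [IsProbabilityMeasure P]
    (A : (Fin d → ℤ) → Set Ω) (hAm : ∀ j, MeasurableSet (A j)) (hind : iIndepSet A P)
    (r : ℝ) (hr0 : 0 < r) (hd1 : (1 : ℝ) ≤ d) (κ : ℕ → ℕ)
    (hp : ∀ i, ∀ j ∈ J (κ i), ENNReal.ofReal
      ((2 : ℝ) ^ i * ((2 : ℝ) ^ κ i) ^ (-((d : ℝ) + 1 - ((d : ℝ) - 1) * r / 2))) ≤ P (A j)) :
    ∀ᵐ ω ∂P, ∀ C : ℝ≥0, ∃ f : Y → ℂ, MemLp f 2 μ ∧ C * eLpNorm f 2 μ ^ r <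
      ∫⁻ x in ⋃ j ∈ {j | ω ∈ A j}, uq j, ‖∫ y, ex ⟪Φ y, x⟫ * f y ∂μ‖ₑ ^ r := by
  classical
  set β : ℝ := ((d : ℝ) - 1) * r / 2 with hβ
  have hβ0 : 0 ≤ β := by
    have : 0 ≤ (d : ℝ) - 1 := by linarith
    positivity
  set p : ℕ → ℝ := fun i => (2 : ℝ) ^ i * ((2 : ℝ) ^ κ i) ^ (-((d : ℝ) + 1 - β)) with hpd
  have hp0 : ∀ i, 0 < p i := fun i => by positivity
  have hm : ∀ i, c₀ * 2 ^ i * ((2 : ℝ) ^ κ i) ^ β ≤ (J (κ i)).card * p i := by
    intro i
    have h2k : (0 : ℝ) < 2 ^ κ i := by positivity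
    calc c₀ * 2 ^ i * ((2 : ℝ) ^ κ i) ^ β = (c₀ * ((2 : ℝ) ^ κ i) ^ ((d : ℝ) + 1)) * p i := by
          simp only [hpd]
          have e : ((2 : ℝ) ^ κ i) ^ β = ((2 : ℝ) ^ κ i) ^ ((d : ℝ) + 1) *
              ((2 : ℝ) ^ κ i) ^ (-((d : ℝ) + 1 - β)) := by
            rw [← Real.rpow_add h2k]
            congr 1
            ring
          rw [e]
          ring
      _ ≤ _ := mul_le_mul_of_nonneg_right (hJc (κ i)) (hp0 i).le
  have hm1 : ∀ i, c₀ * 2 ^ i ≤ (J (κ i)).card * p i := by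
    intro i
    refine le_trans ?_ (hm i)
    have h1 : (1 : ℝ) ≤ ((2 : ℝ) ^ κ i) ^ β :=
      Real.one_le_rpow (one_le_pow₀ (by norm_num)) hβ0
    exact le_mul_of_one_le_right (by positivity) h1
  set F : ℕ → Set Ω := fun i =>
    {ω | ∑ j ∈ J (κ i), (A j).indicator (fun _ => (1 : ℝ)) ω < ((J (κ i)).card * p i) / 2} with hF
  have hFP : ∀ i, P (F i) ≤ ENNReal.ofReal (4 / c₀ * (1 / 2) ^ i) := by
    intro i
    have hcard : (0 : ℝ) < (J (κ i)).card := by
      have h1 := hJc (κ i)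
      have h2 : 0 < c₀ * ((2 : ℝ) ^ κ i) ^ ((d : ℝ) + 1) := by positivity
      linarith
    have hne : (J (κ i)).Nonempty := Finset.card_pos.1 (by exact_mod_cast hcard)
    have h1 := many P A hAm hind (J (κ i)) (p i) (hp0 i) hne (by
      intro j hj
      have h3 := hp i j hj
      rw [Measure.real, ← ENNReal.ofReal_le_iff_le_toReal (measure_ne_top _ _)]
      exact h3)
    refine h1.trans (ENNReal.ofReal_le_ofReal ?_)
    calc 4 / ((J (κ i)).card * p i) ≤ 4 / (c₀ * 2 ^ i) :=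
          div_le_div_of_nonneg_left (by norm_num) (by positivity) (hm1 i)
      _ = 4 / c₀ * (1 / 2) ^ i := by
          rw [one_div, inv_pow]
          field_simp
  have hsum : (∑' k, P (F k)) ≠ ∞ := by
    refine ne_top_of_le_ne_top ?_ (ENNReal.tsum_le_tsum hFP)
    exact ((summable_geometric_of_lt_one (by norm_num) (by norm_num)).mul_left
      _).tsum_ofReal_ne_top
  filter_upwards [ae_eventually_notMem hsum] with ω hω
  obtain ⟨k₀, hk₀⟩ := eventually_atTop.1 hω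
  intro C
  set c₂ : ℝ := c₀ / 2 * (1 / 2) ^ r * c₀ ^ (r / 2) with hc₂
  have hc₂0 : 0 < c₂ := by positivity
  have htend : Tendsto (fun i : ℕ => c₂ * (2 : ℝ) ^ i) atTop atTop :=
    (tendsto_pow_atTop_atTop_of_one_lt (by norm_num)).const_mul_atTop hc₂0
  obtain ⟨i, hk1, hk2⟩ := ((htend.eventually_gt_atTop (C : ℝ)).and
    (eventually_ge_atTop k₀)).exists
  have hωk : ω ∉ F i := hk₀ i hk2
  simp only [hF, mem_ofPred_eq, not_lt] at hωk
  set k : ℕ := κ i with hk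
  have h2k : (0 : ℝ) < 2 ^ k := by positivity
  set v : ℝ := μ.real (K k) with hv
  have hvl : c₀ * ((2 : ℝ) ^ k) ^ (-((d : ℝ) - 1)) ≤ v := hK k
  have hv0 : 0 < v := lt_of_lt_of_le (by positivity) hvl
  have hKv : μ (K k) = ENNReal.ofReal v := by rw [hv, ofReal_measureReal (measure_ne_top _ _)]
  have hint : ∀ x, ∫ y, ex ⟪Φ y, x⟫ * (K k).indicator (fun _ => (1 : ℂ)) y ∂μ =
      ∫ y in K k, ex ⟪Φ y, x⟫ ∂μ := by
    intro x
    rw [← integral_indicator (hKm k)]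
    refine integral_congr_ae (Filter.Eventually.of_forall fun y => ?_)
    simp only
    by_cases h : y ∈ K k
    · rw [indicator_of_mem h, indicator_of_mem h, mul_one]
    · rw [indicator_of_notMem h, indicator_of_notMem h, mul_zero]
  refine ⟨(K k).indicator fun _ => (1 : ℂ), memLp_indicator_const 2 (hKm k) 1
    (Or.inr (measure_ne_top _ _)), ?_⟩
  simp_rw [hint]
  rw [eLpNorm_indicator_const (hKm k) (by norm_num) (by norm_num), hKv]
  simp only [enorm_one, one_mul, ENNReal.toReal_ofNat]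
  rw [← ENNReal.rpow_mul, ENNReal.ofReal_rpow_of_pos hv0]
  set Jk : Finset (Fin d → ℤ) := (J k).filter fun j => ω ∈ A j with hJk
  have hJkc : (Jk.card : ℝ) = ∑ j ∈ J k, (A j).indicator (fun _ => (1 : ℝ)) ω := by
    rw [hJk, Finset.card_filter]
    push_cast
    refine Finset.sum_congr rfl fun j _ => ?_
    by_cases h : ω ∈ A j
    · rw [indicator_of_mem h, if_pos h]
    · rw [indicator_of_notMem h, if_neg h]
  have hlow : ENNReal.ofReal ((Jk.card : ℝ) * (v / 2) ^ r) ≤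
      ∫⁻ x in ⋃ j ∈ {j | ω ∈ A j}, uq j, ‖∫ y in K k, ex ⟪Φ y, x⟫ ∂μ‖ₑ ^ r := by
    have h1 : (⋃ j ∈ Jk, uq j) ⊆ ⋃ j ∈ {j | ω ∈ A j}, uq j := by
      intro x hx
      rw [mem_iUnion₂] at hx ⊢
      obtain ⟨j, hj, hxj⟩ := hx
      exact ⟨j, (Finset.mem_filter.1 hj).2, hxj⟩
    refine le_trans ?_ (lintegral_mono_set h1)
    rw [lintegral_biUnion_finset (fun j _ k _ hjk => uq_disj _ _ hjk) (fun j _ => uq_meas _)]
    rw [ENNReal.ofReal_mul (Nat.cast_nonneg _), ENNReal.ofReal_natCast, ← nsmul_eq_mul,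
      ← Finset.sum_const]
    refine Finset.sum_le_sum fun j hj => ?_
    calc ENNReal.ofReal ((v / 2) ^ r) = ∫⁻ _ in uq j, ENNReal.ofReal ((v / 2) ^ r) := by
          rw [setLIntegral_const, uq_vol, mul_one]
      _ ≤ _ := by
          refine setLIntegral_mono' (uq_meas j) fun x hx => ?_
          have h3 := hJx k j (Finset.mem_filter.1 hj).1 x hx
          rw [← ENNReal.ofReal_rpow_of_nonneg (by positivity) hr0.le]
          refine ENNReal.rpow_le_rpow ?_ hr0.le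
          rw [← ofReal_norm]
          exact ENNReal.ofReal_le_ofReal h3
  refine lt_of_lt_of_le ?_ hlow
  rw [← ENNReal.ofReal_coe_nnreal, ← ENNReal.ofReal_mul (NNReal.coe_nonneg C)]
  rw [ENNReal.ofReal_lt_ofReal_iff_of_nonneg (by positivity)]
  have hvr : v ^ r = v ^ (r / 2) * v ^ (r / 2) := by
    rw [← Real.rpow_add hv0]
    congr 1
    ring
  have hvk2 : c₀ ^ (r / 2) * ((2 : ℝ) ^ k) ^ (-β) ≤ v ^ (r / 2) := by
    calc c₀ ^ (r / 2) * ((2 : ℝ) ^ k) ^ (-β) =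
          (c₀ * ((2 : ℝ) ^ k) ^ (-((d : ℝ) - 1))) ^ (r / 2) := by
          rw [Real.mul_rpow hc₀.le (by positivity), ← Real.rpow_mul h2k.le, hβ]
          congr 2
          ring
      _ ≤ _ := Real.rpow_le_rpow (by positivity) hvl (by positivity)
  have h5 : c₂ * (2 : ℝ) ^ i ≤ (Jk.card : ℝ) * ((1 / 2) ^ r * v ^ (r / 2)) := by
    have h6 : ((2 : ℝ) ^ k) ^ β * ((2 : ℝ) ^ k) ^ (-β) = 1 := by
      rw [← Real.rpow_add h2k, add_neg_cancel, Real.rpow_zero]
    have h7 : c₀ * 2 ^ i * ((2 : ℝ) ^ k) ^ β / 2 ≤ Jk.card := by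
      rw [hJkc]
      have := hm i
      linarith
    calc c₂ * (2 : ℝ) ^ i = (c₀ * 2 ^ i * ((2 : ℝ) ^ k) ^ β / 2) * ((1 / 2) ^ r *
          (c₀ ^ (r / 2) * ((2 : ℝ) ^ k) ^ (-β))) := by
          rw [hc₂]
          calc c₀ / 2 * (1 / 2) ^ r * c₀ ^ (r / 2) * 2 ^ i =
                c₀ / 2 * (1 / 2) ^ r * c₀ ^ (r / 2) * 2 ^ i * 1 := by ring
            _ = _ := by rw [← h6]; ring
      _ ≤ _ := by
          refine mul_le_mul h7 ?_ (by positivity) (Nat.cast_nonneg _)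
          exact mul_le_mul_of_nonneg_left hvk2 (by positivity)
  have h8 : (v / 2) ^ r = (1 / 2) ^ r * v ^ (r / 2) * v ^ (r / 2) := by
    rw [div_eq_mul_one_div, Real.mul_rpow hv0.le (by norm_num), hvr]
    ring
  rw [h8, show (1 / 2 * r : ℝ) = r / 2 by ring]
  calc (C : ℝ) * v ^ (r / 2) < (c₂ * (2 : ℝ) ^ i) * v ^ (r / 2) :=
        mul_lt_mul_of_pos_right hk1 (by positivity)
    _ ≤ ((Jk.card : ℝ) * ((1 / 2) ^ r * v ^ (r / 2))) * v ^ (r / 2) :=
        mul_le_mul_of_nonneg_right h5 (by positivity)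
    _ = _ := by ring

end gen

variable {n : ℕ}

/-- caps and dual tubes for the sphere -/
theorem sph_knapp (hn : 2 ≤ n) (s : ℝ) :
    ∃ c₀ : ℝ, 0 < c₀ ∧ ∃ K : ℕ → Set (EuclideanSpace ℝ (Fin n)), ∃ J : ℕ → Finset (Fin n → ℤ),
      (∀ k, MeasurableSet (K k)) ∧
      (∀ k, c₀ * ((2 : ℝ) ^ k) ^ (-((n : ℝ) - 1)) ≤ (sg n).real (K k)) ∧
      (∀ k, c₀ * ((2 : ℝ) ^ k) ^ ((n : ℝ) + 1) ≤ (J k).card) ∧
      (∀ k, ∀ j ∈ J k, 1 + ‖j‖ ≤ 2 * 4 ^ k) ∧
      (∀ k, ∀ j ∈ J k, ∀ x ∈ uq j,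
        (sg n).real (K k) / 2 ≤ ‖∫ y in K k, ex ⟪sS s y, x⟫ ∂(sg n)‖) := by
  classical
  have hnR : (2 : ℝ) ≤ n := by exact_mod_cast hn
  set i₀ : Fin n := ⟨0, by omega⟩ with hi₀
  set e : EuclideanSpace ℝ (Fin n) := EuclideanSpace.single i₀ (1 : ℝ) with he
  have hen : ‖e‖ = 1 := by rw [he]; simp
  have hei : ∀ i, i ≠ i₀ → e i = 0 := by
    intro i hi
    rw [he, PiLp.single_apply, if_neg hi]
  obtain ⟨c', hc'0, hc'⟩ := cap_lower n hn
  set δ : ℝ := 1 / ((|s| + 1) * (n + 1)) with hδ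
  have hδ0 : 0 < δ := by positivity
  have hδ1 : δ ≤ 1 := by
    rw [hδ, div_le_one (by positivity)]
    have := abs_nonneg s
    nlinarith
  have hδs : |s| * (δ * n + δ) ≤ 1 := by
    have h1 : |s| * (δ * n + δ) = |s| / (|s| + 1) := by
      rw [hδ]
      field_simp
    rw [h1, div_le_one (by positivity)]
    linarith
  set K : ℕ → Set (EuclideanSpace ℝ (Fin n)) := fun k => {w | ‖e - w‖ < δ / 2 ^ k} with hK
  have hKm : ∀ k, MeasurableSet (K k) := fun k => Pool.Agent.H789R2.FR.cap_meas _ _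
  refine ⟨min (c' * δ ^ (n - 1)) 1, by positivity, K, sJ i₀, hKm, fun k => ?_, fun k => ?_,
    fun k j hj => (sJ_prop i₀ k j hj).1, fun k j hj x hx => ?_⟩
  · have h2k : (0 : ℝ) < 2 ^ k := by positivity
    have h1 := hc' (δ / 2 ^ k) (by positivity)
      ((div_le_self hδ0.le (one_le_pow₀ (by norm_num))).trans hδ1) e hen
    refine le_trans ?_ h1
    have h2 : ((2 : ℝ) ^ k) ^ (-((n : ℝ) - 1)) = (((2 : ℝ) ^ k) ^ (n - 1))⁻¹ := by
      rw [Real.rpow_neg h2k.le]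
      congr 1
      rw [← Real.rpow_natCast (2 ^ k) (n - 1), Nat.cast_sub (by omega : 1 ≤ n), Nat.cast_one]
    rw [h2, div_pow δ]
    calc min (c' * δ ^ (n - 1)) 1 * (((2 : ℝ) ^ k) ^ (n - 1))⁻¹ ≤
          (c' * δ ^ (n - 1)) * (((2 : ℝ) ^ k) ^ (n - 1))⁻¹ :=
          mul_le_mul_of_nonneg_right (min_le_left _ _) (by positivity)
      _ = _ := by ring
  · rw [sJ_card i₀ k]
    exact mul_le_of_le_one_left (by positivity) (min_le_right _ _)
  · have hx2 := (sJ_prop i₀ k j hj).2 x hx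
    have h1 := phase_low ((sg n).restrict (K k)) (fun w => ⟪sS s w, x⟫)
      ((sS_meas s).inner measurable_const) ⟪sS s e, x⟫ (by
        rw [ae_restrict_iff' (hKm k)]
        filter_upwards [sg_ae n] with w hw hwK
        have hwK' : ‖e - w‖ < δ / 2 ^ k := hwK
        have h2k : (0 : ℝ) < 2 ^ k := by positivity
        have h2 : ⟪sS s w, x⟫ - ⟪sS s e, x⟫ = s * ∑ i, (w - e) i * x i := by
          unfold sS
          rw [← inner_sub_left, ← smul_sub, inner_smul_left]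
          simp only [conj_trivial]
          congr 1
          rw [PiLp.inner_apply]
          refine Finset.sum_congr rfl fun i _ => ?_
          rw [RCLike.inner_apply, conj_trivial, mul_comm]
        rw [h2, abs_mul]
        refine le_trans (mul_le_mul_of_nonneg_left ?_ (abs_nonneg s)) hδs
        have h3 : ‖w - e‖ ≤ δ / 2 ^ k := by rw [norm_sub_rev]; exact hwK'.le
        have h4 : (w - e) i₀ = -(‖w - e‖ ^ 2 / 2) := by
          have h5 : ‖w - e‖ ^ 2 = 2 - 2 * w i₀ := by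
            rw [@norm_sub_sq_real, hw, hen]
            have h6 : ⟪w, e⟫ = w i₀ := by
              rw [he, EuclideanSpace.inner_single_right]
              simp
            rw [h6]
            ring
          have h7 : (w - e) i₀ = w i₀ - 1 := by
            rw [PiLp.sub_apply, he, PiLp.single_apply, if_pos rfl]
          rw [h7, h5]
          ring
        have h8 : ∀ i ∈ (Finset.univ : Finset (Fin n)), |(w - e) i * x i| ≤
            δ + if i = i₀ then δ else 0 := by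
          intro i _
          rw [abs_mul]
          by_cases hi : i = i₀
          · rw [if_pos hi, hi, h4, abs_neg, abs_of_nonneg (by positivity)]
            have h9 : ‖w - e‖ ^ 2 ≤ (δ / 2 ^ k) ^ 2 := pow_le_pow_left₀ (norm_nonneg _) h3 2
            have h10 : (δ / 2 ^ k) ^ 2 * 4 ^ k = δ ^ 2 := by
              have : (4 : ℝ) ^ k = (2 ^ k) ^ 2 := by
                rw [← pow_mul, mul_comm k 2, pow_mul]; norm_num
              rw [this]
              field_simp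
            calc ‖w - e‖ ^ 2 / 2 * |x i₀| ≤ (δ / 2 ^ k) ^ 2 / 2 * 4 ^ k :=
                  mul_le_mul (by linarith) hx2.1 (abs_nonneg _) (by positivity)
              _ = δ ^ 2 / 2 := by rw [div_mul_eq_mul_div, h10]
              _ ≤ δ + δ := by nlinarith
          · rw [if_neg hi, add_zero]
            have h11 : |(w - e) i| ≤ δ / 2 ^ k := (PiLp.norm_apply_le (w - e) i).trans h3
            calc |(w - e) i| * |x i| ≤ (δ / 2 ^ k) * 2 ^ k :=
                  mul_le_mul h11 (hx2.2 i hi) (abs_nonneg _) (by positivity)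
              _ = δ := by field_simp
        refine (Finset.abs_sum_le_sum_abs _ _).trans ((Finset.sum_le_sum h8).trans (le_of_eq ?_))
        rw [Finset.sum_add_distrib, Finset.sum_const, Finset.card_univ, Fintype.card_fin,
          nsmul_eq_mul, Finset.sum_ite_eq' Finset.univ i₀ (fun _ => δ),
          if_pos (Finset.mem_univ _)]
        ring)
    refine le_trans (le_of_eq ?_) h1
    rw [Measure.real, Measure.real, Measure.restrict_apply_univ]

/-- **Unboundedness for the sphere**, if the density is decreasing and is not small enough. -/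
theorem sph_unbdd (hn : 2 ≤ n) (s : ℝ)
    {Ω : Type*} [MeasurableSpace Ω] (P : Measure Ω) [IsProbabilityMeasure P]
    (A : (Fin n → ℤ) → Set Ω) (hAm : ∀ j, MeasurableSet (A j)) (hind : iIndepSet A P)
    (W : ℝ → ℝ) (hW : AntitoneOn W (Ici 0)) (hW1 : ∀ r, 0 ≤ r → W r ≤ 1)
    (hp : ∀ j, ENNReal.ofReal (W ‖j‖) ≤ P (A j)) (q a : ℝ) (hq : 0 < q) (ha : 0 < a)
    (haq : 2 * a = (n : ℝ) + 1 - ((n : ℝ) - 1) * q / 2)
    (hno : ¬ ∃ C : ℝ, ∀ r, 1 ≤ r → W r ≤ C * r ^ (-a)) :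
    ∀ᵐ ω ∂P, ∀ C : ℝ≥0,
      ∃ f : EuclideanSpace ℝ (Fin n) → ℂ, MemLp f 2 (sg n) ∧ C * eLpNorm f 2 (sg n) ^ q <
        ∫⁻ x in ⋃ j ∈ {j | ω ∈ A j}, uq j, ‖∫ w, ex ⟪sS s w, x⟫ * f w ∂(sg n)‖ₑ ^ q := by
  have hnR : (2 : ℝ) ≤ n := by exact_mod_cast hn
  obtain ⟨c₀, hc₀, K, J, hKm, hK, hJc, hJn, hJx⟩ := sph_knapp hn s
  have hex : ∀ i : ℕ, ∃ k : ℕ, (2 : ℝ) ^ i * ((2 : ℝ) ^ k) ^ (-(2 * a)) ≤ W (2 * 4 ^ k) := by
    intro i
    by_contra hcon
    push Not at hcon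
    refine hno ⟨(2 : ℝ) ^ i * 8 ^ a, fun r hr => ?_⟩
    rcases lt_or_ge r 2 with h2 | h2
    · refine (hW1 r (by linarith)).trans ?_
      have h3 : (8 : ℝ) ^ a * r ^ (-a) = (8 / r) ^ a := by
        rw [Real.rpow_neg (by linarith), Real.div_rpow (by norm_num) (by linarith)]
        rfl
      have h4 : 1 ≤ (8 / r) ^ a := by
        refine Real.one_le_rpow ?_ ha.le
        rw [le_div_iff₀ (by linarith)]
        linarith
      have h5 : (1 : ℝ) ≤ 2 ^ i := one_le_pow₀ (by norm_num)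
      calc (1 : ℝ) = 1 * 1 := by norm_num
        _ ≤ 2 ^ i * (8 ^ a * r ^ (-a)) := by
            rw [h3]
            exact mul_le_mul h5 h4 (by norm_num) (by positivity)
        _ = _ := by ring
    · obtain ⟨k, hk1, hk2⟩ := exists_nat_pow_near (x := r / 2) (y := (4 : ℝ)) (by linarith)
        (by norm_num)
      have h6 : 2 * 4 ^ k ≤ r := by linarith
      have h7 : W r ≤ W (2 * 4 ^ k) :=
        hW (by simp only [mem_Ici]; positivity) (by simp only [mem_Ici]; linarith) h6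
      refine h7.trans ((hcon k).le.trans ?_)
      rw [mul_assoc]
      refine mul_le_mul_of_nonneg_left ?_ (by positivity)
      have h8 : ((2 : ℝ) ^ k) ^ (-(2 * a)) = (4 ^ k : ℝ) ^ (-a) := by
        have : (4 : ℝ) ^ k = ((2 : ℝ) ^ k) ^ (2 : ℝ) := by
          rw [Real.rpow_two, ← pow_mul, mul_comm k 2, pow_mul]; norm_num
        rw [this, ← Real.rpow_mul (by positivity)]
        congr 1
        ring
      rw [h8]
      have h9 : (4 ^ k : ℝ) ^ (-a) = 8 ^ a * (8 * 4 ^ k : ℝ) ^ (-a) := by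
        rw [Real.mul_rpow (by norm_num) (by positivity), ← mul_assoc,
          ← Real.rpow_add (by norm_num), add_neg_cancel, Real.rpow_zero, one_mul]
      rw [h9]
      refine mul_le_mul_of_nonneg_left ?_ (by positivity)
      refine Real.rpow_le_rpow_of_nonpos (by linarith) ?_ (by linarith)
      have h10 : (4 : ℝ) ^ (k + 1) = 4 * 4 ^ k := by ring
      rw [h10] at hk2
      linarith
  choose κ hκ using hex
  have h := knapp_gen (sg n) (sS s) K hKm J c₀ hc₀ hK hJc hJx P A hAm hind q hq (by linarith) κ (by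
    intro i j hj
    refine le_trans (ENNReal.ofReal_le_ofReal ?_) (hp j)
    rw [← haq]
    refine (hκ i).trans ?_
    have h1 := hJn (κ i) j hj
    exact hW (norm_nonneg j) (by simp only [mem_Ici]; positivity) (by linarith))
  exact h

end Pool.Agent.Helper70x.RS
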