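import Mathlib
import Pool.Agent.Helper70x.RS.Det
set_option autoImplicit false
set_option linter.unusedSectionVars false

/-! Weighted sums at the endpoint: tools. -/

namespace Pool.Agent.Helper70x.RS

open MeasureTheory Set
open scoped ENNReal NNReal

theorem geo_dist (ρ : ℝ) (h0 : 0 ≤ ρ) (h1 : ρ < 1) (I : Finset ℕ) (i : ℕ) :
    ∑ k ∈ I, ρ ^ (max i k - min i k) ≤ 2 / (1 - ρ) := by
  classical
  have hs : Summable fun n : ℕ => ρ ^ n := summable_geometric_of_lt_one h0 h1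
  have ht : ∑' n : ℕ, ρ ^ n = (1 - ρ)⁻¹ := tsum_geometric_of_lt_one h0 h1
  have h2 : ∑ k ∈ I.filter (fun k => k ≤ i), ρ ^ (max i k - min i k) ≤ (1 - ρ)⁻¹ := by
    rw [← ht]
    have hinj : Set.InjOn (fun k => i - k) (I.filter (fun k => k ≤ i) : Finset ℕ) := by
      intro a ha b hb hab
      rw [Finset.mem_coe, Finset.mem_filter] at ha hb
      simp only at hab
      omega
    calc ∑ k ∈ I.filter (fun k => k ≤ i), ρ ^ (max i k - min i k)
        = ∑ k ∈ I.filter (fun k => k ≤ i), ρ ^ (i - k) := by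
          refine Finset.sum_congr rfl fun k hk => ?_
          rw [Finset.mem_filter] at hk
          rw [max_eq_left hk.2, min_eq_right hk.2]
      _ = ∑ n ∈ (I.filter (fun k => k ≤ i)).image (fun k => i - k), ρ ^ n :=
          (Finset.sum_image hinj).symm
      _ ≤ _ := hs.sum_le_tsum _ fun n _ => pow_nonneg h0 n
  have h3 : ∑ k ∈ I.filter (fun k => ¬ k ≤ i), ρ ^ (max i k - min i k) ≤ (1 - ρ)⁻¹ := by
    rw [← ht]
    have hinj : Set.InjOn (fun k => k - i) (I.filter (fun k => ¬ k ≤ i) : Finset ℕ) := by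
      intro a ha b hb hab
      rw [Finset.mem_coe, Finset.mem_filter] at ha hb
      simp only at hab
      omega
    calc ∑ k ∈ I.filter (fun k => ¬ k ≤ i), ρ ^ (max i k - min i k)
        = ∑ k ∈ I.filter (fun k => ¬ k ≤ i), ρ ^ (k - i) := by
          refine Finset.sum_congr rfl fun k hk => ?_
          rw [Finset.mem_filter] at hk
          have : i ≤ k := by omega
          rw [max_eq_right this, min_eq_left this]
      _ = ∑ n ∈ (I.filter (fun k => ¬ k ≤ i)).image (fun k => k - i), ρ ^ n :=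
          (Finset.sum_image hinj).symm
      _ ≤ _ := hs.sum_le_tsum _ fun n _ => pow_nonneg h0 n
  rw [← Finset.sum_filter_add_sum_filter_not I (fun k => k ≤ i)]
  have e : 2 / (1 - ρ) = (1 - ρ)⁻¹ + (1 - ρ)⁻¹ := by ring
  rw [e]
  exact add_le_add h2 h3

theorem near_card (M : ℕ) (I : Finset ℕ) (i : ℕ) :
    ((I.filter fun k => max i k - min i k < M).card : ℝ) ≤ 2 * M := by
  have h1 : I.filter (fun k => max i k - min i k < M) ⊆ Finset.Ico (i + 1 - M) (i + M) := by
    intro k hk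
    rw [Finset.mem_filter] at hk
    rw [Finset.mem_Ico]
    have := hk.2
    omega
  have h2 := Finset.card_le_card h1
  rw [Nat.card_Ico] at h2
  have h3 : (I.filter fun k => max i k - min i k < M).card ≤ 2 * M := by omega
  exact_mod_cast h3

/-- a form of Schur's lemma -/
theorem schur_sum (I : Finset ℕ) (x : ℕ → ℝ) (hx : ∀ i, 0 ≤ x i) (G : ℕ → ℕ → ℝ) (D : ℝ)
    (hD : 0 ≤ D) (M : ℕ) (ρ : ℝ) (h0 : 0 ≤ ρ) (h1 : ρ < 1)
    (hG : ∀ i ∈ I, ∀ k ∈ I, G i k ≤
      D * (x i + x k) * if max i k - min i k < M then 1 else ρ ^ (max i k - min i k)) :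
    ∑ i ∈ I, ∑ k ∈ I, G i k ≤ D * (4 * M + 4 / (1 - ρ)) * ∑ i ∈ I, x i := by
  classical
  set w : ℕ → ℕ → ℝ := fun i k => if max i k - min i k < M then 1 else ρ ^ (max i k - min i k)
    with hw
  have hsymm : ∀ i k, w i k = w k i := fun i k => by simp only [hw, max_comm, min_comm]
  have hrow : ∀ i, ∑ k ∈ I, w i k ≤ 2 * M + 2 / (1 - ρ) := by
    intro i
    have h2 : ∀ k ∈ I, w i k ≤ (if max i k - min i k < M then 1 else 0) +
        ρ ^ (max i k - min i k) := by
      intro k _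
      simp only [hw]
      have := pow_nonneg h0 (max i k - min i k)
      split_ifs <;> linarith
    refine (Finset.sum_le_sum h2).trans ?_
    rw [Finset.sum_add_distrib, ← Finset.sum_filter, Finset.sum_const, nsmul_eq_mul, mul_one]
    exact add_le_add (near_card M I i) (geo_dist ρ h0 h1 I i)
  calc ∑ i ∈ I, ∑ k ∈ I, G i k ≤ ∑ i ∈ I, ∑ k ∈ I, (D * x i * w i k + D * x k * w i k) := by
        refine Finset.sum_le_sum fun i hi => Finset.sum_le_sum fun k hk => ?_
        refine (hG i hi k hk).trans (le_of_eq ?_)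
        simp only [hw]
        ring
    _ = ∑ i ∈ I, D * x i * ∑ k ∈ I, w i k + ∑ k ∈ I, D * x k * ∑ i ∈ I, w i k := by
        simp_rw [Finset.sum_add_distrib]
        congr 1
        · exact Finset.sum_congr rfl fun i _ => (Finset.mul_sum _ _ _).symm
        · rw [Finset.sum_comm]
          exact Finset.sum_congr rfl fun i _ => (Finset.mul_sum _ _ _).symm
    _ = 2 * ∑ i ∈ I, D * x i * ∑ k ∈ I, w i k := by
        rw [two_mul]
        congr 1
        refine Finset.sum_congr rfl fun k _ => ?_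
        congr 1
        exact Finset.sum_congr rfl fun i _ => hsymm i k
    _ ≤ 2 * ∑ i ∈ I, D * x i * (2 * M + 2 / (1 - ρ)) := by
        refine mul_le_mul_of_nonneg_left (Finset.sum_le_sum fun i _ => ?_) (by norm_num)
        exact mul_le_mul_of_nonneg_left (hrow i) (mul_nonneg hD (hx i))
    _ = _ := by
        rw [← Finset.sum_mul, ← Finset.mul_sum]
        ring

variable {H : Type*} [NormedAddCommGroup H] [InnerProductSpace ℂ H]

/-- the duality argument -/
theorem sq_trick (I : Finset ℕ) (x : ℕ → ℝ) (hx : ∀ i, 0 ≤ x i) (w : ℕ → H) (f : H)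
    (hf : ‖f‖ ≤ 1) (hw : ∀ i ∈ I, x i ≤ 2 * ‖inner ℂ (w i) f‖) (D : ℝ)
    (hD : 0 ≤ D) (M : ℕ) (ρ : ℝ) (h0 : 0 ≤ ρ) (h1 : ρ < 1)
    (hG : ∀ i ∈ I, ∀ k ∈ I, ‖inner ℂ (w i) (w k)‖ ≤
      D * (x i + x k) * if max i k - min i k < M then 1 else ρ ^ (max i k - min i k)) :
    ∑ i ∈ I, x i ≤ 4 * (D * (4 * M + 4 / (1 - ρ))) := by
  set S : ℝ := ∑ i ∈ I, x i with hS
  have hS0 : 0 ≤ S := Finset.sum_nonneg fun i _ => hx i
  have h2 := dual_sq I w f hf
  have h3 := schur_sum I x hx (fun i k => ‖inner ℂ (w i) (w k)‖) D hD M ρ h0 h1 hG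
  have h4 : S ≤ 2 * ∑ i ∈ I, ‖inner ℂ (w i) f‖ := by
    rw [Finset.mul_sum]
    exact Finset.sum_le_sum hw
  have h5 : S ^ 2 ≤ 4 * (D * (4 * M + 4 / (1 - ρ)) * S) := by
    calc S ^ 2 ≤ (2 * ∑ i ∈ I, ‖inner ℂ (w i) f‖) ^ 2 := pow_le_pow_left₀ hS0 h4 2
      _ = 4 * (∑ i ∈ I, ‖inner ℂ (w i) f‖) ^ 2 := by ring
      _ ≤ _ := mul_le_mul_of_nonneg_left (h2.trans h3) (by norm_num)
  rcases hS0.eq_or_lt with h | h
  · rw [← h]
    have : 0 < 1 - ρ := by linarith
    positivity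
  · have h6 : S * S ≤ (4 * (D * (4 * M + 4 / (1 - ρ)))) * S := by nlinarith
    exact le_of_mul_le_mul_right h6 h

variable {d : ℕ}

/-- sums over a set in terms of the counting estimate -/
theorem sum_of_count {α : Type*} (E : Finset α) (h : α → ℝ) (h1 : ∀ j ∈ E, h j ≤ 1)
    (q C : ℝ) (hq : 2 < q) (hC : 1 ≤ C)
    (hc : ∀ lam : ℝ, 0 < lam → lam ≤ 1 → ∀ J ⊆ E, (∀ j ∈ J, lam ≤ h j) →
      (J.card : ℝ) ≤ C * lam ^ (-q)) :
    ∑ j ∈ E, h j ≤ (2 + C * 2 ^ q * (2 : ℝ) ^ q) * (E.card : ℝ) ^ (1 - 1 / q) := by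
  classical
  have hq0 : 0 < q := by linarith
  rcases E.eq_empty_or_nonempty with h0 | hne
  · rw [h0]
    simp only [Finset.sum_empty, Finset.card_empty]
    positivity
  set N : ℝ := (E.card : ℝ) with hN
  have hN1 : 1 ≤ N := by
    rw [hN]
    exact_mod_cast hne.card_pos
  have hN0 : 0 < N := by linarith
  obtain ⟨K, hK1, hK2⟩ := exists_nat_pow_near (x := N ^ (1 / q)) (y := (2 : ℝ))
    (Real.one_le_rpow hN1 (by positivity)) (by norm_num)
  -- pointwise
  have hpt : ∀ j ∈ E, h j ≤ (1 / 2) ^ K +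
      ∑ l ∈ Finset.range K, (1 / 2) ^ l * (if (1 / 2) ^ (l + 1) < h j then 1 else 0) := by
    intro j hj
    have hnn : ∀ l ∈ Finset.range K, 0 ≤ (1 / 2 : ℝ) ^ l *
        (if (1 / 2 : ℝ) ^ (l + 1) < h j then 1 else 0) := fun l _ => by
      split_ifs <;> positivity
    rcases le_or_gt (h j) ((1 / 2) ^ K) with hle | hgt
    · exact hle.trans (le_add_of_nonneg_right (Finset.sum_nonneg hnn))
    · have hpos : 0 < h j := lt_trans (by positivity) hgt
      obtain ⟨l, hl1, hl2⟩ := exists_nat_pow_near_of_lt_one hpos (h1 j hj) (y := 1 / 2)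
        (by norm_num) (by norm_num)
      have hlK : l < K := by
        by_contra hcon
        push Not at hcon
        have : (1 / 2 : ℝ) ^ l ≤ (1 / 2) ^ K :=
          pow_le_pow_of_le_one (by norm_num) (by norm_num) hcon
        linarith
      have h2 := Finset.single_le_sum hnn (Finset.mem_range.2 hlK)
      rw [if_pos hl1, mul_one] at h2
      have h3 : (0 : ℝ) < (1 / 2) ^ K := by positivity
      linarith
  have hlev : ∀ l ∈ Finset.range K, (1 / 2 : ℝ) ^ l *
      ((E.filter fun j => (1 / 2 : ℝ) ^ (l + 1) < h j).card : ℝ) ≤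
      C * 2 ^ q * (2 : ℝ) ^ ((q - 1) * l) := by
    intro l _
    have h2 := hc ((1 / 2) ^ (l + 1)) (by positivity) (pow_le_one₀ (by norm_num) (by norm_num))
      (E.filter fun j => (1 / 2 : ℝ) ^ (l + 1) < h j) (Finset.filter_subset _ _)
      (fun j hj => (Finset.mem_filter.1 hj).2.le)
    have h3 : ((1 / 2 : ℝ) ^ (l + 1)) ^ (-q) = 2 ^ q * (2 : ℝ) ^ (q * l) := by
      rw [one_div_pow, one_div, ← Real.rpow_natCast, ← Real.rpow_neg (by norm_num),
        ← Real.rpow_mul (by norm_num), ← Real.rpow_add (by norm_num)]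
      congr 1
      push_cast
      ring
    rw [h3] at h2
    calc (1 / 2 : ℝ) ^ l * ((E.filter fun j => (1 / 2 : ℝ) ^ (l + 1) < h j).card : ℝ)
        ≤ (1 / 2 : ℝ) ^ l * (C * (2 ^ q * (2 : ℝ) ^ (q * l))) :=
          mul_le_mul_of_nonneg_left h2 (by positivity)
      _ = C * 2 ^ q * (2 : ℝ) ^ ((q - 1) * l) := by
          have h4 : (1 / 2 : ℝ) ^ l = (2 : ℝ) ^ (-(l : ℝ)) := by
            rw [one_div_pow, one_div, Real.rpow_neg (by norm_num), Real.rpow_natCast]
          rw [h4]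
          have h5 : (2 : ℝ) ^ ((q - 1) * l) = (2 : ℝ) ^ (-(l : ℝ)) * (2 : ℝ) ^ (q * l) := by
            rw [← Real.rpow_add (by norm_num)]
            congr 1
            ring
          rw [h5]
          ring
  have hgeo : ∑ l ∈ Finset.range K, (2 : ℝ) ^ ((q - 1) * l) ≤ (2 : ℝ) ^ ((q - 1) * K) := by
    clear hlev hpt hK1 hK2
    induction K with
    | zero => simp
    | succ K ih =>
      rw [Finset.sum_range_succ]
      have h2 : (2 : ℝ) ^ ((q - 1) * ((K + 1 : ℕ) : ℝ)) =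
          (2 : ℝ) ^ ((q - 1) * K) * (2 : ℝ) ^ (q - 1) := by
        rw [← Real.rpow_add (by norm_num)]
        congr 1
        push_cast
        ring
      have h3 : (2 : ℝ) ≤ (2 : ℝ) ^ (q - 1) := by
        calc (2 : ℝ) = (2 : ℝ) ^ (1 : ℝ) := (Real.rpow_one 2).symm
          _ ≤ _ := Real.rpow_le_rpow_of_exponent_le (by norm_num) (by linarith)
      rw [h2]
      have h4 : 0 < (2 : ℝ) ^ ((q - 1) * (K : ℝ)) := by positivity
      nlinarith
  have hKN : (2 : ℝ) ^ ((q - 1) * K) ≤ N ^ (1 - 1 / q) := by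
    calc (2 : ℝ) ^ ((q - 1) * K) = ((2 : ℝ) ^ K) ^ (q - 1) := by
          rw [← Real.rpow_natCast, ← Real.rpow_mul (by norm_num)]
          congr 1
          ring
      _ ≤ (N ^ (1 / q)) ^ (q - 1) := Real.rpow_le_rpow (by positivity) hK1 (by linarith)
      _ = _ := by
          rw [← Real.rpow_mul hN0.le]
          congr 1
          field_simp
  have hNK : N * (1 / 2) ^ K ≤ 2 * N ^ (1 - 1 / q) := by
    have h2 : (1 / 2 : ℝ) ^ K ≤ 2 * (N ^ (1 / q))⁻¹ := by
      rw [one_div_pow, one_div, ← div_eq_mul_inv, le_div_iff₀ (by positivity),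
        inv_mul_le_iff₀ (by positivity)]
      rw [pow_succ] at hK2
      linarith
    calc N * (1 / 2) ^ K ≤ N * (2 * (N ^ (1 / q))⁻¹) := mul_le_mul_of_nonneg_left h2 hN0.le
      _ = 2 * (N ^ (1 : ℝ) * N ^ (-(1 / q))) := by
          rw [Real.rpow_one, Real.rpow_neg hN0.le]
          ring
      _ = _ := by
          rw [← Real.rpow_add hN0]
          congr 2
  calc ∑ j ∈ E, h j ≤ ∑ j ∈ E, ((1 / 2) ^ K +
        ∑ l ∈ Finset.range K, (1 / 2) ^ l * (if (1 / 2) ^ (l + 1) < h j then 1 else 0)) :=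
        Finset.sum_le_sum hpt
    _ = N * (1 / 2) ^ K + ∑ l ∈ Finset.range K, (1 / 2 : ℝ) ^ l *
        ((E.filter fun j => (1 / 2 : ℝ) ^ (l + 1) < h j).card : ℝ) := by
        rw [Finset.sum_add_distrib, Finset.sum_const, nsmul_eq_mul, Finset.sum_comm]
        congr 1
        refine Finset.sum_congr rfl fun l _ => ?_
        rw [← Finset.mul_sum, ← Finset.sum_filter, Finset.sum_const, nsmul_eq_mul, mul_one]
    _ ≤ 2 * N ^ (1 - 1 / q) + ∑ l ∈ Finset.range K, C * 2 ^ q * (2 : ℝ) ^ ((q - 1) * l) :=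
        add_le_add hNK (Finset.sum_le_sum hlev)
    _ ≤ 2 * N ^ (1 - 1 / q) + C * 2 ^ q * N ^ (1 - 1 / q) := by
        rw [← Finset.mul_sum]
        gcongr
        exact hgeo.trans hKN
    _ ≤ _ := by
        have h2 : 0 ≤ N ^ (1 - 1 / q) := by positivity
        have h3 : (1 : ℝ) ≤ (2 : ℝ) ^ q := Real.one_le_rpow (by norm_num) (by linarith)
        have h4 : C * 2 ^ q * 1 ≤ C * 2 ^ q * (2 : ℝ) ^ q :=
          mul_le_mul_of_nonneg_left h3 (by positivity)
        nlinarith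

end Pool.Agent.Helper70x.RS
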