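import Mathlib
import Pool.Agent.N248.RR.G
import Pool.Agent.Helper70x.RS.W1
set_option autoImplicit false
set_option linter.unusedSectionVars false

/-! Weighted sums at the endpoint: the sets of the points of given norm and level. -/

namespace Pool.Agent.Helper70x.RS

open MeasureTheory Set
open Pool.Agent.N248.RR (Ann Ann_finite dual_norm)
open scoped ENNReal NNReal

variable {H : Type*} [NormedAddCommGroup H] [InnerProductSpace ℂ H] {d : ℕ}

/-- vectors with decay of order `β` and energy estimates for cubes; the last property is the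
restricted weak type estimate of Stein and Tomas -/
structure EVecs (φ : (Fin d → ℤ) → H) (L β : ℝ) : Prop where
  v : Vecs φ L β
  en : ∀ (f : H) (τ : ℕ), 1 ≤ τ → ∀ (J : Finset (Fin d → ℤ)) (s : Fin d → ℤ),
    (∀ j ∈ J, ∀ t, s t ≤ j t ∧ j t < s t + τ) →
    ∑ j ∈ J, ‖inner ℂ (φ j) f‖ ^ 2 ≤ L * τ * ‖f‖ ^ 2
  st : ∀ f : H, ‖f‖ ≤ 1 → ∀ lam : ℝ, 0 < lam → lam ≤ 1 → ∀ J : Finset (Fin d → ℤ),
    (∀ j ∈ J, lam ≤ ‖inner ℂ (φ j) f‖) → (J.card : ℝ) ≤ L * lam ^ (-(2 + 2 / β))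

/-- the dual estimate -/
theorem stdual {φ : (Fin d → ℤ) → H} {L β : ℝ} (hφ : EVecs φ L β) (E : Finset (Fin d → ℤ))
    (s : (Fin d → ℤ) → ℂ) (hs : ∀ j ∈ E, ‖s j‖ ≤ 1) :
    ‖∑ j ∈ E, s j • φ j‖ ≤ (2 + L * 2 ^ (2 + 2 / β) * (2 : ℝ) ^ (2 + 2 / β)) *
      (E.card : ℝ) ^ (1 - 1 / (2 + 2 / β)) := by
  have hL := hφ.v.L1
  have hβ := hφ.v.g0
  set v : H := ∑ j ∈ E, s j • φ j with hv
  rcases (norm_nonneg v).eq_or_lt with h0 | h0
  · rw [← h0]; positivity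
  set g : H := ((‖v‖⁻¹ : ℝ) : ℂ) • v with hg
  have hg1 : ‖g‖ ≤ 1 := by
    rw [hg, norm_smul, Complex.norm_real, norm_inv, norm_norm, inv_mul_cancel₀ h0.ne']
  have hvg : ∀ j, ‖inner ℂ (φ j) v‖ = ‖v‖ * ‖inner ℂ (φ j) g‖ := by
    intro j
    rw [hg, inner_smul_right, norm_mul, Complex.norm_real, norm_inv, norm_norm, ← mul_assoc,
      mul_inv_cancel₀ h0.ne', one_mul]
  have h1 : ‖v‖ ^ 2 ≤ ∑ j ∈ E, ‖inner ℂ (φ j) v‖ := by
    have h2 : ‖v‖ ^ 2 = ‖inner ℂ v v‖ := by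
      rw [inner_self_eq_norm_sq_to_K]; simp
    rw [h2]
    conv_lhs => rw [show inner ℂ v v = inner ℂ (∑ j ∈ E, s j • φ j) v by rw [← hv]]
    rw [sum_inner]
    refine (norm_sum_le _ _).trans (Finset.sum_le_sum fun i hi => ?_)
    rw [inner_smul_left, norm_mul, RCLike.norm_conj]
    exact mul_le_of_le_one_left (norm_nonneg _) (hs i hi)
  have h3 : ‖v‖ ≤ ∑ j ∈ E, ‖inner ℂ (φ j) g‖ := by
    simp_rw [hvg] at h1
    rw [← Finset.mul_sum, sq] at h1
    exact le_of_mul_le_mul_left h1 h0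
  refine h3.trans (sum_of_count E (fun j => ‖inner ℂ (φ j) g‖) (fun j _ => ?_) (2 + 2 / β) L
    (by have : 0 < 2 / β := by positivity
        linarith) hL fun lam hl0 hl1 J _ hJ => hφ.st g hg1 lam hl0 hl1 J hJ)
  exact (norm_inner_le_norm _ _).trans (mul_le_one₀ (hφ.v.bd j) (norm_nonneg _) hg1)

open scoped Classical in
/-- the points in the annulus `i` where `|⟨φ, f⟩|` is about `2^(-l)` -/
noncomputable def TT (φ : (Fin d → ℤ) → H) (f : H) (i l : ℕ) : Finset (Fin d → ℤ) :=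
  (Ann_finite (d := d) i).toFinset.filter fun j =>
    (1 / 2 : ℝ) ^ (l + 1) < ‖inner ℂ (φ j) f‖ ∧ ‖inner ℂ (φ j) f‖ ≤ (1 / 2) ^ l

/-- the phases -/
noncomputable def sgn (φ : (Fin d → ℤ) → H) (f : H) (j : Fin d → ℤ) : ℂ :=
  inner ℂ (φ j) f / (‖inner ℂ (φ j) f‖ : ℂ)

theorem sgn_le (φ : (Fin d → ℤ) → H) (f : H) (j : Fin d → ℤ) : ‖sgn φ f j‖ ≤ 1 := by
  unfold sgn
  rw [norm_div, Complex.norm_real, norm_norm]
  exact div_self_le_one _

/-- the test vector -/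
noncomputable def vv (φ : (Fin d → ℤ) → H) (f : H) (i l : ℕ) : H :=
  ∑ j ∈ TT φ f i l, sgn φ f j • φ j

theorem vv_inner (φ : (Fin d → ℤ) → H) (f : H) (i l : ℕ) :
    inner ℂ (vv φ f i l) f = ((∑ j ∈ TT φ f i l, ‖inner ℂ (φ j) f‖ : ℝ) : ℂ) := by
  unfold vv
  rw [sum_inner]
  push_cast
  refine Finset.sum_congr rfl fun i _ => ?_
  rw [inner_smul_left]
  unfold sgn
  rw [map_div₀, Complex.conj_ofReal, div_mul_eq_mul_div, Complex.conj_mul']
  by_cases h0 : ‖inner ℂ (φ i) f‖ = 0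
  · rw [h0]; simp
  · have : (‖inner ℂ (φ i) f‖ : ℂ) ≠ 0 := by exact_mod_cast h0
    field_simp

theorem vv_low (φ : (Fin d → ℤ) → H) (f : H) (i l : ℕ) :
    (1 / 2) ^ (l + 1) * ((TT φ f i l).card : ℝ) ≤ ‖inner ℂ (vv φ f i l) f‖ := by
  rw [vv_inner, Complex.norm_real, Real.norm_of_nonneg (Finset.sum_nonneg fun _ _ => norm_nonneg _),
    mul_comm, ← nsmul_eq_mul, ← Finset.sum_const]
  refine Finset.sum_le_sum fun j hj => ?_
  unfold TT at hj
  rw [Finset.mem_filter] at hj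
  exact hj.2.1.le

theorem TT_box (φ : (Fin d → ℤ) → H) (f : H) (i l : ℕ) (j : Fin d → ℤ) (hj : j ∈ TT φ f i l)
    (t : Fin d) : -(2 ^ (i + 1) : ℤ) ≤ j t ∧ j t < -(2 ^ (i + 1) : ℤ) + (2 ^ (i + 2) : ℕ) := by
  unfold TT at hj
  rw [Finset.mem_filter, Set.Finite.mem_toFinset] at hj
  have h1 := hj.1.2
  have h2 := Pool.Agent.N248.RR.abs_coord j t
  have h3 : |(j t : ℝ)| < 2 ^ (i + 1) := by linarith
  rw [abs_lt] at h3
  constructor
  · have : (((-(2 ^ (i + 1) : ℤ)) : ℤ) : ℝ) ≤ ((j t : ℤ) : ℝ) := by push_cast; linarith [h3.1]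
    exact_mod_cast this
  · have : ((j t : ℤ) : ℝ) < (((-(2 ^ (i + 1) : ℤ) + (2 ^ (i + 2) : ℕ)) : ℤ) : ℝ) := by
      push_cast
      rw [pow_succ (2 : ℝ) (i + 1)]
      linarith [h3.2]
    exact_mod_cast this

variable {φ : (Fin d → ℤ) → H} {L β : ℝ}

/-- the first estimate for the number of points -/
theorem TT_card1 (hφ : EVecs φ L β) (f : H) (hf : ‖f‖ ≤ 1) (i l : ℕ) :
    ((TT φ f i l).card : ℝ) ≤ 16 * L * (2 : ℝ) ^ ((i : ℝ) + 2 * l) := by
  have hL := hφ.v.L1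
  have h1 := hφ.en f (2 ^ (i + 2)) Nat.one_le_two_pow (TT φ f i l) (fun _ => -(2 ^ (i + 1) : ℤ))
    fun j hj t => TT_box φ f i l j hj t
  have h2 : ((TT φ f i l).card : ℝ) * ((1 / 2) ^ (l + 1)) ^ 2 ≤
      ∑ j ∈ TT φ f i l, ‖inner ℂ (φ j) f‖ ^ 2 := by
    rw [← nsmul_eq_mul, ← Finset.sum_const]
    refine Finset.sum_le_sum fun j hj => ?_
    unfold TT at hj
    rw [Finset.mem_filter] at hj
    exact pow_le_pow_left₀ (by positivity) hj.2.1.le 2
  have h3 : L * ((2 ^ (i + 2) : ℕ) : ℝ) * ‖f‖ ^ 2 ≤ L * (4 * 2 ^ i) := by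
    have h4 : ‖f‖ ^ 2 ≤ 1 := pow_le_one₀ (norm_nonneg _) hf
    have e : ((2 ^ (i + 2) : ℕ) : ℝ) = 4 * 2 ^ i := by push_cast; ring
    rw [e]
    exact mul_le_of_le_one_right (by positivity) h4
  have h5 := h2.trans (h1.trans h3)
  have e2 : ((1 / 2 : ℝ) ^ (l + 1)) ^ 2 = 1 / (4 * 4 ^ l) := by
    have e : ((1 / 2 : ℝ) ^ (l + 1)) ^ 2 = (1 / 4) ^ (l + 1) := by
      rw [← pow_mul, mul_comm, pow_mul]
      norm_num
    rw [e, one_div_pow, pow_succ, mul_comm ((4 : ℝ) ^ l)]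
  rw [e2, mul_one_div, div_le_iff₀ (by positivity)] at h5
  have e3 : (2 : ℝ) ^ ((i : ℝ) + 2 * l) = 2 ^ i * 4 ^ l := by
    rw [Real.rpow_add (by norm_num), Real.rpow_natCast, Real.rpow_mul (by norm_num),
      Real.rpow_natCast]
    norm_num
  rw [e3]
  linarith

/-- the second estimate -/
theorem TT_card2 (hφ : EVecs φ L β) (f : H) (hf : ‖f‖ ≤ 1) (i l : ℕ) :
    ((TT φ f i l).card : ℝ) ≤ L * (2 : ℝ) ^ ((2 + 2 / β) * (l + 1)) := by
  have h1 := hφ.st f hf ((1 / 2) ^ (l + 1)) (by positivity)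
    (pow_le_one₀ (by norm_num) (by norm_num)) (TT φ f i l) (fun j hj => by
      unfold TT at hj
      rw [Finset.mem_filter] at hj
      exact hj.2.1.le)
  refine h1.trans (le_of_eq ?_)
  rw [one_div_pow, one_div, ← Real.rpow_natCast, ← Real.rpow_neg (by norm_num),
    ← Real.rpow_mul (by norm_num)]
  congr 2
  push_cast
  ring

theorem vv_norm1 (hφ : EVecs φ L β) (f : H) (i l : ℕ) :
    ‖vv φ f i l‖ ^ 2 ≤ 4 * L * (2 : ℝ) ^ (i : ℝ) * ((TT φ f i l).card : ℝ) := by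
  have hL := hφ.v.L1
  have h1 := dual_norm (TT φ f i l) φ (sgn φ f) (fun j _ => sgn_le φ f j)
    (L * ((2 ^ (i + 2) : ℕ) : ℝ)) (by positivity)
    (fun g => hφ.en g (2 ^ (i + 2)) Nat.one_le_two_pow (TT φ f i l) (fun _ => -(2 ^ (i + 1) : ℤ))
      fun j hj t => TT_box φ f i l j hj t)
  refine h1.trans (le_of_eq ?_)
  rw [Real.rpow_natCast]
  push_cast
  ring

theorem vv_norm2 (hφ : EVecs φ L β) (f : H) (i l : ℕ) :
    ‖vv φ f i l‖ ^ 2 ≤ (2 + L * 2 ^ (2 + 2 / β) * (2 : ℝ) ^ (2 + 2 / β)) ^ 2 *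
      (((TT φ f i l).card : ℝ) * ((TT φ f i l).card : ℝ) ^ (1 - 2 / (2 + 2 / β))) := by
  have hL := hφ.v.L1
  have hβ := hφ.v.g0
  have h1 := stdual hφ (TT φ f i l) (sgn φ f) fun j _ => sgn_le φ f j
  have h2 := pow_le_pow_left₀ (norm_nonneg _) h1 2
  refine h2.trans ?_
  rw [mul_pow]
  refine mul_le_mul_of_nonneg_left (le_of_eq ?_) (by positivity)
  rcases (TT φ f i l).eq_empty_or_nonempty with h0 | hne
  · rw [h0]
    simp only [Finset.card_empty, Nat.cast_zero, zero_mul]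
    rw [Real.zero_rpow]
    · norm_num
    · have h3 : 0 < 2 / β := by positivity
      have h4 : 1 / (2 + 2 / β) < 1 := by
        rw [div_lt_one (by linarith)]
        linarith
      linarith
  · have hN : (0 : ℝ) < (TT φ f i l).card := by exact_mod_cast hne.card_pos
    rw [← Real.rpow_natCast, ← Real.rpow_mul hN.le]
    conv_rhs => rw [← Real.rpow_one ((TT φ f i l).card : ℝ)]
    rw [Real.rpow_one, ← Real.rpow_one_add' hN.le]
    · congr 1
      push_cast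
      ring
    · have h3 : 0 < 2 / β := by positivity
      have h4 : 2 / (2 + 2 / β) < 1 := by
        rw [div_lt_one (by linarith)]
        linarith
      linarith

theorem vv_far (hφ : EVecs φ L β) (f : H) (i l i' l' : ℕ) (h : i + 2 ≤ i') :
    ‖inner ℂ (vv φ f i l) (vv φ f i' l')‖ ≤
      L * (2 : ℝ) ^ (-(β * ((i' : ℝ) - 1))) * ((TT φ f i l).card * (TT φ f i' l').card) := by
  have hL := hφ.v.L1
  have hβ := hφ.v.g0
  unfold vv
  rw [sum_inner]
  have h1 : ∀ j ∈ TT φ f i l, ‖inner ℂ (sgn φ f j • φ j) (∑ k ∈ TT φ f i' l', sgn φ f k • φ k)‖ ≤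
      (TT φ f i' l').card * (L * (2 : ℝ) ^ (-(β * ((i' : ℝ) - 1)))) := by
    intro j hj
    rw [inner_sum]
    refine (norm_sum_le _ _).trans ?_
    rw [← nsmul_eq_mul, ← Finset.sum_const]
    refine Finset.sum_le_sum fun k hk => ?_
    rw [inner_smul_left, inner_smul_right, norm_mul, norm_mul, RCLike.norm_conj]
    have h2 : ‖inner ℂ (φ j) (φ k)‖ ≤ L * (2 : ℝ) ^ (-(β * ((i' : ℝ) - 1))) := by
      unfold TT at hj hk
      rw [Finset.mem_filter, Set.Finite.mem_toFinset] at hj hk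
      have h3 := hj.1.2
      have h4 := hk.1.1
      have h5 : (2 : ℝ) ^ ((i' : ℝ) - 1) ≤ ‖j - k‖ := by
        have h6 : ‖k‖ ≤ ‖j‖ + ‖j - k‖ := by
          have : k = j - (j - k) := by abel
          calc ‖k‖ = ‖j - (j - k)‖ := by rw [← this]
            _ ≤ _ := norm_sub_le _ _
        have h7 : (2 : ℝ) ^ (i + 1) ≤ 2 ^ i' / 2 := by
          rw [le_div_iff₀ (by norm_num), ← pow_succ]
          exact pow_le_pow_right₀ (by norm_num) h
        have h8 : (2 : ℝ) ^ ((i' : ℝ) - 1) = 2 ^ i' / 2 := by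
          rw [Real.rpow_sub (by norm_num), Real.rpow_natCast, Real.rpow_one]
        rw [h8]
        linarith
      have h9 : j ≠ k := by
        rintro rfl
        rw [sub_self, norm_zero] at h5
        have : (0 : ℝ) < (2 : ℝ) ^ ((i' : ℝ) - 1) := by positivity
        linarith
      refine (hφ.v.dec j k h9).trans (mul_le_mul_of_nonneg_left ?_ (by linarith))
      calc ‖j - k‖ ^ (-β) ≤ ((2 : ℝ) ^ ((i' : ℝ) - 1)) ^ (-β) :=
            Real.rpow_le_rpow_of_nonpos (by positivity) h5 (by linarith)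
        _ = _ := by
            rw [← Real.rpow_mul (by norm_num)]
            congr 1
            ring
    have h10 : ‖sgn φ f j‖ * (‖sgn φ f k‖ * ‖inner ℂ (φ j) (φ k)‖) ≤ ‖inner ℂ (φ j) (φ k)‖ := by
      have a1 := sgn_le φ f j
      have a2 := sgn_le φ f k
      calc ‖sgn φ f j‖ * (‖sgn φ f k‖ * ‖inner ℂ (φ j) (φ k)‖) ≤
            1 * (1 * ‖inner ℂ (φ j) (φ k)‖) := by gcongr
        _ = _ := by ring
    exact h10.trans h2
  refine (norm_sum_le _ _).trans ((Finset.sum_le_sum h1).trans (le_of_eq ?_))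
  rw [Finset.sum_const, nsmul_eq_mul]
  ring

end Pool.Agent.Helper70x.RS
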