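import Mathlib
import Pool.Agent.Helper70x.RS.W2
set_option autoImplicit false
set_option linter.unusedSectionVars false

/-! Weighted sums at the endpoint: the sum over the diagonals. -/

namespace Pool.Agent.Helper70x.RS

open MeasureTheory Set
open Pool.Agent.N248.RR (Ann Ann_finite exists_ann)
open scoped ENNReal NNReal

variable {H : Type*} [NormedAddCommGroup H] [InnerProductSpace ℂ H] {d : ℕ}

/-- the endpoint exponent -/
noncomputable def qe (a β : ℝ) : ℝ := 2 + 2 * (1 - a) / β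

/-- the weighted size of the set of the points of norm `2^i` and level `2^(-l)` -/
noncomputable def xx (φ : (Fin d → ℤ) → H) (f : H) (a β : ℝ) (i l : ℕ) : ℝ :=
  (2 : ℝ) ^ (-(a * i) - qe a β * l) * ((TT φ f i l).card : ℝ)

/-- the coefficient of the test vector -/
noncomputable def tt (a β : ℝ) (i l : ℕ) : ℝ := (2 : ℝ) ^ (-(a * i) - (qe a β - 1) * l)

/-- the test vector -/
noncomputable def ww (φ : (Fin d → ℤ) → H) (f : H) (a β : ℝ) (i l : ℕ) : H :=
  ((tt a β i l : ℝ) : ℂ) • vv φ f i l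

theorem xx_nonneg (φ : (Fin d → ℤ) → H) (f : H) (a β : ℝ) (i l : ℕ) : 0 ≤ xx φ f a β i l := by
  unfold xx; positivity

theorem tt_pos (a β : ℝ) (i l : ℕ) : 0 < tt a β i l := by unfold tt; positivity

theorem tt_card (φ : (Fin d → ℤ) → H) (f : H) (a β : ℝ) (i l : ℕ) :
    tt a β i l * ((TT φ f i l).card : ℝ) = (2 : ℝ) ^ (l : ℝ) * xx φ f a β i l := by
  unfold tt xx
  rw [← mul_assoc, ← Real.rpow_add (by norm_num)]
  congr 2
  ring

theorem ww_inner (φ : (Fin d → ℤ) → H) (f : H) (a β : ℝ) (i l : ℕ) :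
    xx φ f a β i l ≤ 2 * ‖inner ℂ (ww φ f a β i l) f‖ := by
  unfold ww
  rw [inner_smul_left, norm_mul, RCLike.norm_conj, Complex.norm_real,
    Real.norm_of_nonneg (tt_pos a β i l).le]
  have h1 := vv_low φ f i l
  have h2 := mul_le_mul_of_nonneg_left h1 (tt_pos a β i l).le
  have h3 : tt a β i l * ((1 / 2) ^ (l + 1) * ((TT φ f i l).card : ℝ)) =
      (1 / 2) ^ (l + 1) * (tt a β i l * ((TT φ f i l).card : ℝ)) := by ring
  rw [h3, tt_card] at h2
  have h4 : (1 / 2 : ℝ) ^ (l + 1) * ((2 : ℝ) ^ (l : ℝ) * xx φ f a β i l) = xx φ f a β i l / 2 := by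
    rw [Real.rpow_natCast, pow_succ, one_div_pow]
    field_simp
  rw [h4] at h2
  linarith

theorem ww_norm (φ : (Fin d → ℤ) → H) (f : H) (a β : ℝ) (i l : ℕ) :
    ‖ww φ f a β i l‖ ^ 2 = tt a β i l ^ 2 * ‖vv φ f i l‖ ^ 2 := by
  unfold ww
  rw [norm_smul, Complex.norm_real, Real.norm_of_nonneg (tt_pos a β i l).le, mul_pow]

variable {φ : (Fin d → ℤ) → H} {L β : ℝ}

/-- the constant of the dual estimate -/
noncomputable def C0 (L β : ℝ) : ℝ := 2 + L * 2 ^ (2 + 2 / β) * (2 : ℝ) ^ (2 + 2 / β)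

/-- the constant -/
noncomputable def CB (L β : ℝ) : ℝ :=
  16 * L + L * (2 : ℝ) ^ (2 + 2 / β) + 4 * L + C0 L β ^ 2 * (L * (2 : ℝ) ^ (2 + 2 / β))

theorem CB_ge (hL : 1 ≤ L) :
    16 * L ≤ CB L β ∧ L * (2 : ℝ) ^ (2 + 2 / β) ≤ CB L β ∧ 4 * L ≤ CB L β ∧
      C0 L β ^ 2 * (L * (2 : ℝ) ^ (2 + 2 / β)) ≤ CB L β ∧ 0 < CB L β := by
  have h1 : 0 < 16 * L := by linarith
  have h2 : 0 < L * (2 : ℝ) ^ (2 + 2 / β) := by positivity
  have h3 : 0 ≤ C0 L β ^ 2 * (L * (2 : ℝ) ^ (2 + 2 / β)) := by positivity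
  have h4 : 0 < 4 * L := by linarith
  unfold CB
  refine ⟨?_, ?_, ?_, ?_, ?_⟩ <;> linarith

theorem pow_two_min {a u c : ℝ} (hc1 : c ≤ a) (hc2 : c ≤ 1 - a) :
    (u ≤ 0 → (2 : ℝ) ^ ((1 - a) * u) ≤ (2 : ℝ) ^ (-(c * |u|))) ∧
      (0 ≤ u → (2 : ℝ) ^ (-(a * u)) ≤ (2 : ℝ) ^ (-(c * |u|))) := by
  constructor
  · intro hu
    refine Real.rpow_le_rpow_of_exponent_le (by norm_num) ?_
    rw [abs_of_nonpos hu]
    nlinarith
  · intro hu
    refine Real.rpow_le_rpow_of_exponent_le (by norm_num) ?_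
    rw [abs_of_nonneg hu]
    nlinarith

theorem xx_le (hφ : EVecs φ L β) (f : H) (hf : ‖f‖ ≤ 1) (a c : ℝ) (hc1 : c ≤ a) (hc2 : c ≤ 1 - a)
    (i l : ℕ) :
    xx φ f a β i l ≤ CB L β * (2 : ℝ) ^ (-(c * |(i : ℝ) - 2 * l / β|)) := by
  have hL := hφ.v.L1
  have hβ := hφ.v.g0
  obtain ⟨b1, b2, b3, b4, b5⟩ := CB_ge (β := β) hL
  obtain ⟨m1, m2⟩ := pow_two_min (u := (i : ℝ) - 2 * l / β) hc1 hc2
  rcases le_total ((i : ℝ) - 2 * l / β) 0 with hu | hu
  · have h1 := TT_card1 hφ f hf i l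
    calc xx φ f a β i l ≤ (2 : ℝ) ^ (-(a * i) - qe a β * l) *
          (16 * L * (2 : ℝ) ^ ((i : ℝ) + 2 * l)) := by
          unfold xx
          exact mul_le_mul_of_nonneg_left h1 (by positivity)
      _ = 16 * L * (2 : ℝ) ^ ((1 - a) * ((i : ℝ) - 2 * l / β)) := by
          rw [show (2 : ℝ) ^ (-(a * i) - qe a β * l) * (16 * L * (2 : ℝ) ^ ((i : ℝ) + 2 * l)) =
            16 * L * ((2 : ℝ) ^ (-(a * i) - qe a β * l) * (2 : ℝ) ^ ((i : ℝ) + 2 * l)) by ring,
            ← Real.rpow_add (by norm_num)]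
          congr 2
          unfold qe
          field_simp
          ring
      _ ≤ CB L β * (2 : ℝ) ^ (-(c * |(i : ℝ) - 2 * l / β|)) :=
          mul_le_mul b1 (m1 hu) (by positivity) b5.le
  · have h1 := TT_card2 hφ f hf i l
    calc xx φ f a β i l ≤ (2 : ℝ) ^ (-(a * i) - qe a β * l) *
          (L * (2 : ℝ) ^ ((2 + 2 / β) * (l + 1))) := by
          unfold xx
          exact mul_le_mul_of_nonneg_left h1 (by positivity)
      _ = L * (2 : ℝ) ^ (2 + 2 / β) * (2 : ℝ) ^ (-(a * ((i : ℝ) - 2 * l / β))) := by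
          rw [show (2 : ℝ) ^ (-(a * i) - qe a β * l) * (L * (2 : ℝ) ^ ((2 + 2 / β) * (l + 1))) =
            L * ((2 : ℝ) ^ (-(a * i) - qe a β * l) * (2 : ℝ) ^ ((2 + 2 / β) * (l + 1))) by ring,
            ← Real.rpow_add (by norm_num), mul_assoc, ← Real.rpow_add (by norm_num)]
          congr 2
          unfold qe
          field_simp
          ring
      _ ≤ CB L β * (2 : ℝ) ^ (-(c * |(i : ℝ) - 2 * l / β|)) :=
          mul_le_mul b2 (m2 hu) (by positivity) b5.le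

theorem ww_le (hφ : EVecs φ L β) (f : H) (hf : ‖f‖ ≤ 1) (a c : ℝ) (hc1 : c ≤ a) (hc2 : c ≤ 1 - a)
    (i l : ℕ) :
    ‖ww φ f a β i l‖ ^ 2 ≤
      CB L β * (2 : ℝ) ^ (-(c * |(i : ℝ) - 2 * l / β|)) * xx φ f a β i l := by
  have hL := hφ.v.L1
  have hβ := hφ.v.g0
  obtain ⟨b1, b2, b3, b4, b5⟩ := CB_ge (β := β) hL
  obtain ⟨m1, m2⟩ := pow_two_min (u := (i : ℝ) - 2 * l / β) hc1 hc2
  have hx := xx_nonneg φ f a β i l
  have ht := tt_pos a β i l
  rw [ww_norm]
  rcases le_total ((i : ℝ) - 2 * l / β) 0 with hu | hu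
  · have h1 := vv_norm1 hφ f i l
    calc tt a β i l ^ 2 * ‖vv φ f i l‖ ^ 2
        ≤ tt a β i l ^ 2 * (4 * L * (2 : ℝ) ^ (i : ℝ) * ((TT φ f i l).card : ℝ)) :=
          mul_le_mul_of_nonneg_left h1 (by positivity)
      _ = 4 * L * (tt a β i l * (2 : ℝ) ^ (i : ℝ)) * (tt a β i l * ((TT φ f i l).card : ℝ)) := by
          ring
      _ = 4 * L * (2 : ℝ) ^ ((1 - a) * ((i : ℝ) - 2 * l / β)) * xx φ f a β i l := by
          rw [tt_card, show 4 * L * (tt a β i l * (2 : ℝ) ^ (i : ℝ)) *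
            ((2 : ℝ) ^ (l : ℝ) * xx φ f a β i l) = 4 * L * (tt a β i l * (2 : ℝ) ^ (i : ℝ) *
              (2 : ℝ) ^ (l : ℝ)) * xx φ f a β i l by ring]
          unfold tt
          rw [← Real.rpow_add (by norm_num), ← Real.rpow_add (by norm_num)]
          congr 3
          unfold qe
          field_simp
          ring
      _ ≤ CB L β * (2 : ℝ) ^ (-(c * |(i : ℝ) - 2 * l / β|)) * xx φ f a β i l :=
          mul_le_mul_of_nonneg_right (mul_le_mul b3 (m1 hu) (by positivity) b5.le) hx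
  · have h1 := vv_norm2 hφ f i l
    have hq0 : 0 < 2 / β := by positivity
    set N : ℝ := ((TT φ f i l).card : ℝ) with hN
    have hN0 : 0 ≤ N := Nat.cast_nonneg _
    have h2 : N ^ (1 - 2 / (2 + 2 / β)) ≤ L * (2 : ℝ) ^ ((2 / β) * (l + 1)) := by
      have he0 : 0 ≤ 1 - 2 / (2 + 2 / β) := by
        rw [sub_nonneg, div_le_one (by linarith)]
        linarith
      have he1 : 1 - 2 / (2 + 2 / β) ≤ 1 := by
        have : 0 < 2 / (2 + 2 / β) := by positivity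
        linarith
      calc N ^ (1 - 2 / (2 + 2 / β)) ≤
            (L * (2 : ℝ) ^ ((2 + 2 / β) * (l + 1))) ^ (1 - 2 / (2 + 2 / β)) :=
            Real.rpow_le_rpow hN0 (TT_card2 hφ f hf i l) he0
        _ = L ^ (1 - 2 / (2 + 2 / β)) * (2 : ℝ) ^ ((2 / β) * (l + 1)) := by
            rw [Real.mul_rpow (by linarith) (by positivity), ← Real.rpow_mul (by norm_num)]
            congr 2
            have : 2 + 2 / β ≠ 0 := by linarith
            field_simp
            ring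
        _ ≤ L ^ (1 : ℝ) * (2 : ℝ) ^ ((2 / β) * (l + 1)) :=
            mul_le_mul_of_nonneg_right (Real.rpow_le_rpow_of_exponent_le hL he1) (by positivity)
        _ = _ := by rw [Real.rpow_one]
    calc tt a β i l ^ 2 * ‖vv φ f i l‖ ^ 2
        ≤ tt a β i l ^ 2 * (C0 L β ^ 2 * (N * N ^ (1 - 2 / (2 + 2 / β)))) :=
          mul_le_mul_of_nonneg_left h1 (by positivity)
      _ ≤ tt a β i l ^ 2 * (C0 L β ^ 2 * (N * (L * (2 : ℝ) ^ ((2 / β) * (l + 1))))) := by
          gcongr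
      _ = C0 L β ^ 2 * L * (tt a β i l * (2 : ℝ) ^ ((2 / β) * (l + 1))) * (tt a β i l * N) := by
          ring
      _ = C0 L β ^ 2 * L * (2 : ℝ) ^ (2 / β) * (2 : ℝ) ^ (-(a * ((i : ℝ) - 2 * l / β))) *
            xx φ f a β i l := by
          rw [hN, tt_card, show C0 L β ^ 2 * L * (tt a β i l * (2 : ℝ) ^ ((2 / β) * (l + 1))) *
            ((2 : ℝ) ^ (l : ℝ) * xx φ f a β i l) = C0 L β ^ 2 * L * (tt a β i l *
              (2 : ℝ) ^ ((2 / β) * (l + 1)) * (2 : ℝ) ^ (l : ℝ)) * xx φ f a β i l by ring]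
          unfold tt
          rw [← Real.rpow_add (by norm_num), ← Real.rpow_add (by norm_num),
            mul_assoc (C0 L β ^ 2 * L) ((2 : ℝ) ^ (2 / β)), ← Real.rpow_add (by norm_num)]
          congr 3
          unfold qe
          field_simp
          ring
      _ ≤ CB L β * (2 : ℝ) ^ (-(c * |(i : ℝ) - 2 * l / β|)) * xx φ f a β i l := by
          refine mul_le_mul_of_nonneg_right (mul_le_mul ?_ (m2 hu) (by positivity) b5.le) hx
          refine le_trans ?_ b4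
          rw [mul_assoc]
          refine mul_le_mul_of_nonneg_left (mul_le_mul_of_nonneg_left ?_ (by linarith))
            (by positivity)
          exact Real.rpow_le_rpow_of_exponent_le (by norm_num) (by linarith)

/-- the off-diagonal terms -/
theorem ww_far (hφ : EVecs φ L β) (f : H) (a : ℝ) (i l i' l' : ℕ) (h : i + 2 ≤ i') (m : ℝ)
    (h1 : (l : ℝ) ≤ β * i / 2 + m) (h2 : (l' : ℝ) ≤ β * i' / 2 + m)
    (h3 : 8 * m ≤ β * ((i' : ℝ) - i)) :
    ‖inner ℂ (ww φ f a β i l) (ww φ f a β i' l')‖ ≤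
      L * (2 : ℝ) ^ β * (2 : ℝ) ^ (-(β / 4 * ((i' : ℝ) - i))) *
        (xx φ f a β i l * xx φ f a β i' l') := by
  have hL := hφ.v.L1
  have hβ := hφ.v.g0
  have ht := tt_pos a β i l
  have ht' := tt_pos a β i' l'
  unfold ww
  rw [inner_smul_left, inner_smul_right, norm_mul, norm_mul, RCLike.norm_conj, Complex.norm_real,
    Complex.norm_real, Real.norm_of_nonneg ht.le, Real.norm_of_nonneg ht'.le]
  have h4 := vv_far hφ f i l i' l' h
  have hx := xx_nonneg φ f a β i l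
  have hx' := xx_nonneg φ f a β i' l'
  calc tt a β i l * (tt a β i' l' * ‖inner ℂ (vv φ f i l) (vv φ f i' l')‖)
      ≤ tt a β i l * (tt a β i' l' * (L * (2 : ℝ) ^ (-(β * ((i' : ℝ) - 1))) *
        ((TT φ f i l).card * (TT φ f i' l').card))) := by gcongr
    _ = L * (2 : ℝ) ^ (-(β * ((i' : ℝ) - 1))) * (tt a β i l * ((TT φ f i l).card : ℝ)) *
        (tt a β i' l' * ((TT φ f i' l').card : ℝ)) := by ring
    _ = L * ((2 : ℝ) ^ (-(β * ((i' : ℝ) - 1))) * (2 : ℝ) ^ (l : ℝ) * (2 : ℝ) ^ (l' : ℝ)) *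
        (xx φ f a β i l * xx φ f a β i' l') := by
        rw [tt_card, tt_card]; ring
    _ ≤ L * ((2 : ℝ) ^ β * (2 : ℝ) ^ (-(β / 4 * ((i' : ℝ) - i)))) *
        (xx φ f a β i l * xx φ f a β i' l') := by
        refine mul_le_mul_of_nonneg_right (mul_le_mul_of_nonneg_left ?_ (by linarith))
          (mul_nonneg hx hx')
        rw [← Real.rpow_add (by norm_num), ← Real.rpow_add (by norm_num),
          ← Real.rpow_add (by norm_num)]
        refine Real.rpow_le_rpow_of_exponent_le (by norm_num) ?_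
        nlinarith
    _ = _ := by ring

/-- the sum over a diagonal -/
theorem diag_sum (hφ : EVecs φ L β) (f : H) (hf : ‖f‖ ≤ 1) (a c : ℝ) (hc0 : 0 < c) (hc1 : c ≤ a)
    (hc2 : c ≤ 1 - a) (m : ℤ) (I : Finset ℕ) (l : ℕ → ℕ)
    (hl : ∀ i ∈ I, (l i : ℤ) = ⌊β * i / 2⌋ + m) :
    ∑ i ∈ I, xx φ f a β i (l i) ≤
      4 * (((CB L β + L * (2 : ℝ) ^ β * CB L β) * ((2 : ℝ) ^ (2 * c / β) *
        (2 : ℝ) ^ (-(2 * c / β * |(m : ℝ)|)))) *
        (4 * ((2 + ⌈8 * |(m : ℝ)| / β⌉₊ : ℕ) : ℝ) + 4 / (1 - (2 : ℝ) ^ (-(β / 4))))) := by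
  classical
  have hL := hφ.v.L1
  have hβ := hφ.v.g0
  obtain ⟨b1, b2, b3, b4, b5⟩ := CB_ge (β := β) hL
  set D₀ : ℝ := (2 : ℝ) ^ (2 * c / β) * (2 : ℝ) ^ (-(2 * c / β * |(m : ℝ)|)) with hD₀
  have hD₀0 : 0 < D₀ := by positivity
  have hρ1 : (2 : ℝ) ^ (-(β / 4)) < 1 := Real.rpow_lt_one_of_one_lt_of_neg (by norm_num)
    (by linarith)
  -- the bounds for `l`
  have hlR : ∀ i ∈ I, β * i / 2 - 1 < (l i : ℝ) - m ∧ (l i : ℝ) - m ≤ β * i / 2 := by
    intro i hi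
    have h1 := hl i hi
    have h2 : ((l i : ℕ) : ℝ) = (⌊β * i / 2⌋ : ℝ) + m := by exact_mod_cast h1
    have h3 := Int.floor_le (β * (i : ℝ) / 2)
    have h4 := Int.lt_floor_add_one (β * (i : ℝ) / 2)
    constructor <;> linarith
  have hmu : ∀ i ∈ I, (2 : ℝ) ^ (-(c * |(i : ℝ) - 2 * l i / β|)) ≤ D₀ := by
    intro i hi
    rw [hD₀, ← Real.rpow_add (by norm_num)]
    refine Real.rpow_le_rpow_of_exponent_le (by norm_num) ?_
    obtain ⟨h1, h2⟩ := hlR i hi
    -- `|u| ≥ 2|m|/β - 2/β`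
    have h3 : 2 * |(m : ℝ)| / β - 2 / β ≤ |(i : ℝ) - 2 * l i / β| := by
      have h4 : |(m : ℝ)| - 1 ≤ |β * i / 2 - l i| := by
        rcases le_total 0 (m : ℝ) with hm | hm
        · rw [abs_of_nonneg hm]
          have := neg_abs_le (β * i / 2 - l i)
          linarith
        · rw [abs_of_nonpos hm]
          have := le_abs_self (β * i / 2 - l i)
          linarith
      have h5 : |(i : ℝ) - 2 * l i / β| = 2 / β * |β * i / 2 - l i| := by
        have e : (i : ℝ) - 2 * l i / β = 2 / β * (β * i / 2 - l i) := by field_simp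
        rw [e, abs_mul, abs_of_pos (show (0 : ℝ) < 2 / β by positivity)]
      rw [h5]
      have h6 : 2 / β * (|(m : ℝ)| - 1) ≤ 2 / β * |β * i / 2 - l i| :=
        mul_le_mul_of_nonneg_left h4 (by positivity)
      have h7 : 2 / β * (|(m : ℝ)| - 1) = 2 * |(m : ℝ)| / β - 2 / β := by ring
      linarith
    have h8 := mul_le_mul_of_nonneg_left h3 hc0.le
    have h9 : c * (2 * |(m : ℝ)| / β - 2 / β) = 2 * c / β * |(m : ℝ)| - 2 * c / β := by ring
    linarith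
  have hxD : ∀ i ∈ I, xx φ f a β i (l i) ≤ CB L β * D₀ := fun i hi =>
    (xx_le hφ f hf a c hc1 hc2 i (l i)).trans (mul_le_mul_of_nonneg_left (hmu i hi) b5.le)
  have hwD : ∀ i ∈ I, ‖ww φ f a β i (l i)‖ ^ 2 ≤ CB L β * D₀ * xx φ f a β i (l i) := fun i hi =>
    (ww_le hφ f hf a c hc1 hc2 i (l i)).trans (mul_le_mul_of_nonneg_right
      (mul_le_mul_of_nonneg_left (hmu i hi) b5.le) (xx_nonneg _ _ _ _ _ _))
  set D : ℝ := (CB L β + L * (2 : ℝ) ^ β * CB L β) * D₀ with hD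
  have hD1 : CB L β * D₀ ≤ D := by
    rw [hD]
    have : 0 ≤ L * (2 : ℝ) ^ β * CB L β * D₀ := by positivity
    nlinarith
  have hD2 : L * (2 : ℝ) ^ β * (CB L β * D₀) ≤ D := by
    rw [hD]
    have : 0 ≤ CB L β * D₀ := by positivity
    nlinarith
  set M : ℕ := 2 + ⌈8 * |(m : ℝ)| / β⌉₊ with hM
  have hM8 : 8 * |(m : ℝ)| ≤ β * M := by
    have h1 := Nat.le_ceil (8 * |(m : ℝ)| / β)
    rw [div_le_iff₀ hβ] at h1
    rw [hM]
    push_cast
    nlinarith
  -- the far terms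
  have hfar : ∀ i ∈ I, ∀ k ∈ I, i + M ≤ k →
      ‖inner ℂ (ww φ f a β i (l i)) (ww φ f a β k (l k))‖ ≤
        D * (xx φ f a β i (l i) + xx φ f a β k (l k)) * ((2 : ℝ) ^ (-(β / 4))) ^ (k - i) := by
    intro i hi k hk hik
    have h1 := ww_far hφ f a i (l i) k (l k) (by omega) m (by linarith [(hlR i hi).2])
      (by linarith [(hlR k hk).2]) (by
        have h2 : (i : ℝ) + M ≤ k := by exact_mod_cast hik
        have h3 : β * (M : ℝ) ≤ β * ((k : ℝ) - i) := mul_le_mul_of_nonneg_left (by linarith) hβ.le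
        have h4 := le_abs_self (m : ℝ)
        linarith)
    refine h1.trans ?_
    have h5 : ((2 : ℝ) ^ (-(β / 4))) ^ (k - i) = (2 : ℝ) ^ (-(β / 4 * ((k : ℝ) - i))) := by
      rw [← Real.rpow_natCast, ← Real.rpow_mul (by norm_num), Nat.cast_sub (by omega)]
      congr 1
      ring
    rw [h5]
    have hxi := xx_nonneg φ f a β i (l i)
    have hxk := xx_nonneg φ f a β k (l k)
    calc L * (2 : ℝ) ^ β * (2 : ℝ) ^ (-(β / 4 * ((k : ℝ) - i))) *
          (xx φ f a β i (l i) * xx φ f a β k (l k))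
        ≤ L * (2 : ℝ) ^ β * (2 : ℝ) ^ (-(β / 4 * ((k : ℝ) - i))) *
          (xx φ f a β i (l i) * (CB L β * D₀)) := by
          gcongr
          exact hxD k hk
      _ = (L * (2 : ℝ) ^ β * (CB L β * D₀)) * xx φ f a β i (l i) *
          (2 : ℝ) ^ (-(β / 4 * ((k : ℝ) - i))) := by ring
      _ ≤ D * (xx φ f a β i (l i) + xx φ f a β k (l k)) *
          (2 : ℝ) ^ (-(β / 4 * ((k : ℝ) - i))) := by
          gcongr
          linarith
  refine sq_trick I (fun i => xx φ f a β i (l i)) (fun i => xx_nonneg _ _ _ _ _ _)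
    (fun i => ww φ f a β i (l i)) f hf (fun i _ => ww_inner φ f a β i (l i)) D (by positivity) M
    ((2 : ℝ) ^ (-(β / 4))) (by positivity) hρ1 ?_
  intro i hi k hk
  have hxi := xx_nonneg φ f a β i (l i)
  have hxk := xx_nonneg φ f a β k (l k)
  split_ifs with h
  · rw [mul_one]
    have h1 := norm_inner_le_norm (𝕜 := ℂ) (ww φ f a β i (l i)) (ww φ f a β k (l k))
    have h2 : ‖ww φ f a β i (l i)‖ * ‖ww φ f a β k (l k)‖ ≤
        ‖ww φ f a β i (l i)‖ ^ 2 + ‖ww φ f a β k (l k)‖ ^ 2 := by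
      nlinarith [sq_nonneg (‖ww φ f a β i (l i)‖ - ‖ww φ f a β k (l k)‖),
        sq_nonneg ‖ww φ f a β i (l i)‖, sq_nonneg ‖ww φ f a β k (l k)‖]
    have h3 := hwD i hi
    have h4 := hwD k hk
    have h5 : CB L β * D₀ * xx φ f a β i (l i) ≤ D * xx φ f a β i (l i) :=
      mul_le_mul_of_nonneg_right hD1 hxi
    have h6 : CB L β * D₀ * xx φ f a β k (l k) ≤ D * xx φ f a β k (l k) :=
      mul_le_mul_of_nonneg_right hD1 hxk
    linarith
  · rcases le_total i k with hik | hik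
    · rw [max_eq_right hik, min_eq_left hik] at h ⊢
      exact hfar i hi k hk (by omega)
    · rw [max_eq_left hik, min_eq_right hik] at h ⊢
      rw [norm_inner_symm, add_comm (xx φ f a β i (l i))]
      exact hfar k hk i hi (by omega)

theorem int_sum (g : ℕ → ℝ) (hg : ∀ n, 0 ≤ g n) (hs : Summable g) (F : Finset ℤ) :
    ∑ m ∈ F, g m.natAbs ≤ 2 * ∑' n, g n := by
  classical
  have h1 : ∑ m ∈ F.filter (fun m => 0 ≤ m), g m.natAbs ≤ ∑' n, g n := by
    have hinj : Set.InjOn Int.natAbs (F.filter (fun m => 0 ≤ m) : Finset ℤ) := by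
      intro a ha b hb hab
      rw [Finset.mem_coe, Finset.mem_filter] at ha hb
      omega
    rw [← Finset.sum_image (f := g) hinj]
    exact hs.sum_le_tsum _ fun n _ => hg n
  have h2 : ∑ m ∈ F.filter (fun m => ¬ 0 ≤ m), g m.natAbs ≤ ∑' n, g n := by
    have hinj : Set.InjOn Int.natAbs (F.filter (fun m => ¬ 0 ≤ m) : Finset ℤ) := by
      intro a ha b hb hab
      rw [Finset.mem_coe, Finset.mem_filter] at ha hb
      omega
    rw [← Finset.sum_image (f := g) hinj]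
    exact hs.sum_le_tsum _ fun n _ => hg n
  rw [← Finset.sum_filter_add_sum_filter_not F (fun m => 0 ≤ m)]
  linarith

/-- all diagonals -/
theorem all_sum (hφ : EVecs φ L β) (a : ℝ) (ha : 0 < a) (ha1 : a < 1) :
    ∃ C : ℝ, ∀ f : H, ‖f‖ ≤ 1 → ∀ Pi : Finset (ℕ × ℕ),
      ∑ p ∈ Pi, xx φ f a β p.1 p.2 ≤ C := by
  classical
  have hL := hφ.v.L1
  have hβ := hφ.v.g0
  obtain ⟨b1, b2, b3, b4, b5⟩ := CB_ge (β := β) hL
  set c : ℝ := min a (1 - a) with hc
  have hc0 : 0 < c := lt_min ha (by linarith)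
  have hc1 : c ≤ a := min_le_left _ _
  have hc2 : c ≤ 1 - a := min_le_right _ _
  set ρ : ℝ := (2 : ℝ) ^ (-(β / 4)) with hρ
  have hρ1 : ρ < 1 := Real.rpow_lt_one_of_one_lt_of_neg (by norm_num) (by linarith)
  set ν : ℝ := (2 : ℝ) ^ (-(2 * c / β)) with hν
  have hν0 : 0 < ν := by positivity
  have hν1 : ν < 1 := by
    refine Real.rpow_lt_one_of_one_lt_of_neg (by norm_num) ?_
    have : 0 < 2 * c / β := by positivity
    linarith
  set K₂ : ℝ := (CB L β + L * (2 : ℝ) ^ β * CB L β) * (2 : ℝ) ^ (2 * c / β) with hK₂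
  have hK₂0 : 0 < K₂ := by positivity
  set K₃ : ℝ := 4 * K₂ * (12 + 32 / β + 4 / (1 - ρ)) with hK₃
  have hρ' : 0 < 1 - ρ := by linarith
  have hK₃0 : 0 < K₃ := by positivity
  set g : ℕ → ℝ := fun n => K₃ * (((n : ℝ) + 1) * ν ^ n) with hg
  have hgs : Summable g := by
    have h1 : Summable fun n : ℕ => (((n : ℝ)) ^ 1 * ν ^ n : ℝ) :=
      summable_pow_mul_geometric_of_norm_lt_one 1 (by
        rw [Real.norm_eq_abs, abs_of_pos hν0]; exact hν1)
    have h2 : Summable fun n : ℕ => (ν ^ n : ℝ) := summable_geometric_of_lt_one hν0.le hν1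
    refine ((h1.add h2).mul_left K₃).congr fun n => ?_
    simp only [hg]
    ring
  refine ⟨2 * ∑' n, g n, fun f hf Pi => ?_⟩
  set γ : ℕ × ℕ → ℤ := fun p => (p.2 : ℤ) - ⌊β * p.1 / 2⌋ with hγ
  rw [← Finset.sum_fiberwise_of_maps_to (t := Pi.image γ) (g := γ)
    (fun p hp => Finset.mem_image_of_mem γ hp)]
  refine le_trans (Finset.sum_le_sum fun m _ => ?_) (int_sum g (fun n => by
    simp only [hg]; positivity) hgs (Pi.image γ))
  -- a fiber
  set Q : Finset (ℕ × ℕ) := Pi.filter fun p => γ p = m with hQ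
  have hQm : ∀ p ∈ Q, (p.2 : ℤ) = ⌊β * p.1 / 2⌋ + m := by
    intro p hp
    rw [hQ, Finset.mem_filter] at hp
    have := hp.2
    simp only [hγ] at this
    omega
  set l : ℕ → ℕ := fun i => (⌊β * i / 2⌋ + m).toNat with hl
  have hinj : Set.InjOn Prod.fst (Q : Set (ℕ × ℕ)) := by
    intro p hp p' hp' h
    have h1 := hQm p hp
    have h2 := hQm p' hp'
    rw [h] at h1
    exact Prod.ext h (by omega)
  have hval : ∀ p ∈ Q, p.2 = l p.1 := by
    intro p hp
    have h1 := hQm p hp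
    simp only [hl]
    rw [← h1]
    simp
  have h1 : ∑ p ∈ Q, xx φ f a β p.1 p.2 = ∑ i ∈ Q.image Prod.fst, xx φ f a β i (l i) := by
    rw [Finset.sum_image hinj]
    refine Finset.sum_congr rfl fun p hp => ?_
    rw [← hval p hp]
  rw [h1]
  refine (diag_sum hφ f hf a c hc0 hc1 hc2 m (Q.image Prod.fst) l ?_).trans ?_
  · intro i hi
    obtain ⟨p, hp, rfl⟩ := Finset.mem_image.1 hi
    rw [← hval p hp]
    exact hQm p hp
  · have hm : |(m : ℝ)| = (m.natAbs : ℝ) := by rw [Nat.cast_natAbs, Int.cast_abs]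
    rw [hm]
    set n : ℕ := m.natAbs with hn
    have hn0 : (0 : ℝ) ≤ n := Nat.cast_nonneg n
    have h2 : (2 : ℝ) ^ (-(2 * c / β * (n : ℝ))) = ν ^ n := by
      rw [hν, ← Real.rpow_natCast, ← Real.rpow_mul (by norm_num)]
      congr 1
      ring
    rw [h2]
    have h3 : ((2 + ⌈8 * (n : ℝ) / β⌉₊ : ℕ) : ℝ) ≤ 3 + 8 * n / β := by
      push_cast
      have := (Nat.ceil_lt_add_one (show 0 ≤ 8 * (n : ℝ) / β by positivity)).le
      linarith
    calc 4 * ((CB L β + L * (2 : ℝ) ^ β * CB L β) * ((2 : ℝ) ^ (2 * c / β) * ν ^ n) *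
          (4 * ((2 + ⌈8 * (n : ℝ) / β⌉₊ : ℕ) : ℝ) + 4 / (1 - ρ)))
        ≤ 4 * ((CB L β + L * (2 : ℝ) ^ β * CB L β) * ((2 : ℝ) ^ (2 * c / β) * ν ^ n) *
          (4 * (3 + 8 * n / β) + 4 / (1 - ρ))) := by gcongr
      _ = 4 * K₂ * (12 + 32 / β * n + 4 / (1 - ρ)) * ν ^ n := by rw [hK₂]; ring
      _ ≤ 4 * K₂ * ((12 + 32 / β + 4 / (1 - ρ)) * (n + 1)) * ν ^ n := by
          gcongr
          have e1 : 0 < 32 / β := by positivity
          have e2 : 0 < 4 / (1 - ρ) := by positivity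
          nlinarith
      _ = g n := by simp only [hg, hK₃]; ring

/-- **The weighted estimate at the endpoint.** -/
theorem endpoint (hφ : EVecs φ L β) (a : ℝ) (ha : 0 < a) (ha1 : a < 1) :
    ∃ C : ℝ, ∀ f : H, ‖f‖ ≤ 1 → ∀ s : Finset (Fin d → ℤ),
      ∑ j ∈ s, (1 + ‖j‖) ^ (-a) * ‖inner ℂ (φ j) f‖ ^ (2 + 2 * (1 - a) / β) ≤ C := by
  classical
  have hβ := hφ.v.g0
  obtain ⟨C, hC⟩ := all_sum hφ a ha ha1
  refine ⟨C, fun f hf s => ?_⟩
  have hq : 0 < 2 + 2 * (1 - a) / β := by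
    have : 0 < 2 * (1 - a) / β := div_pos (by linarith) hβ
    linarith
  set h : (Fin d → ℤ) → ℝ := fun j => ‖inner ℂ (φ j) f‖ with hh
  have hh1 : ∀ j, h j ≤ 1 := fun j =>
    (norm_inner_le_norm _ _).trans (mul_le_one₀ (hφ.v.bd j) (norm_nonneg _) hf)
  have hex : ∀ j, 0 < h j → ∃ p : ℕ × ℕ, j ∈ TT φ f p.1 p.2 := by
    intro j hj
    obtain ⟨i, hi⟩ := exists_ann j
    obtain ⟨l, hl1, hl2⟩ := exists_nat_pow_near_of_lt_one hj (hh1 j) (y := 1 / 2) (by norm_num)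
      (by norm_num)
    refine ⟨(i, l), ?_⟩
    unfold TT
    rw [Finset.mem_filter, Set.Finite.mem_toFinset]
    exact ⟨hi, hl1, hl2⟩
  choose! p hp using hex
  set s' := s.filter fun j => 0 < h j with hs'
  have h1 : ∑ j ∈ s, (1 + ‖j‖) ^ (-a) * h j ^ (2 + 2 * (1 - a) / β) =
      ∑ j ∈ s', (1 + ‖j‖) ^ (-a) * h j ^ (2 + 2 * (1 - a) / β) := by
    rw [hs', Finset.sum_filter]
    refine Finset.sum_congr rfl fun j _ => ?_
    split_ifs with h0
    · rfl
    · have h2 : h j = 0 := le_antisymm (not_lt.1 h0) (norm_nonneg _)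
      rw [h2, Real.zero_rpow hq.ne', mul_zero]
  have h2 : ∀ j ∈ s', (1 + ‖j‖) ^ (-a) * h j ^ (2 + 2 * (1 - a) / β) ≤
      (2 : ℝ) ^ (-(a * (p j).1) - qe a β * (p j).2) := by
    intro j hj
    rw [hs', Finset.mem_filter] at hj
    have h3 := hp j hj.2
    unfold TT at h3
    rw [Finset.mem_filter, Set.Finite.mem_toFinset] at h3
    have h4 : (1 + ‖j‖) ^ (-a) ≤ (2 : ℝ) ^ (-(a * (p j).1)) := by
      calc (1 + ‖j‖) ^ (-a) ≤ ((2 : ℝ) ^ (p j).1) ^ (-a) :=
            Real.rpow_le_rpow_of_nonpos (by positivity) h3.1.1 (by linarith)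
        _ = _ := by
            rw [← Real.rpow_natCast, ← Real.rpow_mul (by norm_num)]
            congr 1
            ring
    have h5 : h j ^ (2 + 2 * (1 - a) / β) ≤ (2 : ℝ) ^ (-(qe a β * (p j).2)) := by
      calc h j ^ (2 + 2 * (1 - a) / β) ≤ ((1 / 2 : ℝ) ^ (p j).2) ^ (2 + 2 * (1 - a) / β) :=
            Real.rpow_le_rpow (norm_nonneg _) h3.2.2 hq.le
        _ = _ := by
            rw [one_div_pow, one_div, ← Real.rpow_natCast, ← Real.rpow_neg (by norm_num),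
              ← Real.rpow_mul (by norm_num)]
            congr 1
            unfold qe
            ring
    calc (1 + ‖j‖) ^ (-a) * h j ^ (2 + 2 * (1 - a) / β)
        ≤ (2 : ℝ) ^ (-(a * (p j).1)) * (2 : ℝ) ^ (-(qe a β * (p j).2)) :=
          mul_le_mul h4 h5 (Real.rpow_nonneg (norm_nonneg _) _) (by positivity)
      _ = _ := by
          rw [← Real.rpow_add (by norm_num)]
          congr 1
  rw [h1]
  refine (Finset.sum_le_sum h2).trans ?_
  rw [← Finset.sum_fiberwise_of_maps_to (t := s'.image p) (g := p)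
    (fun j hj => Finset.mem_image_of_mem p hj)]
  refine le_trans (Finset.sum_le_sum fun π _ => ?_) (hC f hf (s'.image p))
  have h3 : ∀ j ∈ s'.filter (fun j => p j = π), (2 : ℝ) ^ (-(a * (p j).1) - qe a β * (p j).2) ≤
      (2 : ℝ) ^ (-(a * π.1) - qe a β * π.2) := by
    intro j hj
    rw [Finset.mem_filter] at hj
    rw [hj.2]
  refine (Finset.sum_le_sum h3).trans ?_
  rw [Finset.sum_const, nsmul_eq_mul]
  unfold xx
  rw [mul_comm]
  refine mul_le_mul_of_nonneg_left ?_ (by positivity)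
  have h4 : s'.filter (fun j => p j = π) ⊆ TT φ f π.1 π.2 := by
    intro j hj
    rw [Finset.mem_filter, hs', Finset.mem_filter] at hj
    have := hp j hj.1.2
    rw [hj.2] at this
    exact this
  exact_mod_cast Finset.card_le_card h4

end Pool.Agent.Helper70x.RS
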