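import Mathlib
import Pool.Agent.N248.RR.S3
import Pool.Agent.Helper70x.RS.Cube
import Pool.Agent.Helper70x.RS.W3
set_option autoImplicit false
set_option linter.unusedSectionVars false

/-! Random sets: the weighted estimates at the endpoint in integral form, and the case of the
sphere. -/

namespace Pool.Agent.Helper70x.RS

open MeasureTheory Set ProbabilityTheory Filter
open Pool.Agent.N248.RR (uq uq_meas uq_vol uq_disj ps ps_inner ps_inner_ps ps_norm ck_mem ps_meas ex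
  ex_norm ex_add ex_cont Energy block_count hit energy_of sS sS_meas sph_energy sph_decay coord_pow
  CEnergy sg_fin)
open Pool.Agent.H789R2.FR (sg T sg_finite sg_ae)
open scoped ENNReal NNReal RealInnerProductSpace

section abs

variable {H : Type*} [NormedAddCommGroup H] [InnerProductSpace ℂ H] {d : ℕ}

theorem end_sum {φ : (Fin d → ℤ) → H} {L β : ℝ} (hφ : EVecs φ L β) (a : ℝ) (ha : 0 < a)
    (ha1 : a < 1) :
    ∃ C : ℝ≥0, ∀ h : H, ∑' j, ENNReal.ofReal ((1 + ‖j‖) ^ (-a)) *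
      ‖inner ℂ (φ j) h‖ₑ ^ (2 + 2 * (1 - a) / β) ≤ C * ‖h‖ₑ ^ (2 + 2 * (1 - a) / β) := by
  classical
  have hβ := hφ.v.g0
  obtain ⟨C, hC⟩ := endpoint hφ a ha ha1
  set q : ℝ := 2 + 2 * (1 - a) / β with hq
  have hq0 : 0 < q := by
    have : 0 < 2 * (1 - a) / β := div_pos (by linarith) hβ
    linarith
  refine ⟨C.toNNReal, fun h => ?_⟩
  rcases eq_or_ne h 0 with h0 | h0
  · subst h0
    refine le_trans (le_of_eq ?_) zero_le
    rw [ENNReal.tsum_eq_zero]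
    intro j
    rw [inner_zero_right, enorm_zero, ENNReal.zero_rpow_of_pos hq0, mul_zero]
  · have hn : 0 < ‖h‖ := norm_pos_iff.2 h0
    set h' : H := ((‖h‖⁻¹ : ℝ) : ℂ) • h with hh'
    have hn' : ‖h'‖ ≤ 1 := by
      rw [hh', norm_smul, Complex.norm_real, norm_inv, norm_norm, inv_mul_cancel₀ hn.ne']
    have hi : ∀ j, ‖inner ℂ (φ j) h‖ₑ = ‖h‖ₑ * ENNReal.ofReal ‖inner ℂ (φ j) h'‖ := by
      intro j
      have h1 : h = ((‖h‖ : ℝ) : ℂ) • h' := by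
        rw [hh', smul_smul, ← Complex.ofReal_mul, mul_inv_cancel₀ hn.ne', Complex.ofReal_one,
          one_smul]
      conv_lhs => rw [h1]
      rw [inner_smul_right, enorm_mul, ofReal_norm]
      congr 1
      rw [← ofReal_norm, Complex.norm_real, norm_norm, ofReal_norm]
    rw [ENNReal.tsum_eq_iSup_sum]
    refine iSup_le fun s => ?_
    have h2 : ∀ j, ENNReal.ofReal ((1 + ‖j‖) ^ (-a)) * ‖inner ℂ (φ j) h‖ₑ ^ q =
        ‖h‖ₑ ^ q * ENNReal.ofReal ((1 + ‖j‖) ^ (-a) * ‖inner ℂ (φ j) h'‖ ^ q) := by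
      intro j
      rw [hi, ENNReal.mul_rpow_of_nonneg _ _ hq0.le,
        ENNReal.ofReal_rpow_of_nonneg (norm_nonneg _) hq0.le, ENNReal.ofReal_mul (by positivity)]
      ring
    simp_rw [h2]
    rw [← Finset.mul_sum, mul_comm]
    refine mul_le_mul' ?_ le_rfl
    rw [← ENNReal.ofReal_sum_of_nonneg fun j _ => by positivity]
    exact ENNReal.ofReal_le_ofReal (hC h' hn' s)

end abs

variable {d : ℕ} {Y : Type*} [MeasurableSpace Y] (μ : Measure Y) [IsFiniteMeasure μ]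
  (Φ : Y → EuclideanSpace ℝ (Fin d)) (hΦ : Measurable Φ)

theorem ph_evecs (L g : ℝ) (hL : 1 ≤ L) (hg : 0 < g)
    (hE : Energy (id : Fin d → Fin d) (ps μ Φ hΦ) L)
    (hdec : ∀ x (t : Fin d), 1 ≤ |x t| → ‖∫ y, ex ⟪Φ y, x⟫ ∂μ‖ ≤ L * |x t| ^ (-g))
    (hdec2 : ∀ x, x ≠ 0 → ‖∫ y, ex ⟪Φ y, x⟫ ∂μ‖ ≤ L * ‖x‖ ^ (-g)) :
    ∃ L', EVecs (ph μ Φ hΦ) L' g := by
  have hk0 := kap_pos μ
  have hk1 := kap_le μ
  have hle : ∀ (j : Fin d → ℤ) (f : Lp ℂ 2 μ),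
      ‖inner ℂ (ph μ Φ hΦ j) f‖ ≤ ‖inner ℂ (ps μ Φ hΦ (tz j)) f‖ := by
    intro j f
    unfold ph
    rw [inner_smul_left, norm_mul, Complex.norm_conj, Complex.norm_real, Real.norm_eq_abs,
      abs_of_pos hk0]
    exact mul_le_of_le_one_left (norm_nonneg _) hk1
  set L2 : ℝ := 4 * 3 ^ d * L * (2 * L) ^ (1 / g) with hL2
  have hL20 : 0 ≤ L2 := by rw [hL2]; positivity
  have hv := ph_vecs μ Φ hΦ L g (by linarith) hg hdec2
  refine ⟨L + 1 + L2, ⟨⟨by linarith, hg, hv.bd, fun i j hij => (hv.dec i j hij).trans ?_⟩, ?_, ?_⟩⟩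
  · exact mul_le_mul_of_nonneg_right (by linarith) (by positivity)
  · intro f τ hτ J s hJ
    have h1 := hE f τ hτ J s hJ tz fun j _ => tz_mem j
    have h2 : ∑ j ∈ J, ‖inner ℂ (ph μ Φ hΦ j) f‖ ^ 2 ≤
        ∑ j ∈ J, ‖inner ℂ (ps μ Φ hΦ (tz j)) f‖ ^ 2 :=
      Finset.sum_le_sum fun j _ => pow_le_pow_left₀ (norm_nonneg _) (hle j f) 2
    refine h2.trans (h1.trans ?_)
    refine mul_le_mul_of_nonneg_right ?_ (by positivity)
    exact mul_le_mul_of_nonneg_right (by linarith) (Nat.cast_nonneg _)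
  · intro f hf lam h0 h1 J hJ
    have h3 := block_count (id : Fin d → Fin d) (ps μ Φ hΦ) L g hL hg hE (by
      intro x y t ht
      rw [ps_inner_ps]
      exact hdec (x - y) t ht) f hf lam h0 h1 J (by
      intro j hj
      exact ⟨tz j, tz_mem j, (hJ j hj).trans (hle j f)⟩)
    refine h3.trans ?_
    exact mul_le_mul_of_nonneg_right (by linarith) (by positivity)

theorem end_int {L β : ℝ} (hφ : EVecs (ph μ Φ hΦ) L β) (a : ℝ) (ha : 0 < a) (ha1 : a < 1) :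
    ∃ C : ℝ≥0, ∀ f : Lp ℂ 2 μ, ∫⁻ x, ENNReal.ofReal ((1 + ‖fl x‖) ^ (-a)) *
      ‖inner ℂ (ps μ Φ hΦ x) f‖ₑ ^ (2 + 2 * (1 - a) / β) ≤
        C * ‖f‖ₑ ^ (2 + 2 * (1 - a) / β) := by
  obtain ⟨C, hC⟩ := end_sum hφ a ha ha1
  have hβ := hφ.v.g0
  set q : ℝ := 2 + 2 * (1 - a) / β with hq
  have hq0 : 0 < q := by
    have : 0 < 2 * (1 - a) / β := div_pos (by linarith) hβ
    linarith
  set κ : ℝ≥0∞ := ENNReal.ofReal (kap μ)⁻¹ with hκ
  have hκt : κ ^ q ≠ ∞ := ENNReal.rpow_ne_top_of_nonneg hq0.le ENNReal.ofReal_ne_top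
  refine ⟨C * (κ ^ q).toNNReal, fun f => ?_⟩
  rw [ENNReal.coe_mul, ENNReal.coe_toNNReal hκt]
  have hgm : Measurable fun x => ‖inner ℂ (ps μ Φ hΦ x) f‖ₑ ^ q :=
    (ps_meas μ Φ hΦ f).enorm.pow_const q
  rw [cube_int (fun j => ENNReal.ofReal ((1 + ‖j‖) ^ (-a))) _ hgm]
  calc ∫⁻ z in uq 0, ∑' j, ENNReal.ofReal ((1 + ‖j‖) ^ (-a)) *
        ‖inner ℂ (ps μ Φ hΦ (tz j + z)) f‖ₑ ^ q
      ≤ ∫⁻ z in uq 0, C * κ ^ q * ‖f‖ₑ ^ q := by
        refine lintegral_mono fun z => ?_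
        have h1 := hC (((kap μ : ℝ) : ℂ)⁻¹ • Mz μ Φ hΦ z f)
        simp_rw [ph_inner] at h1
        refine h1.trans (le_of_eq ?_)
        rw [Mz_enorm, ← hκ, ENNReal.mul_rpow_of_nonneg _ _ hq0.le, mul_assoc]
    _ = _ := by rw [setLIntegral_const, uq_vol, mul_one]

/-- the sphere -/
theorem sph_evecs {n : ℕ} (hn : 2 ≤ n) (s₀ : ℝ) (hs₀ : s₀ ≠ 0) :
    ∃ L', EVecs (ph (sg n) (sS s₀) (sS_meas s₀)) L' (((n : ℝ) - 1) / 2) := by
  have hnR : (2 : ℝ) ≤ n := by exact_mod_cast hn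
  obtain ⟨L₁, hL₁0, hL₁⟩ := sph_energy hn s₀ hs₀
  obtain ⟨L₂, hL₂0, hL₂⟩ := sph_decay hn s₀ hs₀
  have hR : ∀ᵐ w ∂(sg n), ‖sS s₀ w‖ ≤ |s₀| := by
    filter_upwards [sg_ae n] with w hw
    unfold sS
    rw [norm_smul, hw, mul_one, Real.norm_eq_abs]
  obtain ⟨L, hL0, hL⟩ := energy_of (sg n) (sS s₀) (sS_meas s₀) (id : Fin n → Fin n) L₁ hL₁0 hL₁
    |s₀| (abs_nonneg _) hR
  refine ph_evecs (sg n) (sS s₀) (sS_meas s₀) (1 + L + L₂) (((n : ℝ) - 1) / 2) (by linarith)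
    (by linarith) ?_ ?_ ?_
  · intro f τ hτ J s hJ x hx
    refine (hL f τ hτ J s hJ x hx).trans ?_
    refine mul_le_mul_of_nonneg_right ?_ (by positivity)
    exact mul_le_mul_of_nonneg_right (by linarith) (Nat.cast_nonneg _)
  · intro x t hx
    have hx0 : x ≠ 0 := by
      intro h0
      rw [h0] at hx
      simp only [PiLp.zero_apply, abs_zero] at hx
      linarith
    refine (hL₂ x hx0).trans ?_
    exact mul_le_mul (by linarith) (coord_pow hn x t hx) (by positivity) (by linarith)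
  · intro x hx
    refine (hL₂ x hx).trans ?_
    exact mul_le_mul_of_nonneg_right (by linarith) (by positivity)

/-- the weighted estimate at the endpoint for the sphere -/
theorem sph_end {n : ℕ} (hn : 2 ≤ n) (s₀ : ℝ) (hs₀ : s₀ ≠ 0) (a : ℝ) (ha : 0 < a) (ha1 : a < 1) :
    ∃ C : ℝ≥0, ∀ f : Lp ℂ 2 (sg n), ∫⁻ x, ENNReal.ofReal ((1 + ‖fl x‖) ^ (-a)) *
      ‖inner ℂ (ps (sg n) (sS s₀) (sS_meas s₀) x) f‖ₑ ^ (2 + 4 * (1 - a) / ((n : ℝ) - 1)) ≤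
        C * ‖f‖ₑ ^ (2 + 4 * (1 - a) / ((n : ℝ) - 1)) := by
  have hnR : (2 : ℝ) ≤ n := by exact_mod_cast hn
  have hn1 : (n : ℝ) - 1 ≠ 0 := by linarith
  obtain ⟨L, hL⟩ := sph_evecs hn s₀ hs₀
  have e : 2 + 4 * (1 - a) / ((n : ℝ) - 1) = 2 + 2 * (1 - a) / (((n : ℝ) - 1) / 2) := by
    field_simp
    ring
  rw [e]
  exact end_int (sg n) (sS s₀) (sS_meas s₀) hL a ha ha1

end Pool.Agent.Helper70x.RS
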