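import Mathlib
import Pool.Agent.N248.RR.S4
import Pool.Agent.Helper70x.RS.SphA
set_option autoImplicit false
set_option linter.unusedSectionVars false

/-! Random sets: the weighted estimates for bounded functions and the local form of Stein's
conjecture. -/

namespace Pool.Agent.Helper70x.RS

open MeasureTheory Set ProbabilityTheory Filter
open Pool.Agent.N248.RR (uq uq_meas uq_vol uq_disj ps ps_inner ps_meas ex ex_norm ex_cont sS sS_meas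
  sph_energy sg_fin sF sF_norm Ann exists_ann)
open Pool.Agent.H789R2.FR (sg T sg_finite sg_ae)
open scoped ENNReal NNReal RealInnerProductSpace

theorem ann_coord {d : ℕ} (i : ℕ) (x : EuclideanSpace ℝ (Fin d)) (hx : fl x ∈ Ann d i) (t : Fin d) :
    |x t| ≤ 2 ^ (i + 1) := by
  have h1 : |((fl x t : ℤ) : ℝ)| ≤ ‖fl x‖ := Pool.Agent.N248.RR.abs_coord (fl x) t
  have h2 : ‖fl x‖ + 1 ≤ 2 ^ (i + 1) := by linarith [hx.2]
  have h3 : |x t| ≤ |((fl x t : ℤ) : ℝ)| + 1 := by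
    unfold fl
    have e1 := Int.floor_le (x t)
    have e2 := Int.lt_floor_add_one (x t)
    rw [abs_le]
    have e3 := neg_abs_le ((⌊x t⌋ : ℤ) : ℝ)
    have e4 := le_abs_self ((⌊x t⌋ : ℤ) : ℝ)
    constructor <;> linarith
  linarith

theorem ann_ball {d : ℕ} (i : ℕ) (x : EuclideanSpace ℝ (Fin d)) (hx : fl x ∈ Ann d i) :
    x ∈ Metric.ball (0 : EuclideanSpace ℝ (Fin d)) (((d : ℝ) + 1) * 2 ^ (i + 1)) := by
  rw [mem_ball_zero_iff]
  have h1 : ‖x‖ ^ 2 ≤ d * ((2 : ℝ) ^ (i + 1)) ^ 2 := by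
    rw [EuclideanSpace.norm_sq_eq]
    calc ∑ t : Fin d, ‖x t‖ ^ 2 ≤ ∑ _t : Fin d, ((2 : ℝ) ^ (i + 1)) ^ 2 :=
          Finset.sum_le_sum fun t _ => pow_le_pow_left₀ (norm_nonneg _) (by
            rw [Real.norm_eq_abs]; exact ann_coord i x hx t) 2
      _ = d * ((2 : ℝ) ^ (i + 1)) ^ 2 := by
          rw [Finset.sum_const, Finset.card_univ, Fintype.card_fin, nsmul_eq_mul]
  have h2 : ‖x‖ ^ 2 < (((d : ℝ) + 1) * 2 ^ (i + 1)) ^ 2 := by
    refine h1.trans_lt ?_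
    rw [mul_pow]
    refine mul_lt_mul_of_pos_right ?_ (by positivity)
    have : (0 : ℝ) ≤ d := Nat.cast_nonneg d
    nlinarith
  exact lt_of_pow_lt_pow_left₀ 2 (by positivity) h2

theorem ann_meas {d : ℕ} (i : ℕ) :
    MeasurableSet {x : EuclideanSpace ℝ (Fin d) | fl x ∈ Ann d i} :=
  fl_meas (Set.to_countable (Ann d i)).measurableSet

/-- weighted estimates from estimates in `L²` and `L^p` for balls -/
theorem shells {d : ℕ} (a p q ε : ℝ) (hq2 : 2 < q) (hqp : q < p)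
    (ha : (p - q) / (p - 2) + ε * ((q - 2) / (p - 2)) < a) (hε : 0 ≤ ε) (K₂ Kp : ℝ≥0) :
    ∃ K : ℝ≥0, ∀ (G : EuclideanSpace ℝ (Fin d) → ℝ≥0∞) (N : ℝ≥0∞), Measurable G →
      (∀ B : Set (EuclideanSpace ℝ (Fin d)), MeasurableSet B → ∀ (α : Fin d → ℝ) (τ : ℝ), 1 ≤ τ →
        (∀ x ∈ B, ∀ t, α t ≤ x t ∧ x t ≤ α t + τ) →
        ∫⁻ x in B, G x ^ (2 : ℝ) ≤ K₂ * ENNReal.ofReal τ * N ^ (2 : ℝ)) →
      (∀ R : ℝ, 1 ≤ R → ∫⁻ x in Metric.ball 0 R, G x ^ p ≤ Kp * ENNReal.ofReal (R ^ ε) * N ^ p) →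
      ∫⁻ x, ENNReal.ofReal ((1 + ‖fl x‖) ^ (-a)) * G x ^ q ≤ K * N ^ q := by
  have hp2 : 0 < p - 2 := by linarith
  set α : ℝ := (p - q) / (p - 2) with hα
  set β : ℝ := (q - 2) / (p - 2) with hβ
  have hα0 : 0 ≤ α := div_nonneg (by linarith) hp2.le
  have hβ0 : 0 ≤ β := div_nonneg (by linarith) hp2.le
  have hαβ : α + β = 1 := by rw [hα, hβ]; field_simp; ring
  have hq : 2 * α + p * β = q := by rw [hα, hβ]; field_simp; ring
  set C₁ : ℝ≥0∞ := (K₂ * 4) ^ α * (Kp * ENNReal.ofReal ((((d : ℝ) + 1) * 2) ^ ε)) ^ β with hC₁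
  have hC₁t : C₁ ≠ ∞ := by
    refine ENNReal.mul_ne_top (ENNReal.rpow_ne_top_of_nonneg hα0 ?_)
      (ENNReal.rpow_ne_top_of_nonneg hβ0 ?_)
    · exact ENNReal.mul_ne_top ENNReal.coe_ne_top (by norm_num)
    · exact ENNReal.mul_ne_top ENNReal.coe_ne_top ENNReal.ofReal_ne_top
  set ρ : ℝ := (2 : ℝ) ^ (α + ε * β - a) with hρ
  have hρ0 : 0 < ρ := by positivity
  have hρ1 : ρ < 1 := Real.rpow_lt_one_of_one_lt_of_neg (by norm_num) (by linarith)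
  set Sg : ℝ≥0∞ := ∑' i : ℕ, ENNReal.ofReal (ρ ^ i) with hSg
  have hSgt : Sg ≠ ∞ := (summable_geometric_of_lt_one hρ0.le hρ1).tsum_ofReal_ne_top
  have hKt : C₁ * Sg ≠ ∞ := ENNReal.mul_ne_top hC₁t hSgt
  refine ⟨(C₁ * Sg).toNNReal, fun G N hG h2 hp => ?_⟩
  rw [ENNReal.coe_toNNReal hKt]
  have hcov : (⋃ i : ℕ, {x : EuclideanSpace ℝ (Fin d) | fl x ∈ Ann d i}) = univ := by
    rw [eq_univ_iff_forall]
    intro x
    obtain ⟨i, hi⟩ := exists_ann (fl x)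
    exact mem_iUnion.2 ⟨i, hi⟩
  have hGp : ∀ x, G x ^ q = (G x ^ (2 : ℝ)) ^ α * (G x ^ p) ^ β := by
    intro x
    rw [← ENNReal.rpow_mul, ← ENNReal.rpow_mul, ← ENNReal.rpow_add_of_nonneg _ _ (by positivity)
      (by have : 0 < p := by linarith
          positivity), hq]
  have hshell : ∀ i : ℕ, ∫⁻ x in {x | fl x ∈ Ann d i},
      ENNReal.ofReal ((1 + ‖fl x‖) ^ (-a)) * G x ^ q ≤
        C₁ * N ^ q * ENNReal.ofReal (ρ ^ i) := by
    intro i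
    have h2i : (0 : ℝ) < 2 ^ i := by positivity
    have s1 : ∫⁻ x in {x | fl x ∈ Ann d i}, ENNReal.ofReal ((1 + ‖fl x‖) ^ (-a)) * G x ^ q ≤
        ∫⁻ x in {x | fl x ∈ Ann d i}, ENNReal.ofReal (((2 : ℝ) ^ i) ^ (-a)) * G x ^ q := by
      refine setLIntegral_mono' (ann_meas i) fun x hx => ?_
      refine mul_le_mul' (ENNReal.ofReal_le_ofReal ?_) le_rfl
      have hx' : fl x ∈ Ann d i := hx
      have ha0 : 0 < a := by
        have : 0 ≤ ε * β := by positivity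
        linarith
      exact Real.rpow_le_rpow_of_nonpos h2i hx'.1 (by linarith)
    have s2 : ∫⁻ x in {x | fl x ∈ Ann d i}, G x ^ q ≤
        (K₂ * ENNReal.ofReal (2 ^ (i + 2)) * N ^ (2 : ℝ)) ^ α *
          (Kp * ENNReal.ofReal ((((d : ℝ) + 1) * 2 ^ (i + 1)) ^ ε) * N ^ p) ^ β := by
      simp_rw [hGp]
      refine (ENNReal.lintegral_mul_norm_pow_le (hG.pow_const _).aemeasurable
        (hG.pow_const _).aemeasurable hα0 hβ0 hαβ).trans ?_
      refine mul_le_mul' (ENNReal.rpow_le_rpow ?_ hα0) (ENNReal.rpow_le_rpow ?_ hβ0)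
      · refine h2 _ (ann_meas i) (fun _ => -2 ^ (i + 1)) (2 ^ (i + 2))
          (one_le_pow₀ (by norm_num)) ?_
        intro x hx t
        have h3 := abs_le.1 (ann_coord i x hx t)
        have h4 : (2 : ℝ) ^ (i + 2) = 2 * 2 ^ (i + 1) := by ring
        rw [h4]
        constructor <;> linarith [h3.1, h3.2]
      · refine le_trans (lintegral_mono_set fun x hx => ann_ball i x hx) (hp _ ?_)
        have h5 : (1 : ℝ) ≤ 2 ^ (i + 1) := one_le_pow₀ (by norm_num)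
        have h6 : (0 : ℝ) ≤ d := Nat.cast_nonneg d
        nlinarith
    have s3 : (K₂ * ENNReal.ofReal (2 ^ (i + 2)) * N ^ (2 : ℝ)) ^ α *
          (Kp * ENNReal.ofReal ((((d : ℝ) + 1) * 2 ^ (i + 1)) ^ ε) * N ^ p) ^ β =
        C₁ * N ^ q * ENNReal.ofReal (((2 : ℝ) ^ i) ^ (α + ε * β)) := by
      have e1 : ENNReal.ofReal (2 ^ (i + 2)) = 4 * ENNReal.ofReal (2 ^ i) := by
        rw [show (4 : ℝ≥0∞) = ENNReal.ofReal 4 by norm_num, ← ENNReal.ofReal_mul (by norm_num)]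
        congr 1
        ring
      have e2 : ENNReal.ofReal ((((d : ℝ) + 1) * 2 ^ (i + 1)) ^ ε) =
          ENNReal.ofReal ((((d : ℝ) + 1) * 2) ^ ε) * ENNReal.ofReal (2 ^ i) ^ ε := by
        rw [ENNReal.ofReal_rpow_of_pos h2i, ← ENNReal.ofReal_mul (by positivity),
          ← Real.mul_rpow (by positivity) (by positivity)]
        congr 2
        ring
      have e3 : ENNReal.ofReal (((2 : ℝ) ^ i) ^ (α + ε * β)) =
          ENNReal.ofReal (2 ^ i) ^ α * (ENNReal.ofReal (2 ^ i) ^ ε) ^ β := by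
        rw [← ENNReal.rpow_mul, ← ENNReal.rpow_add_of_nonneg _ _ hα0 (by positivity),
          ENNReal.ofReal_rpow_of_pos h2i]
      have e4 : N ^ q = (N ^ (2 : ℝ)) ^ α * (N ^ p) ^ β := by
        rw [← ENNReal.rpow_mul, ← ENNReal.rpow_mul, ← ENNReal.rpow_add_of_nonneg _ _ (by positivity)
          (by have : 0 < p := by linarith
              positivity), hq]
      rw [e1, e2, e3, e4, hC₁, ENNReal.mul_rpow_of_nonneg _ _ hα0,
        ENNReal.mul_rpow_of_nonneg _ _ hα0, ENNReal.mul_rpow_of_nonneg _ _ hα0,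
        ENNReal.mul_rpow_of_nonneg _ _ hβ0, ENNReal.mul_rpow_of_nonneg _ _ hβ0,
        ENNReal.mul_rpow_of_nonneg _ _ hβ0, ENNReal.mul_rpow_of_nonneg _ _ hα0,
        ENNReal.mul_rpow_of_nonneg _ _ hβ0]
      ring
    refine s1.trans ?_
    rw [lintegral_const_mul _ (hG.pow_const q)]
    refine (mul_le_mul' le_rfl (s2.trans (le_of_eq s3))).trans (le_of_eq ?_)
    have e5 : ρ ^ i = ((2 : ℝ) ^ i) ^ (-a) * ((2 : ℝ) ^ i) ^ (α + ε * β) := by
      rw [← Real.rpow_add h2i, hρ, ← Real.rpow_natCast, ← Real.rpow_mul (by norm_num),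
        ← Real.rpow_natCast 2 i, ← Real.rpow_mul (by norm_num)]
      congr 1
      ring
    rw [e5, ENNReal.ofReal_mul (by positivity)]
    ring
  calc ∫⁻ x, ENNReal.ofReal ((1 + ‖fl x‖) ^ (-a)) * G x ^ q
      = ∫⁻ x in ⋃ i : ℕ, {x | fl x ∈ Ann d i}, ENNReal.ofReal ((1 + ‖fl x‖) ^ (-a)) * G x ^ q := by
        rw [hcov, Measure.restrict_univ]
    _ ≤ ∑' i : ℕ, ∫⁻ x in {x | fl x ∈ Ann d i},
        ENNReal.ofReal ((1 + ‖fl x‖) ^ (-a)) * G x ^ q := lintegral_iUnion_le _ _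
    _ ≤ ∑' i : ℕ, C₁ * N ^ q * ENNReal.ofReal (ρ ^ i) := ENNReal.tsum_le_tsum hshell
    _ = C₁ * Sg * N ^ q := by
        rw [ENNReal.tsum_mul_left, ← hSg]
        ring

/-- estimates for balls from weighted estimates -/
theorem unshell {d : ℕ} (a q R : ℝ) (ha : 0 ≤ a) (hR : 1 ≤ R)
    (G : EuclideanSpace ℝ (Fin d) → ℝ≥0∞) (X : ℝ≥0∞)
    (h : ∫⁻ x, ENNReal.ofReal ((1 + ‖fl x‖) ^ (-a)) * G x ^ q ≤ X) :
    ∫⁻ x in Metric.ball 0 R, G x ^ q ≤ ENNReal.ofReal ((3 * R) ^ a) * X := by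
  have h1 : ∀ x ∈ Metric.ball (0 : EuclideanSpace ℝ (Fin d)) R, G x ^ q ≤
      ENNReal.ofReal ((3 * R) ^ a) * (ENNReal.ofReal ((1 + ‖fl x‖) ^ (-a)) * G x ^ q) := by
    intro x hx
    rw [mem_ball_zero_iff] at hx
    have h2 : ‖fl x‖ ≤ R + 1 := by
      rw [pi_norm_le_iff_of_nonneg (by linarith)]
      intro t
      rw [Int.norm_eq_abs]
      have h3 : |x t| ≤ R := by
        have := PiLp.norm_apply_le x t
        rw [Real.norm_eq_abs] at this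
        linarith
      have e1 := Int.floor_le (x t)
      have e2 := Int.lt_floor_add_one (x t)
      have e3 := abs_le.1 h3
      unfold fl
      rw [abs_le]
      constructor <;> linarith [e3.1, e3.2]
    have h4 : 0 < 1 + ‖fl x‖ := by positivity
    have h5 : 1 ≤ (3 * R) ^ a * (1 + ‖fl x‖) ^ (-a) := by
      rw [Real.rpow_neg h4.le, ← div_eq_mul_inv, ← Real.div_rpow (by linarith) h4.le]
      refine Real.one_le_rpow ?_ ha
      rw [le_div_iff₀ h4]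
      linarith
    rw [← mul_assoc, ← ENNReal.ofReal_mul (by positivity)]
    refine le_mul_of_one_le_left' ?_
    rw [← ENNReal.ofReal_one]
    exact ENNReal.ofReal_le_ofReal h5
  calc ∫⁻ x in Metric.ball 0 R, G x ^ q ≤ ∫⁻ x in Metric.ball 0 R,
        ENNReal.ofReal ((3 * R) ^ a) * (ENNReal.ofReal ((1 + ‖fl x‖) ^ (-a)) * G x ^ q) :=
        setLIntegral_mono' Metric.isOpen_ball.measurableSet h1
    _ ≤ ∫⁻ x, ENNReal.ofReal ((3 * R) ^ a) *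
          (ENNReal.ofReal ((1 + ‖fl x‖) ^ (-a)) * G x ^ q) := setLIntegral_le_lintegral _ _
    _ = ENNReal.ofReal ((3 * R) ^ a) *
          ∫⁻ x, ENNReal.ofReal ((1 + ‖fl x‖) ^ (-a)) * G x ^ q :=
        lintegral_const_mul' _ _ ENNReal.ofReal_ne_top
    _ ≤ _ := mul_le_mul' le_rfl h

variable {n : ℕ}

/-- a density as an element of the Hilbert space -/
theorem sF_ps (s₀ : ℝ) (f : EuclideanSpace ℝ (Fin n) → ℂ) (hf : MemLp f 2 (sg n))
    (x : EuclideanSpace ℝ (Fin n)) :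
    inner ℂ (ps (sg n) (sS s₀) (sS_meas s₀) x) (hf.toLp f) = sF s₀ f x := by
  rw [ps_inner]
  unfold sF
  refine integral_congr_ae ?_
  filter_upwards [hf.coeFn_toLp] with y hy
  rw [hy]

theorem sF_measurable (s₀ : ℝ) (f : EuclideanSpace ℝ (Fin n) → ℂ) (hf : MemLp f 2 (sg n)) :
    Measurable (sF s₀ f) := by
  have h := ps_meas (sg n) (sS s₀) (sS_meas s₀) (hf.toLp f)
  simp_rw [sF_ps] at h
  exact h

/-- **The weighted estimates for bounded functions** follow from the local form of Stein's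
conjecture. -/
theorem stein_fwd (hn : 2 ≤ n) (s₀ : ℝ) (hs₀ : s₀ ≠ 0)
    (hloc : ∀ p : ℝ, 2 * n / ((n : ℝ) - 1) < p → ∀ ε : ℝ, 0 < ε → ∃ C : ℝ≥0, ∀ R : ℝ, 1 ≤ R →
      ∀ f : EuclideanSpace ℝ (Fin n) → ℂ, MemLp f ∞ (sg n) →
        ∫⁻ x in Metric.ball 0 R, ‖sF s₀ f x‖ₑ ^ p ≤
          C * ENNReal.ofReal (R ^ ε) * eLpNorm f ∞ (sg n) ^ p)
    (a : ℝ) (ha : 0 < a) (ha1 : a < 1) (q : ℝ) (hq : 2 * (n - a) / ((n : ℝ) - 1) < q) :
    ∃ C : ℝ≥0, ∀ f : EuclideanSpace ℝ (Fin n) → ℂ, MemLp f ∞ (sg n) →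
      ∫⁻ x, ENNReal.ofReal ((1 + ‖fl x‖) ^ (-a)) * ‖sF s₀ f x‖ₑ ^ q ≤
        C * eLpNorm f ∞ (sg n) ^ q := by
  have hnR : (2 : ℝ) ≤ n := by exact_mod_cast hn
  have hn1 : (0 : ℝ) < n - 1 := by linarith
  set p₀ : ℝ := 2 * n / ((n : ℝ) - 1) with hp₀
  have hp₀e : (p₀ - 2) * ((n : ℝ) - 1) = 2 := by rw [hp₀]; field_simp; ring
  have hp₀2 : 2 < p₀ := by
    rw [hp₀, lt_div_iff₀ hn1]
    linarith
  set qa : ℝ := 2 * (n - a) / ((n : ℝ) - 1) with hqa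
  have hqae : qa = p₀ - a * (p₀ - 2) := by
    rw [hqa, hp₀]
    field_simp
    ring
  have hqa2 : 2 < qa := by rw [hqae]; nlinarith
  have hqap : qa < p₀ := by rw [hqae]; nlinarith
  -- the exponents
  obtain ⟨q₁, hq₁1, hq₁2⟩ : ∃ q₁, qa < q₁ ∧ q₁ < min q p₀ :=
    exists_between (lt_min hq hqap)
  have hq₁q : q₁ < q := hq₁2.trans_le (min_le_left _ _)
  have hq₁p : q₁ < p₀ := hq₁2.trans_le (min_le_right _ _)
  set p : ℝ := p₀ + (q₁ - qa) / 2 with hp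
  have hpp : p₀ < p := by rw [hp]; linarith
  have hp2 : 0 < p - 2 := by linarith
  have hfrac : (p - q₁) / (p - 2) < a := by
    rw [div_lt_iff₀ hp2, hp]
    nlinarith
  set ε : ℝ := (a - (p - q₁) / (p - 2)) / 2 with hε
  have hε0 : 0 < ε := by rw [hε]; linarith
  have hβ1 : (q₁ - 2) / (p - 2) ≤ 1 := by
    rw [div_le_one hp2]
    linarith
  have hβ0 : 0 ≤ (q₁ - 2) / (p - 2) := div_nonneg (by linarith) hp2.le
  have hsum : (p - q₁) / (p - 2) + ε * ((q₁ - 2) / (p - 2)) < a := by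
    have : ε * ((q₁ - 2) / (p - 2)) ≤ ε := mul_le_of_le_one_right hε0.le hβ1
    have h2 : ε < a - (p - q₁) / (p - 2) := by rw [hε]; linarith
    linarith
  obtain ⟨C, hC⟩ := hloc p hpp ε hε0
  obtain ⟨L, hL0, hL⟩ := sph_energy hn s₀ hs₀
  set S : ℝ≥0∞ := (sg n) univ ^ (1 / (2 : ℝ≥0∞).toReal - 1 / (∞ : ℝ≥0∞).toReal) with hS
  have hexp : 0 ≤ 1 / (2 : ℝ≥0∞).toReal - 1 / (∞ : ℝ≥0∞).toReal := by simp
  have hSt : S ≠ ∞ := ENNReal.rpow_ne_top_of_nonneg hexp (measure_ne_top _ _)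
  set K₂ : ℝ≥0∞ := ENNReal.ofReal L * S ^ (2 : ℝ) with hK₂
  have hK₂t : K₂ ≠ ∞ := ENNReal.mul_ne_top ENNReal.ofReal_ne_top
    (ENNReal.rpow_ne_top_of_nonneg (by norm_num) hSt)
  obtain ⟨K, hK⟩ := shells (d := n) a p q₁ ε (by linarith) (by linarith) hsum hε0.le
    K₂.toNNReal C
  set M : ℝ≥0∞ := (sg n) univ with hM
  have hMt : M ≠ ∞ := measure_ne_top _ _
  have hMq : M ^ (q - q₁) ≠ ∞ := ENNReal.rpow_ne_top_of_nonneg (by linarith) hMt
  refine ⟨K * (M ^ (q - q₁)).toNNReal, fun f hf => ?_⟩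
  rw [ENNReal.coe_mul, ENNReal.coe_toNNReal hMq]
  have hf2 : MemLp f 2 (sg n) := hf.mono_exponent le_top
  set N : ℝ≥0∞ := eLpNorm f ∞ (sg n) with hN
  have hGm : Measurable fun x => ‖sF s₀ f x‖ₑ := (sF_measurable s₀ f hf2).enorm
  have key := hK (fun x => ‖sF s₀ f x‖ₑ) N hGm (by
    intro B hB α τ hτ hBα
    have h1 := hL (hf2.toLp f) B hB α τ hτ hBα
    simp_rw [sF_ps] at h1
    have h2 : ENNReal.ofReal (‖hf2.toLp f‖ ^ 2) ≤ (N * S) ^ (2 : ℝ) := by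
      rw [ENNReal.ofReal_pow (norm_nonneg _), ofReal_norm, ENNReal.rpow_two, Lp.enorm_toLp]
      refine pow_le_pow_left' ?_ 2
      exact eLpNorm_le_eLpNorm_mul_rpow_measure_univ le_top hf.1
    simp_rw [ENNReal.rpow_two]
    refine h1.trans ((mul_le_mul' le_rfl h2).trans (le_of_eq ?_))
    rw [ENNReal.coe_toNNReal hK₂t, hK₂, ENNReal.ofReal_mul hL0,
      ENNReal.mul_rpow_of_nonneg _ _ (by norm_num : (0 : ℝ) ≤ 2)]
    simp only [ENNReal.rpow_two]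
    ring) (fun R hR => hC R hR f hf)
  have hb : ∀ x, ‖sF s₀ f x‖ₑ ≤ M * N := by
    intro x
    refine (sF_norm s₀ f x).trans ?_
    have h3 := eLpNorm_le_eLpNorm_mul_rpow_measure_univ (p := 1) (q := ∞) le_top hf.1
    simp only [ENNReal.toReal_one, ENNReal.toReal_top, div_zero, sub_zero, div_one,
      ENNReal.rpow_one] at h3
    rw [mul_comm]
    exact h3
  calc ∫⁻ x, ENNReal.ofReal ((1 + ‖fl x‖) ^ (-a)) * ‖sF s₀ f x‖ₑ ^ q
      ≤ ∫⁻ x, (M * N) ^ (q - q₁) *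
          (ENNReal.ofReal ((1 + ‖fl x‖) ^ (-a)) * ‖sF s₀ f x‖ₑ ^ q₁) := by
        refine lintegral_mono fun x => ?_
        have h4 : ‖sF s₀ f x‖ₑ ^ q ≤ ‖sF s₀ f x‖ₑ ^ q₁ * (M * N) ^ (q - q₁) := by
          calc ‖sF s₀ f x‖ₑ ^ q = ‖sF s₀ f x‖ₑ ^ (q₁ + (q - q₁)) := by congr 1; ring
            _ = ‖sF s₀ f x‖ₑ ^ q₁ * ‖sF s₀ f x‖ₑ ^ (q - q₁) :=
                ENNReal.rpow_add_of_nonneg _ _ (by linarith) (by linarith)
            _ ≤ _ := mul_le_mul' le_rfl (ENNReal.rpow_le_rpow (hb x) (by linarith))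
        calc ENNReal.ofReal ((1 + ‖fl x‖) ^ (-a)) * ‖sF s₀ f x‖ₑ ^ q ≤
              ENNReal.ofReal ((1 + ‖fl x‖) ^ (-a)) *
                (‖sF s₀ f x‖ₑ ^ q₁ * (M * N) ^ (q - q₁)) := mul_le_mul' le_rfl h4
          _ = _ := by ring
    _ = (M * N) ^ (q - q₁) * ∫⁻ x, ENNReal.ofReal ((1 + ‖fl x‖) ^ (-a)) * ‖sF s₀ f x‖ₑ ^ q₁ := by
        refine lintegral_const_mul' _ _ ?_
        exact ENNReal.rpow_ne_top_of_nonneg (by linarith) (ENNReal.mul_ne_top hMt hf.2.ne)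
    _ ≤ (M * N) ^ (q - q₁) * (K * N ^ q₁) := mul_le_mul' le_rfl key
    _ = K * M ^ (q - q₁) * N ^ q := by
        rw [ENNReal.mul_rpow_of_nonneg _ _ (by linarith : (0 : ℝ) ≤ q - q₁)]
        have h5 : N ^ q = N ^ (q - q₁) * N ^ q₁ := by
          rw [← ENNReal.rpow_add_of_nonneg _ _ (by linarith) (by linarith)]
          congr 1
          ring
        rw [h5]
        ring

end Pool.Agent.Helper70x.RS
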