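import Mathlib
import Pool.Agent.Helper70x.RS.Stein
set_option autoImplicit false
set_option linter.unusedSectionVars false

/-! Random sets: the equivalence of estimates on random sets and of local estimates with a loss. -/

namespace Pool.Agent.Helper70x.RS

open MeasureTheory Set ProbabilityTheory Filter
open Pool.Agent.N248.RR (uq uq_meas uq_vol uq_disj ps ps_inner ps_meas ex ex_norm ex_cont Ann
  exists_ann)
open scoped ENNReal NNReal RealInnerProductSpace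

section abs

variable {H : Type*} [NormedAddCommGroup H] [InnerProductSpace ℂ H] {d : ℕ}

/-- the estimates for large exponents -/
theorem high_sum {φ : (Fin d → ℤ) → H} {L γ : ℝ} (hφ : Vecs φ L γ) :
    ∃ K : ℕ, ∀ q : ℝ, (K : ℝ) < q → ∃ C : ℝ≥0, ∀ h : H,
      ∑' j, ‖inner ℂ (φ j) h‖ₑ ^ q ≤ C * ‖h‖ₑ ^ q := by
  classical
  obtain ⟨K, hK⟩ := all_count hφ
  refine ⟨K, fun q hq => ?_⟩
  have hq0 : 0 < q := lt_of_le_of_lt (Nat.cast_nonneg K) hq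
  set ρ : ℝ := (2 : ℝ) ^ ((K : ℝ) - q) with hρ
  have hρ0 : 0 < ρ := by positivity
  have hρ1 : ρ < 1 := Real.rpow_lt_one_of_one_lt_of_neg (by norm_num) (by linarith)
  set Sg : ℝ≥0∞ := ∑' l : ℕ, ENNReal.ofReal (2 ^ (2 * K) * ρ ^ l) with hSg
  have hSgt : Sg ≠ ∞ :=
    ((summable_geometric_of_lt_one hρ0.le hρ1).mul_left _).tsum_ofReal_ne_top
  refine ⟨Sg.toNNReal, fun h => ?_⟩
  rw [ENNReal.coe_toNNReal hSgt]
  rcases eq_or_ne h 0 with h0 | h0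
  · subst h0
    refine le_trans (le_of_eq ?_) zero_le
    rw [ENNReal.tsum_eq_zero]
    intro j
    rw [inner_zero_right, enorm_zero, ENNReal.zero_rpow_of_pos hq0]
  · have hn : 0 < ‖h‖ := norm_pos_iff.2 h0
    set h' : H := ((‖h‖⁻¹ : ℝ) : ℂ) • h with hh'
    have hn' : ‖h'‖ ≤ 1 := by
      rw [hh', norm_smul, Complex.norm_real, norm_inv, norm_norm, inv_mul_cancel₀ hn.ne']
    have hi : ∀ j, ‖inner ℂ (φ j) h‖ₑ = ‖h‖ₑ * ENNReal.ofReal ‖inner ℂ (φ j) h'‖ := by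
      intro j
      have h1 : h = ((‖h‖ : ℝ) : ℂ) • h' := by
        rw [hh', smul_smul, ← Complex.ofReal_mul, mul_inv_cancel₀ hn.ne', Complex.ofReal_one,
          one_smul]
      conv_lhs => rw [h1]
      rw [inner_smul_right, enorm_mul, ofReal_norm]
      congr 1
      rw [← ofReal_norm, Complex.norm_real, norm_norm, ofReal_norm]
    have h2 : ∀ j, ‖inner ℂ (φ j) h‖ₑ ^ q =
        ‖h‖ₑ ^ q * ENNReal.ofReal ‖inner ℂ (φ j) h'‖ ^ q := by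
      intro j
      rw [hi, ENNReal.mul_rpow_of_nonneg _ _ hq0.le]
    simp_rw [h2]
    rw [ENNReal.tsum_mul_left, mul_comm]
    refine mul_le_mul' ?_ le_rfl
    have hle1 : ∀ j, ‖inner ℂ (φ j) h'‖ ≤ 1 := fun j =>
      (norm_inner_le_norm _ _).trans (mul_le_one₀ (hφ.bd j) (norm_nonneg _) hn')
    calc ∑' j, ENNReal.ofReal ‖inner ℂ (φ j) h'‖ ^ q
        ≤ ∑' j, ∑' l : ℕ, (if (1 / 2 : ℝ) ^ (l + 1) < ‖inner ℂ (φ j) h'‖ then
            ENNReal.ofReal ((1 / 2) ^ l) ^ q else 0) :=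
          ENNReal.tsum_le_tsum fun j => pt_up q hq0 _ (hle1 j)
      _ = ∑' l : ℕ, ∑' j, (if (1 / 2 : ℝ) ^ (l + 1) < ‖inner ℂ (φ j) h'‖ then
            ENNReal.ofReal ((1 / 2) ^ l) ^ q else 0) := ENNReal.tsum_comm
      _ ≤ ∑' l : ℕ, ENNReal.ofReal (2 ^ (2 * K) * ρ ^ l) := by
          refine ENNReal.tsum_le_tsum fun l => ?_
          rw [ENNReal.tsum_eq_iSup_sum]
          refine iSup_le fun s => ?_
          rw [← Finset.sum_filter, Finset.sum_const, nsmul_eq_mul]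
          have h3 := hK (l + 1) h' hn'
            (s.filter fun j => (1 / 2 : ℝ) ^ (l + 1) < ‖inner ℂ (φ j) h'‖)
            (fun j hj => (Finset.mem_filter.1 hj).2)
          have e1 : ENNReal.ofReal ((1 / 2) ^ l) ^ q = ENNReal.ofReal (((1 / 2 : ℝ) ^ l) ^ q) :=
            ENNReal.ofReal_rpow_of_pos (by positivity)
          rw [e1, ← ENNReal.ofReal_natCast, ← ENNReal.ofReal_mul (Nat.cast_nonneg _)]
          refine ENNReal.ofReal_le_ofReal ?_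
          have e2 : (2 : ℝ) ^ (2 * K) * ρ ^ l = 2 ^ (K * (l + 1 + 1)) * ((1 / 2 : ℝ) ^ l) ^ q := by
            have e3 : ((1 / 2 : ℝ) ^ l) ^ q = (2 : ℝ) ^ (-(q * l)) := by
              rw [one_div, ← Real.rpow_natCast, ← Real.rpow_mul (by norm_num), Real.inv_rpow
                (by norm_num), ← Real.rpow_neg (by norm_num)]
              congr 1
              ring
            have e4 : ρ ^ l = (2 : ℝ) ^ (((K : ℝ) - q) * l) := by
              rw [hρ, ← Real.rpow_natCast, ← Real.rpow_mul (by norm_num)]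
            rw [e3, e4, ← Real.rpow_natCast, ← Real.rpow_natCast, ← Real.rpow_add (by norm_num),
              ← Real.rpow_add (by norm_num)]
            congr 1
            push_cast
            ring
          rw [e2]
          exact mul_le_mul_of_nonneg_right h3 (by positivity)

end abs

/-- weighted estimates from local estimates with a loss and an estimate for a large exponent -/
theorem shells2 {d : ℕ} (a q₁ q p : ℝ) (ha : 0 < a) (h1q : q₁ < q) (hqp : q < p) (hq₁ : 0 < q₁)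
    (K₁ Kp : ℝ≥0) :
    ∃ K : ℝ≥0, ∀ (G : EuclideanSpace ℝ (Fin d) → ℝ≥0∞) (N : ℝ≥0∞), Measurable G →
      (∀ R : ℝ, 1 ≤ R → ∫⁻ x in Metric.ball 0 R, G x ^ q₁ ≤
        K₁ * ENNReal.ofReal (R ^ a) * N ^ q₁) →
      (∫⁻ x, G x ^ p ≤ Kp * N ^ p) →
      ∫⁻ x, ENNReal.ofReal ((1 + ‖fl x‖) ^ (-a)) * G x ^ q ≤ K * N ^ q := by
  have hp2 : 0 < p - q₁ := by linarith
  set α : ℝ := (p - q) / (p - q₁) with hα
  set β : ℝ := (q - q₁) / (p - q₁) with hβ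
  have hα0 : 0 ≤ α := div_nonneg (by linarith) hp2.le
  have hα1 : α < 1 := by
    rw [hα, div_lt_one hp2]
    linarith
  have hβ0 : 0 ≤ β := div_nonneg (by linarith) hp2.le
  have hαβ : α + β = 1 := by rw [hα, hβ]; field_simp; ring
  have hq : q₁ * α + p * β = q := by rw [hα, hβ]; field_simp; ring
  set C₁ : ℝ≥0∞ := (K₁ * ENNReal.ofReal ((((d : ℝ) + 1) * 2) ^ a)) ^ α * (Kp : ℝ≥0∞) ^ β with hC₁
  have hC₁t : C₁ ≠ ∞ := by
    refine ENNReal.mul_ne_top (ENNReal.rpow_ne_top_of_nonneg hα0 ?_)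
      (ENNReal.rpow_ne_top_of_nonneg hβ0 ENNReal.coe_ne_top)
    exact ENNReal.mul_ne_top ENNReal.coe_ne_top ENNReal.ofReal_ne_top
  set ρ : ℝ := (2 : ℝ) ^ (a * α - a) with hρ
  have hρ0 : 0 < ρ := by positivity
  have hρ1 : ρ < 1 := Real.rpow_lt_one_of_one_lt_of_neg (by norm_num) (by nlinarith)
  set Sg : ℝ≥0∞ := ∑' i : ℕ, ENNReal.ofReal (ρ ^ i) with hSg
  have hSgt : Sg ≠ ∞ := (summable_geometric_of_lt_one hρ0.le hρ1).tsum_ofReal_ne_top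
  have hKt : C₁ * Sg ≠ ∞ := ENNReal.mul_ne_top hC₁t hSgt
  refine ⟨(C₁ * Sg).toNNReal, fun G N hG h1 hp => ?_⟩
  rw [ENNReal.coe_toNNReal hKt]
  have hcov : (⋃ i : ℕ, {x : EuclideanSpace ℝ (Fin d) | fl x ∈ Ann d i}) = univ := by
    rw [eq_univ_iff_forall]
    intro x
    obtain ⟨i, hi⟩ := exists_ann (fl x)
    exact mem_iUnion.2 ⟨i, hi⟩
  have hp0 : 0 < p := by linarith
  have hGp : ∀ x, G x ^ q = (G x ^ q₁) ^ α * (G x ^ p) ^ β := by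
    intro x
    rw [← ENNReal.rpow_mul, ← ENNReal.rpow_mul, ← ENNReal.rpow_add_of_nonneg _ _ (by positivity)
      (by positivity), hq]
  have hshell : ∀ i : ℕ, ∫⁻ x in {x | fl x ∈ Ann d i},
      ENNReal.ofReal ((1 + ‖fl x‖) ^ (-a)) * G x ^ q ≤
        C₁ * N ^ q * ENNReal.ofReal (ρ ^ i) := by
    intro i
    have h2i : (0 : ℝ) < 2 ^ i := by positivity
    have s1 : ∫⁻ x in {x | fl x ∈ Ann d i}, ENNReal.ofReal ((1 + ‖fl x‖) ^ (-a)) * G x ^ q ≤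
        ∫⁻ x in {x | fl x ∈ Ann d i}, ENNReal.ofReal (((2 : ℝ) ^ i) ^ (-a)) * G x ^ q := by
      refine setLIntegral_mono' (ann_meas i) fun x hx => ?_
      refine mul_le_mul' (ENNReal.ofReal_le_ofReal ?_) le_rfl
      have hx' : fl x ∈ Ann d i := hx
      exact Real.rpow_le_rpow_of_nonpos h2i hx'.1 (by linarith)
    have s2 : ∫⁻ x in {x | fl x ∈ Ann d i}, G x ^ q ≤
        (K₁ * ENNReal.ofReal ((((d : ℝ) + 1) * 2 ^ (i + 1)) ^ a) * N ^ q₁) ^ α *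
          (Kp * N ^ p) ^ β := by
      simp_rw [hGp]
      refine (ENNReal.lintegral_mul_norm_pow_le (hG.pow_const _).aemeasurable
        (hG.pow_const _).aemeasurable hα0 hβ0 hαβ).trans ?_
      refine mul_le_mul' (ENNReal.rpow_le_rpow ?_ hα0) (ENNReal.rpow_le_rpow ?_ hβ0)
      · refine le_trans (lintegral_mono_set fun x hx => ann_ball i x hx) (h1 _ ?_)
        have h5 : (1 : ℝ) ≤ 2 ^ (i + 1) := one_le_pow₀ (by norm_num)
        have h6 : (0 : ℝ) ≤ d := Nat.cast_nonneg d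
        nlinarith
      · exact (setLIntegral_le_lintegral _ _).trans hp
    have s3 : (K₁ * ENNReal.ofReal ((((d : ℝ) + 1) * 2 ^ (i + 1)) ^ a) * N ^ q₁) ^ α *
          (Kp * N ^ p) ^ β = C₁ * N ^ q * ENNReal.ofReal (((2 : ℝ) ^ i) ^ (a * α)) := by
      have e2 : ENNReal.ofReal ((((d : ℝ) + 1) * 2 ^ (i + 1)) ^ a) =
          ENNReal.ofReal ((((d : ℝ) + 1) * 2) ^ a) * ENNReal.ofReal (2 ^ i) ^ a := by
        rw [ENNReal.ofReal_rpow_of_pos h2i, ← ENNReal.ofReal_mul (by positivity),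
          ← Real.mul_rpow (by positivity) (by positivity)]
        congr 2
        ring
      have e3 : ENNReal.ofReal (((2 : ℝ) ^ i) ^ (a * α)) = (ENNReal.ofReal (2 ^ i) ^ a) ^ α := by
        rw [← ENNReal.rpow_mul, ENNReal.ofReal_rpow_of_pos h2i]
      have e4 : N ^ q = (N ^ q₁) ^ α * (N ^ p) ^ β := by
        rw [← ENNReal.rpow_mul, ← ENNReal.rpow_mul, ← ENNReal.rpow_add_of_nonneg _ _ (by positivity)
          (by positivity), hq]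
      rw [e2, e3, e4, hC₁, ENNReal.mul_rpow_of_nonneg _ _ hα0,
        ENNReal.mul_rpow_of_nonneg _ _ hα0, ENNReal.mul_rpow_of_nonneg _ _ hα0,
        ENNReal.mul_rpow_of_nonneg _ _ hβ0, ENNReal.mul_rpow_of_nonneg _ _ hα0]
      ring
    refine s1.trans ?_
    rw [lintegral_const_mul _ (hG.pow_const q)]
    refine (mul_le_mul' le_rfl (s2.trans (le_of_eq s3))).trans (le_of_eq ?_)
    have e5 : ρ ^ i = ((2 : ℝ) ^ i) ^ (-a) * ((2 : ℝ) ^ i) ^ (a * α) := by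
      rw [← Real.rpow_add h2i, hρ, ← Real.rpow_natCast, ← Real.rpow_mul (by norm_num),
        ← Real.rpow_natCast 2 i, ← Real.rpow_mul (by norm_num)]
      congr 1
      ring
    rw [e5, ENNReal.ofReal_mul (by positivity)]
    ring
  calc ∫⁻ x, ENNReal.ofReal ((1 + ‖fl x‖) ^ (-a)) * G x ^ q
      = ∫⁻ x in ⋃ i : ℕ, {x | fl x ∈ Ann d i}, ENNReal.ofReal ((1 + ‖fl x‖) ^ (-a)) * G x ^ q := by
        rw [hcov, Measure.restrict_univ]
    _ ≤ ∑' i : ℕ, ∫⁻ x in {x | fl x ∈ Ann d i},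
        ENNReal.ofReal ((1 + ‖fl x‖) ^ (-a)) * G x ^ q := lintegral_iUnion_le _ _
    _ ≤ ∑' i : ℕ, C₁ * N ^ q * ENNReal.ofReal (ρ ^ i) := ENNReal.tsum_le_tsum hshell
    _ = C₁ * Sg * N ^ q := by
        rw [ENNReal.tsum_mul_left, ← hSg]
        ring

variable {d : ℕ} {Y : Type*} [MeasurableSpace Y] (μ : Measure Y) [IsFiniteMeasure μ]
  (Φ : Y → EuclideanSpace ℝ (Fin d)) (hΦ : Measurable Φ)

/-- the Fourier transform of `f dμ` -/
noncomputable def Gf (f : Y → ℂ) (x : EuclideanSpace ℝ (Fin d)) : ℂ :=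
  ∫ y, ex ⟪Φ y, x⟫ * f y ∂μ

theorem Gf_ps (f : Y → ℂ) (hf : MemLp f 2 μ) (x : EuclideanSpace ℝ (Fin d)) :
    inner ℂ (ps μ Φ hΦ x) (hf.toLp f) = Gf μ Φ f x := by
  rw [ps_inner]
  unfold Gf
  refine integral_congr_ae ?_
  filter_upwards [hf.coeFn_toLp] with y hy
  rw [hy]

include hΦ in
theorem Gf_meas (f : Y → ℂ) (hf : MemLp f 2 μ) : Measurable (Gf μ Φ f) := by
  have h := ps_meas μ Φ hΦ (hf.toLp f)
  simp_rw [Gf_ps] at h
  exact h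

include hΦ in
theorem high_int (L₀ γ : ℝ) (hL₀ : 0 ≤ L₀) (hγ : 0 < γ)
    (hdec : ∀ x, x ≠ 0 → ‖∫ y, ex ⟪Φ y, x⟫ ∂μ‖ ≤ L₀ * ‖x‖ ^ (-γ)) :
    ∃ K : ℕ, ∀ q : ℝ, (K : ℝ) < q → ∃ C : ℝ≥0, ∀ f : Lp ℂ 2 μ,
      ∫⁻ x, ‖inner ℂ (ps μ Φ hΦ x) f‖ₑ ^ q ≤ C * ‖f‖ₑ ^ q := by
  obtain ⟨K, hK⟩ := high_sum (ph_vecs μ Φ hΦ L₀ γ hL₀ hγ hdec)
  refine ⟨K, fun q hq => ?_⟩
  obtain ⟨C, hC⟩ := hK q hq
  have hq0 : 0 < q := lt_of_le_of_lt (Nat.cast_nonneg K) hq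
  set κ : ℝ≥0∞ := ENNReal.ofReal (kap μ)⁻¹ with hκ
  have hκt : κ ^ q ≠ ∞ := ENNReal.rpow_ne_top_of_nonneg hq0.le ENNReal.ofReal_ne_top
  refine ⟨C * (κ ^ q).toNNReal, fun f => ?_⟩
  rw [ENNReal.coe_mul, ENNReal.coe_toNNReal hκt]
  have hgm : Measurable fun x => ‖inner ℂ (ps μ Φ hΦ x) f‖ₑ ^ q :=
    (ps_meas μ Φ hΦ f).enorm.pow_const q
  have h1 := cube_int (fun _ => 1) _ hgm
  simp_rw [one_mul] at h1
  rw [h1]
  calc ∫⁻ z in uq 0, ∑' j, ‖inner ℂ (ps μ Φ hΦ (tz j + z)) f‖ₑ ^ q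
      ≤ ∫⁻ z in uq 0, C * κ ^ q * ‖f‖ₑ ^ q := by
        refine lintegral_mono fun z => ?_
        have h1 := hC (((kap μ : ℝ) : ℂ)⁻¹ • Mz μ Φ hΦ z f)
        simp_rw [ph_inner] at h1
        refine h1.trans (le_of_eq ?_)
        rw [Mz_enorm, ← hκ, ENNReal.mul_rpow_of_nonneg _ _ hq0.le, mul_assoc]
    _ = _ := by rw [setLIntegral_const, uq_vol, mul_one]

/-- the norms of the inclusions between the Lebesgue spaces -/
theorem inc_norm (s : ℝ≥0∞) (hs : 2 ≤ s) : ∃ S : ℝ≥0, ∀ f : Y → ℂ, MemLp f s μ →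
    eLpNorm f 2 μ ≤ S * eLpNorm f s μ := by
  set S : ℝ≥0∞ := μ univ ^ (1 / (2 : ℝ≥0∞).toReal - 1 / s.toReal) with hS
  have hexp : 0 ≤ 1 / (2 : ℝ≥0∞).toReal - 1 / s.toReal := by
    by_cases hst : s = ∞
    · rw [hst]; simp
    · have h1 : (2 : ℝ≥0∞).toReal ≤ s.toReal := ENNReal.toReal_mono hst hs
      rw [ENNReal.toReal_ofNat] at h1 ⊢
      rw [sub_nonneg]
      exact one_div_le_one_div_of_le (by norm_num) h1
  have hSt : S ≠ ∞ := ENNReal.rpow_ne_top_of_nonneg hexp (measure_ne_top _ _)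
  refine ⟨S.toNNReal, fun f hf => ?_⟩
  rw [ENNReal.coe_toNNReal hSt, mul_comm]
  exact eLpNorm_le_eLpNorm_mul_rpow_measure_univ hs hf.1

include hΦ in
/-- **Local estimates with a loss and weighted estimates.** -/
theorem loc_weight (L₀ γ : ℝ) (hL₀ : 0 ≤ L₀) (hγ : 0 < γ)
    (hdec : ∀ x, x ≠ 0 → ‖∫ y, ex ⟪Φ y, x⟫ ∂μ‖ ≤ L₀ * ‖x‖ ^ (-γ))
    (a : ℝ) (ha : 0 < a) (s : ℝ≥0∞) (hs : 2 ≤ s) (q₀ : ℝ) (hq₀ : 2 ≤ q₀)
    (h : ∀ q : ℝ, q₀ < q → ∃ C : ℝ≥0, ∀ R : ℝ, 1 ≤ R → ∀ f : Y → ℂ, MemLp f s μ →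
      ∫⁻ x in Metric.ball 0 R, ‖Gf μ Φ f x‖ₑ ^ q ≤
        C * ENNReal.ofReal (R ^ a) * eLpNorm f s μ ^ q) (q : ℝ) (hq : q₀ < q) :
    ∃ C : ℝ≥0, ∀ f : Y → ℂ, MemLp f s μ →
      ∫⁻ x, ENNReal.ofReal ((1 + ‖fl x‖) ^ (-a)) * ‖Gf μ Φ f x‖ₑ ^ q ≤
        C * eLpNorm f s μ ^ q := by
  obtain ⟨q₁, hq₁, hq₂⟩ := exists_between hq
  obtain ⟨C₁, hC₁⟩ := h q₁ hq₁
  obtain ⟨K, hK⟩ := high_int μ Φ hΦ L₀ γ hL₀ hγ hdec
  set p : ℝ := max q K + 1 with hp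
  have hp1 : q < p := by
    have := le_max_left q (K : ℝ)
    linarith
  have hp2 : (K : ℝ) < p := by
    have := le_max_right q (K : ℝ)
    linarith
  have hp0 : 0 < p := by linarith
  obtain ⟨Cp, hCp⟩ := hK p hp2
  obtain ⟨S, hS⟩ := inc_norm μ s hs
  have hSt : (S : ℝ≥0∞) ^ p ≠ ∞ := ENNReal.rpow_ne_top_of_nonneg hp0.le ENNReal.coe_ne_top
  obtain ⟨C, hC⟩ := shells2 (d := d) a q₁ q p ha hq₂ hp1 (by linarith) C₁
    (Cp * ((S : ℝ≥0∞) ^ p).toNNReal)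
  refine ⟨C, fun f hf => ?_⟩
  have hf2 : MemLp f 2 μ := hf.mono_exponent hs
  refine hC (fun x => ‖Gf μ Φ f x‖ₑ) (eLpNorm f s μ) (Gf_meas μ Φ hΦ f hf2).enorm
    (fun R hR => hC₁ R hR f hf) ?_
  have h1 := hCp (hf2.toLp f)
  simp_rw [Gf_ps] at h1
  refine h1.trans ?_
  rw [ENNReal.coe_mul, ENNReal.coe_toNNReal hSt, mul_assoc,
    ← ENNReal.mul_rpow_of_nonneg _ _ hp0.le, Lp.enorm_toLp]
  exact mul_le_mul' le_rfl (ENNReal.rpow_le_rpow (hS f hf) hp0.le)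

end Pool.Agent.Helper70x.RS
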