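import Mathlib
set_option autoImplicit false

/-! Existence of independent events with given probabilities. -/

namespace Pool.Agent.Helper70x.RS

open MeasureTheory Set ProbabilityTheory
open scoped ENNReal NNReal

theorem exists_model {α : Type} (w : α → ℝ) (h0 : ∀ k, 0 ≤ w k) (h1 : ∀ k, w k ≤ 1) :
    ∃ (Ω : Type) (_ : MeasurableSpace Ω) (P : Measure Ω) (A : α → Set Ω),
      IsProbabilityMeasure P ∧ (∀ k, MeasurableSet (A k)) ∧ iIndepSet A P ∧
        ∀ k, P (A k) = ENNReal.ofReal (w k) := by
  classical
  set ν : α → Measure Bool := fun k =>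
    ENNReal.ofReal (w k) • Measure.dirac true + ENNReal.ofReal (1 - w k) • Measure.dirac false
    with hν
  have hprob : ∀ k, IsProbabilityMeasure (ν k) := by
    intro k
    constructor
    simp only [hν, Measure.coe_add, Measure.coe_smul, Pi.add_apply, Pi.smul_apply, measure_univ,
      smul_eq_mul, mul_one]
    rw [← ENNReal.ofReal_add (h0 k) (by linarith [h1 k])]
    simp
  have htrue : ∀ k, ν k {true} = ENNReal.ofReal (w k) := by
    intro k
    simp [hν]
  set P : Measure (α → Bool) := Measure.infinitePi ν with hP
  set A : α → Set (α → Bool) := fun k => {ω | ω k = true} with hA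
  have hAm : ∀ k, MeasurableSet (A k) := by
    intro k
    have h : Measurable fun ω : α → Bool => ω k := measurable_pi_apply k
    exact h (measurableSet_singleton true)
  have hset : ∀ s : Finset α, (⋂ i ∈ s, A i) = Set.pi s (fun _ => {true}) := by
    intro s
    ext ω
    simp [hA, Set.mem_pi]
  have hinter : ∀ s : Finset α, P (⋂ i ∈ s, A i) = ∏ i ∈ s, ENNReal.ofReal (w i) := by
    intro s
    rw [hset, hP, Measure.infinitePi_pi ν (fun i _ => measurableSet_singleton true)]
    exact Finset.prod_congr rfl fun i _ => htrue i
  have hone : ∀ k, P (A k) = ENNReal.ofReal (w k) := by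
    intro k
    have h := hinter {k}
    simpa using h
  refine ⟨α → Bool, inferInstance, P, A, inferInstance, hAm, ?_, hone⟩
  rw [iIndepSet_iff_meas_biInter hAm]
  intro s
  rw [hinter]
  exact Finset.prod_congr rfl fun i _ => (hone i).symm

end Pool.Agent.Helper70x.RS
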